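import Pool.Agent.R436.Kur.General

/-! Formulas for the Kuramoto model on the blown-up path. -/

namespace KurUV

open MeasureTheory Filter Topology Set Metric Complex ComplexConjugate

/-- Unit complex number of a vertex. -/
noncomputable def ph (θ : Vtx → ℝ) (x : Vtx) : ℂ := Complex.exp (θ x * I)

/-- Sum of the unit complex numbers over a group. -/
noncomputable def zz (θ : Vtx → ℝ) (a : Fin 6) : ℂ := ∑ i : Fin (size a), ph θ ⟨a, i⟩

/-- Adjacency of groups. -/
noncomputable def gadj (a b : Fin 6) : ℝ :=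
  if a.val + 1 = b.val ∨ b.val + 1 = a.val then 1 else 0

/-- Field seen by a group. -/
noncomputable def hh (θ : Vtx → ℝ) : Fin 6 → ℂ :=
  ![zz θ 1, zz θ 0 + zz θ 2, zz θ 1 + zz θ 3, zz θ 2 + zz θ 4, zz θ 3 + zz θ 5, zz θ 4]

/-- Real part of `z_a * conj z_b`. -/
noncomputable def rr (θ : Vtx → ℝ) (a b : Fin 6) : ℝ := (zz θ a * conj (zz θ b)).re

theorem ph_re (θ : Vtx → ℝ) (x : Vtx) : (ph θ x).re = Real.cos (θ x) := by
  unfold ph; exact Complex.exp_ofReal_mul_I_re _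

theorem ph_im (θ : Vtx → ℝ) (x : Vtx) : (ph θ x).im = Real.sin (θ x) := by
  unfold ph; exact Complex.exp_ofReal_mul_I_im _

theorem ph_mul_re (θ : Vtx → ℝ) (x y : Vtx) :
    (ph θ x * conj (ph θ y)).re = Real.cos (θ x - θ y) := by
  rw [Complex.mul_re, Complex.conj_re, Complex.conj_im, ph_re, ph_re, ph_im, ph_im,
    Real.cos_sub]; ring

theorem ph_mul_im (θ : Vtx → ℝ) (x y : Vtx) :
    (ph θ x * conj (ph θ y)).im = Real.sin (θ x - θ y) := by
  rw [Complex.mul_im, Complex.conj_re, Complex.conj_im, ph_re, ph_re, ph_im, ph_im,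
    Real.sin_sub]; ring

theorem ph_sq (θ : Vtx → ℝ) (x : Vtx) : (ph θ x).re ^ 2 + (ph θ x).im ^ 2 = 1 := by
  rw [ph_re, ph_im]; exact Real.cos_sq_add_sin_sq _

theorem wt_blow (x y : Vtx) : wt blow x y = gadj x.1 y.1 := by
  unfold wt gadj
  have : blow.Adj x y ↔ (x.1.val + 1 = y.1.val ∨ y.1.val + 1 = x.1.val) := Iff.rfl
  by_cases h : (x.1.val + 1 = y.1.val ∨ y.1.val + 1 = x.1.val)
  · rw [if_pos (this.2 h), if_pos h]
  · rw [if_neg (fun h' => h (this.1 h')), if_neg h]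

theorem sum_gadj (θ : Vtx → ℝ) (a : Fin 6) : ∑ b, (gadj a b : ℂ) * zz θ b = hh θ a := by
  fin_cases a <;> simp [Fin.sum_univ_six, gadj, hh]

theorem field_blow (θ : Vtx → ℝ) (x : Vtx) :
    field blow θ x = (hh θ x.1 * conj (ph θ x)).im := by
  rw [field_eq, Fintype.sum_sigma, ← sum_gadj, Finset.sum_mul, Complex.im_sum]
  refine Finset.sum_congr rfl fun b _ => ?_
  have h1 : ∀ i : Fin (size b), wt blow x ⟨b, i⟩ * Real.sin (θ ⟨b, i⟩ - θ x)
      = gadj x.1 b * (ph θ ⟨b, i⟩ * conj (ph θ x)).im := by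
    intro i
    rw [wt_blow, ph_mul_im]
  rw [Finset.sum_congr rfl fun i _ => h1 i, ← Finset.mul_sum, ← Complex.im_sum,
    ← Finset.sum_mul, mul_assoc, Complex.im_ofReal_mul]
  rfl

theorem En_blow (θ : Vtx → ℝ) :
    En blow θ = -2 * (rr θ 0 1 + rr θ 1 2 + rr θ 2 3 + rr θ 3 4 + rr θ 4 5) := by
  have h1 : ∑ x, ∑ y, wt blow x y * Real.cos (θ x - θ y)
      = ∑ a : Fin 6, ∑ b : Fin 6, gadj a b * rr θ a b := by
    rw [Fintype.sum_sigma]
    refine Finset.sum_congr rfl fun a _ => ?_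
    have : ∀ i : Fin (size a), ∑ y, wt blow ⟨a, i⟩ y * Real.cos (θ ⟨a, i⟩ - θ y)
        = ∑ b, gadj a b * (ph θ ⟨a, i⟩ * conj (zz θ b)).re := by
      intro i
      rw [Fintype.sum_sigma]
      refine Finset.sum_congr rfl fun b _ => ?_
      rw [zz, map_sum, Finset.mul_sum, Complex.re_sum, Finset.mul_sum]
      refine Finset.sum_congr rfl fun j _ => ?_
      rw [wt_blow, ph_mul_re]
    rw [Finset.sum_congr rfl fun i _ => this i, Finset.sum_comm]
    refine Finset.sum_congr rfl fun b _ => ?_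
    rw [← Finset.mul_sum, ← Complex.re_sum, ← Finset.sum_mul]
    rfl
  have hsym : ∀ a b, rr θ a b = rr θ b a := by
    intro a b
    unfold rr
    rw [Complex.mul_re, Complex.mul_re, Complex.conj_re, Complex.conj_im, Complex.conj_re,
      Complex.conj_im]; ring
  unfold En
  rw [h1]
  simp only [Fin.sum_univ_six]
  rw [hsym 1 0, hsym 2 1, hsym 3 2, hsym 4 3, hsym 5 4]
  simp [gadj]
  ring

/-- Weighted group sums. -/
noncomputable def dd (θ v : Vtx → ℝ) (a : Fin 6) : ℂ :=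
  ∑ i : Fin (size a), (v ⟨a, i⟩ : ℂ) * ph θ ⟨a, i⟩

theorem quad_blow (p v : Vtx → ℝ) :
    ip v (lin blow p v) = ∑ a, ∑ b, gadj a b * (dd p v a * conj (dd p v b)).re
      - ∑ x, v x ^ 2 * (hh p x.1 * conj (ph p x)).re := by
  have h1 : ip v (lin blow p v) = ∑ x, ∑ y, wt blow x y * Real.cos (p x - p y) * (v x * v y)
      - ∑ x, v x ^ 2 * ∑ y, wt blow x y * Real.cos (p y - p x) := by
    unfold ip
    rw [← Finset.sum_sub_distrib]
    refine Finset.sum_congr rfl fun x _ => ?_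
    rw [lin_apply, Finset.mul_sum, Finset.mul_sum, ← Finset.sum_sub_distrib]
    refine Finset.sum_congr rfl fun y _ => ?_
    have : Real.cos (p x - p y) = Real.cos (p y - p x) := by
      rw [← Real.cos_neg]; ring_nf
    rw [this]; ring
  have h2 : ∀ x, ∑ y, wt blow x y * Real.cos (p y - p x) = (hh p x.1 * conj (ph p x)).re := by
    intro x
    rw [Fintype.sum_sigma, ← sum_gadj, Finset.sum_mul, Complex.re_sum]
    refine Finset.sum_congr rfl fun b _ => ?_
    rw [mul_assoc, Complex.re_ofReal_mul, zz, Finset.sum_mul, Complex.re_sum, Finset.mul_sum]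
    refine Finset.sum_congr rfl fun i _ => ?_
    rw [wt_blow, ph_mul_re]
  have h3 : ∑ x, ∑ y, wt blow x y * Real.cos (p x - p y) * (v x * v y)
      = ∑ a : Fin 6, ∑ b : Fin 6, gadj a b * (dd p v a * conj (dd p v b)).re := by
    rw [Fintype.sum_sigma]
    refine Finset.sum_congr rfl fun a _ => ?_
    have : ∀ i : Fin (size a), ∑ y, wt blow ⟨a, i⟩ y * Real.cos (p ⟨a, i⟩ - p y)
        * (v ⟨a, i⟩ * v y)
        = ∑ b, gadj a b * ((v ⟨a, i⟩ : ℂ) * ph p ⟨a, i⟩ * conj (dd p v b)).re := by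
      intro i
      rw [Fintype.sum_sigma]
      refine Finset.sum_congr rfl fun b _ => ?_
      rw [dd, map_sum, Finset.mul_sum, Complex.re_sum, Finset.mul_sum]
      refine Finset.sum_congr rfl fun j _ => ?_
      have e : ((v ⟨a, i⟩ : ℂ) * ph p ⟨a, i⟩ * conj ((v ⟨b, j⟩ : ℂ) * ph p ⟨b, j⟩))
          = ((v ⟨a, i⟩ * v ⟨b, j⟩ : ℝ) : ℂ) * (ph p ⟨a, i⟩ * conj (ph p ⟨b, j⟩)) := by
        rw [map_mul, Complex.conj_ofReal]; push_cast; ring
      rw [e, Complex.re_ofReal_mul, wt_blow, ph_mul_re]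
      ring
    rw [Finset.sum_congr rfl fun i _ => this i, Finset.sum_comm]
    refine Finset.sum_congr rfl fun b _ => ?_
    rw [← Finset.mul_sum, ← Complex.re_sum, ← Finset.sum_mul]
    rfl
  rw [h1, h3]
  congr 1
  exact Finset.sum_congr rfl fun x _ => by rw [h2]

/-- Torque balance: sum of the field over a group. -/
theorem sum_field (θ : Vtx → ℝ) (a : Fin 6) :
    ∑ i : Fin (size a), field blow θ ⟨a, i⟩ = (hh θ a * conj (zz θ a)).im := by
  rw [zz, map_sum, Finset.mul_sum, Complex.im_sum]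
  exact Finset.sum_congr rfl fun i _ => by rw [field_blow]

/-- Imaginary part of `z_a * conj z_b`. -/
noncomputable def tt (θ : Vtx → ℝ) (a b : Fin 6) : ℝ := (zz θ a * conj (zz θ b)).im

/-- Sum of the field over a group. -/
noncomputable def gs (θ : Vtx → ℝ) (a : Fin 6) : ℝ := ∑ i : Fin (size a), field blow θ ⟨a, i⟩

theorem tt_eq (θ : Vtx → ℝ) :
    tt θ 1 0 = gs θ 0 ∧ tt θ 2 1 = gs θ 0 + gs θ 1 ∧ tt θ 3 2 = gs θ 0 + gs θ 1 + gs θ 2 ∧
    tt θ 4 3 = gs θ 0 + gs θ 1 + gs θ 2 + gs θ 3 ∧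
    tt θ 5 4 = gs θ 0 + gs θ 1 + gs θ 2 + gs θ 3 + gs θ 4 := by
  have h0 := sum_field θ 0
  have h1 := sum_field θ 1
  have h2 := sum_field θ 2
  have h3 := sum_field θ 3
  have h4 := sum_field θ 4
  simp only [hh, Matrix.cons_val_zero, Matrix.cons_val_one, Matrix.cons_val, Complex.mul_im,
    Complex.add_re, Complex.add_im, Complex.conj_re, Complex.conj_im] at h0 h1 h2 h3 h4
  unfold tt gs
  simp only [Complex.mul_im, Complex.conj_re, Complex.conj_im]
  refine ⟨?_, ?_, ?_, ?_, ?_⟩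
  · linarith
  · linarith
  · linarith
  · linarith
  · linarith

end KurUV
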