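import Pool.Agent.R436.Kur.Trap

/-! Initial points whose trajectory stays near a strict saddle form a null set. -/

namespace KurUV

open MeasureTheory Filter Topology Set Metric

variable {V : Type} [Fintype V]

/-- Linearisation of the field at `p`. -/
noncomputable def lin (G : SimpleGraph V) (p : V → ℝ) : (V → ℝ) →ₗ[ℝ] (V → ℝ) where
  toFun d := fun i => ∑ j, wt G i j * Real.cos (p j - p i) * (d j - d i)
  map_add' := by
    intro a b
    funext i
    simp only [Pi.add_apply]
    rw [← Finset.sum_add_distrib]
    refine Finset.sum_congr rfl fun j _ => ?_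
    ring
  map_smul' := by
    intro c a
    funext i
    simp only [Pi.smul_apply, smul_eq_mul, RingHom.id_apply]
    rw [Finset.mul_sum]
    refine Finset.sum_congr rfl fun j _ => ?_
    ring

theorem lin_apply (G : SimpleGraph V) (p d : V → ℝ) (i : V) :
    lin G p d i = ∑ j, wt G i j * Real.cos (p j - p i) * (d j - d i) := rfl

/-- Inner product. -/
noncomputable def ip (a b : V → ℝ) : ℝ := ∑ i, a i * b i

theorem ip_self (a : V → ℝ) : ip a a = sq a := by
  unfold ip sq; exact Finset.sum_congr rfl fun i _ => by ring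

theorem lin_symm (G : SimpleGraph V) (p a b : V → ℝ) :
    ip a (lin G p b) = ip b (lin G p a) := by
  have key : ∀ a b : V → ℝ, ip a (lin G p b)
      = ∑ i, ∑ j, wt G i j * Real.cos (p j - p i) * (a i * b j)
        - ∑ i, ∑ j, wt G i j * Real.cos (p j - p i) * (a i * b i) := by
    intro a b
    unfold ip
    rw [← Finset.sum_sub_distrib]
    refine Finset.sum_congr rfl fun i _ => ?_
    rw [lin_apply, Finset.mul_sum, ← Finset.sum_sub_distrib]
    refine Finset.sum_congr rfl fun j _ => ?_
    ring
  rw [key, key]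
  congr 1
  · rw [Finset.sum_comm]
    refine Finset.sum_congr rfl fun i _ => Finset.sum_congr rfl fun j _ => ?_
    have : Real.cos (p i - p j) = Real.cos (p j - p i) := by
      rw [← Real.cos_neg]; ring_nf
    rw [this, wt_symm G j i]; ring
  · refine Finset.sum_congr rfl fun i _ => Finset.sum_congr rfl fun j _ => ?_
    ring

theorem sin_err {a b c r : ℝ} (ha : |a - c| ≤ r) (hb : |b - c| ≤ r) :
    |Real.sin b - Real.sin a - Real.cos c * (b - a)| ≤ r * |b - a| := by
  have hr : 0 ≤ r := (abs_nonneg _).trans ha
  have h := Convex.norm_image_sub_le_of_norm_hasDerivWithin_le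
    (f := fun t => Real.sin t - Real.cos c * t) (f' := fun t => Real.cos t - Real.cos c)
    (s := closedBall c r) (x := a) (y := b) (C := r)
    (fun t _ => by
      have h1 : HasDerivAt (fun t => Real.sin t - Real.cos c * t) (Real.cos t - Real.cos c * 1) t :=
        (Real.hasDerivAt_sin t).sub ((hasDerivAt_id t).const_mul _)
      rw [mul_one] at h1
      exact h1.hasDerivWithinAt)
    (fun t ht => by
      rw [mem_closedBall, Real.dist_eq] at ht
      exact (Real.abs_cos_sub_cos_le _ _).trans ht)
    (convex_closedBall _ _) (by rw [mem_closedBall, Real.dist_eq]; exact ha)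
    (by rw [mem_closedBall, Real.dist_eq]; exact hb)
  have e : Real.sin b - Real.sin a - Real.cos c * (b - a)
      = (Real.sin b - Real.cos c * b) - (Real.sin a - Real.cos c * a) := by ring
  rw [e]
  exact h

theorem field_lin_err (G : SimpleGraph V) {p x y : V → ℝ} {r : ℝ} (hx : dist x p ≤ r)
    (hy : dist y p ≤ r) (i : V) :
    |field G y i - field G x i - lin G p (y - x) i| ≤ Fintype.card V * (4 * r * ‖y - x‖) := by
  classical
  have hr : 0 ≤ r := dist_nonneg.trans hx
  rw [field_eq, field_eq, lin_apply, ← Finset.sum_sub_distrib, ← Finset.sum_sub_distrib]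
  refine (Finset.abs_sum_le_sum_abs _ _).trans ?_
  calc _ ≤ ∑ _j : V, 4 * r * ‖y - x‖ := by
        refine Finset.sum_le_sum fun j _ => ?_
        have hxk : ∀ k, |x k - p k| ≤ r := fun k => by
          have := dist_le_pi_dist x p k
          rw [Real.dist_eq] at this; linarith
        have hyk : ∀ k, |y k - p k| ≤ r := fun k => by
          have := dist_le_pi_dist y p k
          rw [Real.dist_eq] at this; linarith
        have hdk : ∀ k, |y k - x k| ≤ ‖y - x‖ := fun k => by
          have := norm_le_pi_norm (y - x) k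
          rwa [Real.norm_eq_abs] at this
        have h1 : |(x j - x i) - (p j - p i)| ≤ 2 * r := by
          have : (x j - x i) - (p j - p i) = (x j - p j) - (x i - p i) := by ring
          rw [this]
          exact (abs_sub _ _).trans (by linarith [hxk i, hxk j])
        have h2 : |(y j - y i) - (p j - p i)| ≤ 2 * r := by
          have : (y j - y i) - (p j - p i) = (y j - p j) - (y i - p i) := by ring
          rw [this]
          exact (abs_sub _ _).trans (by linarith [hyk i, hyk j])
        have h3 := sin_err h1 h2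
        have h4 : |(y j - y i) - (x j - x i)| ≤ 2 * ‖y - x‖ := by
          have : (y j - y i) - (x j - x i) = (y j - x j) - (y i - x i) := by ring
          rw [this]
          exact (abs_sub _ _).trans (by linarith [hdk i, hdk j])
        have e : wt G i j * Real.sin (y j - y i) - wt G i j * Real.sin (x j - x i)
            - wt G i j * Real.cos (p j - p i) * ((y - x) j - (y - x) i)
            = wt G i j * (Real.sin (y j - y i) - Real.sin (x j - x i)
              - Real.cos (p j - p i) * ((y j - y i) - (x j - x i))) := by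
          simp only [Pi.sub_apply]; ring
        rw [e, abs_mul, abs_of_nonneg (wt_nonneg G i j)]
        have h5 := wt_le_one G i j
        have h6 := wt_nonneg G i j
        have h7 := abs_nonneg (Real.sin (y j - y i) - Real.sin (x j - x i)
              - Real.cos (p j - p i) * ((y j - y i) - (x j - x i)))
        have h8 : 2 * r * |(y j - y i) - (x j - x i)| ≤ 2 * r * (2 * ‖y - x‖) := by gcongr
        nlinarith
    _ = _ := by simp

/-- Local null set lemma at a strict saddle. -/
theorem cone (G : SimpleGraph V) (Φ : (V → ℝ) → ℝ → (V → ℝ)) (h0 : ∀ x, Φ x 0 = x)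
    (hΦ : ∀ x t, HasDerivAt (Φ x) (field G (Φ x t)) t) (p v : V → ℝ)
    (hv : 0 < ip v (lin G p v)) :
    ∃ r > 0, volume {x | ∀ t : ℝ, 0 ≤ t → Φ x t ∈ closedBall p r} = 0 := by
  classical
  set S := lin G p with hS
  have hvne : v ≠ 0 := by
    rintro rfl
    simp [ip] at hv
  have hsqv : 0 < sq v := by
    have h1 := norm_sq_le_sq v
    have h2 : 0 < ‖v‖ := norm_pos_iff.2 hvne
    have h3 : 0 < ‖v‖ ^ 2 := by positivity
    linarith
  -- choose `κ`
  obtain ⟨κ, hκ, hκe⟩ : ∃ κ ∈ Ioo (0:ℝ) (ip v (S v) / sq v), κ ∉ {μ | Module.End.HasEigenvalue S μ} :=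
    (Ioo_infinite (by positivity)).exists_notMem_finite
      (Module.End.finite_hasEigenvalue (f := S))
  set T : (V → ℝ) →ₗ[ℝ] (V → ℝ) := S - κ • LinearMap.id with hT
  have hTap : ∀ d, T d = S d - κ • d := fun d => by simp [hT]
  have hker : LinearMap.ker T = ⊥ := by
    rw [LinearMap.ker_eq_bot']
    intro d hd
    by_contra hne
    refine hκe (Module.End.hasEigenvalue_of_hasEigenvector (x := d)
      ⟨Module.End.mem_eigenspace_iff.2 ?_, hne⟩)
    rw [hTap] at hd
    exact sub_eq_zero.1 hd
  obtain ⟨K0, hK0, hKa⟩ := LinearMap.exists_antilipschitzWith T hker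
  have hanti : ∀ d, ‖d‖ ≤ K0 * ‖T d‖ := by
    intro d
    have := hKa.le_mul_dist d 0
    simpa using this
  set N : ℝ := (Fintype.card V : ℝ) with hN
  have hN0 : 0 ≤ N := by positivity
  set c : ℝ := 1 / ((K0 : ℝ) ^ 2 * (N + 1)) with hc
  have hK0' : (0:ℝ) < K0 := by exact_mod_cast hK0
  have hc0 : 0 < c := by positivity
  have hTc : ∀ d, c * sq d ≤ sq (T d) := by
    intro d
    have h1 := norm_sq_le_sq (T d)
    have h2 := sq_le_card_norm d
    have h3 : ‖d‖ ^ 2 ≤ (K0 : ℝ) ^ 2 * ‖T d‖ ^ 2 := by
      rw [← mul_pow]; gcongr; exact hanti d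
    rw [hc, div_mul_eq_mul_div, one_mul, div_le_iff₀ (by positivity)]
    have h4 : sq d ≤ (N + 1) * ((K0 : ℝ) ^ 2 * ‖T d‖ ^ 2) := by
      calc sq d ≤ N * ‖d‖ ^ 2 := h2
        _ ≤ (N + 1) * ((K0 : ℝ) ^ 2 * ‖T d‖ ^ 2) := by
            apply mul_le_mul (by linarith) h3 (by positivity) (by positivity)
    calc sq d ≤ (N + 1) * ((K0 : ℝ) ^ 2 * ‖T d‖ ^ 2) := h4
      _ ≤ (N + 1) * ((K0 : ℝ) ^ 2 * sq (T d)) := by gcongr
      _ = _ := by ring
  -- radius
  obtain ⟨r, hr0, hr⟩ : ∃ r > 0, N * (N * (4 * r)) ^ 2 ≤ c := by
    have hcont : Tendsto (fun r : ℝ => N * (N * (4 * r)) ^ 2) (𝓝 0) (𝓝 0) := by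
      have : Continuous (fun r : ℝ => N * (N * (4 * r)) ^ 2) := by fun_prop
      simpa using this.tendsto 0
    have := hcont.eventually (gt_mem_nhds hc0)
    obtain ⟨δ, hδ, hδ'⟩ := Metric.eventually_nhds_iff.1 this
    refine ⟨δ / 2, by positivity, (hδ' ?_).le⟩
    rw [Real.dist_eq, sub_zero, abs_of_pos (by positivity)]; linarith
  refine ⟨r, hr0, ?_⟩
  set A : Set (V → ℝ) := {x | ∀ t : ℝ, 0 ≤ t → Φ x t ∈ closedBall p r} with hA
  have hAcl : IsClosed A := by
    have : A = ⋂ (t : ℝ) (_ : 0 ≤ t), (fun x => Φ x t) ⁻¹' closedBall p r := by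
      ext x; simp [hA]
    rw [this]
    refine isClosed_iInter fun t => isClosed_iInter fun ht => ?_
    refine isClosed_closedBall.preimage ?_
    have hlip : LipschitzWith (Real.toNNReal (Real.exp ((2 * Fintype.card V : NNReal) * t)))
        (fun y => Φ y t) := by
      refine LipschitzWith.of_dist_le_mul fun y z => ?_
      have := dist_flow_le (field_lip G) (γ := Φ y) (γ' := Φ z)
        (fun t _ => (hΦ _ t).hasDerivWithinAt) (fun t _ => (hΦ _ t).hasDerivWithinAt) ht
      rw [h0, h0] at this
      rw [Real.coe_toNNReal _ (Real.exp_pos _).le, mul_comm]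
      exact this
    exact hlip.continuous
  -- key estimate
  have hkey : ∀ x ∈ A, ∀ y ∈ A, ip (y - x) (S (y - x)) - κ * sq (y - x) ≤ 0 := by
    intro x hx y hy
    set d : ℝ → V → ℝ := fun t => Φ y t - Φ x t with hd
    set q : ℝ → ℝ := fun t => ip (d t) (S (d t)) - κ * sq (d t) with hq
    have hdd : ∀ t, HasDerivAt d (field G (Φ y t) - field G (Φ x t)) t := fun t =>
      (hΦ y t).sub (hΦ x t)
    have hdi : ∀ t i, HasDerivAt (fun s => d s i) (field G (Φ y t) i - field G (Φ x t) i) t :=
      fun t => hasDerivAt_pi.1 (hdd t)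
    have hSd : ∀ t, HasDerivAt (fun s => S (d s))
        (S (field G (Φ y t) - field G (Φ x t))) t := by
      intro t
      have := (LinearMap.toContinuousLinearMap S).hasFDerivAt.comp_hasDerivAt t (hdd t)
      exact this
    have hSdi : ∀ t i, HasDerivAt (fun s => S (d s) i)
        (S (field G (Φ y t) - field G (Φ x t)) i) t := fun t => hasDerivAt_pi.1 (hSd t)
    have hqd : ∀ t, HasDerivAt q (2 * ip (T (d t)) (field G (Φ y t) - field G (Φ x t))) t := by
      intro t
      set u := field G (Φ y t) - field G (Φ x t) with hu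
      have h1 : HasDerivAt (fun s => ip (d s) (S (d s)))
          (∑ i, (u i * S (d t) i + d t i * S u i)) t := by
        unfold ip
        exact HasDerivAt.fun_sum fun i _ => (hdi t i).mul (hSdi t i)
      have h2 : HasDerivAt (fun s => sq (d s)) (∑ i, (2 * d t i * u i)) t := by
        unfold sq
        refine HasDerivAt.fun_sum fun i _ => ?_
        have h5 : HasDerivAt (fun s => (d s i) ^ 2) (((2:ℕ):ℝ) * (d t i) ^ (2 - 1) * u i) t :=
          (hdi t i).pow 2
        have e5 : ((2:ℕ):ℝ) * (d t i) ^ (2 - 1) * u i = 2 * d t i * u i := by norm_num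
        rw [e5] at h5
        exact h5
      have h3 := h1.sub (h2.const_mul κ)
      have e : 2 * ip (T (d t)) u = ∑ i, (u i * S (d t) i + d t i * S u i)
          - κ * ∑ i, (2 * d t i * u i) := by
        rw [Finset.sum_add_distrib]
        have e1 : ∑ i, d t i * S u i = ∑ i, u i * S (d t) i := lin_symm G p (d t) u
        rw [e1, hTap]
        unfold ip
        rw [Finset.mul_sum, Finset.mul_sum, ← Finset.sum_add_distrib, ← Finset.sum_sub_distrib]
        refine Finset.sum_congr rfl fun i _ => ?_
        simp only [Pi.sub_apply, Pi.smul_apply, smul_eq_mul]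
        ring
      rw [e]
      exact h3
    have hlow : ∀ t, 0 ≤ t → 2 * κ * q t ≤ 2 * ip (T (d t)) (field G (Φ y t) - field G (Φ x t)) := by
      intro t ht
      set u := field G (Φ y t) - field G (Φ x t) with hu
      set e : V → ℝ := u - S (d t) with he
      have hue : ∀ i, u i = T (d t) i + κ * d t i + e i := by
        intro i
        rw [hTap]; simp [he]
      have hee : ∀ i, |e i| ≤ N * (4 * r) * ‖d t‖ := by
        intro i
        have := field_lin_err G (p := p) (x := Φ x t) (y := Φ y t) (hx t ht) (hy t ht) i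
        rw [mul_assoc]
        exact this
      have hsqe : sq e ≤ c * sq (d t) := by
        calc sq e ≤ ∑ _i : V, (N * (4 * r)) ^ 2 * ‖d t‖ ^ 2 := by
              unfold sq
              refine Finset.sum_le_sum fun i _ => ?_
              rw [← sq_abs, ← mul_pow]
              gcongr
              exact hee i
          _ = N * (N * (4 * r)) ^ 2 * ‖d t‖ ^ 2 := by simp [hN]; ring
          _ ≤ c * ‖d t‖ ^ 2 := by gcongr
          _ ≤ c * sq (d t) := by gcongr; exact norm_sq_le_sq _
      have hip : ip (T (d t)) u = sq (T (d t)) + κ * q t + ip (T (d t)) e := by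
        have e1 : ip (T (d t)) (κ • d t) = κ * q t := by
          rw [hq]
          simp only
          rw [← ip_self (d t)]
          unfold ip
          rw [Finset.mul_sum, ← Finset.sum_sub_distrib, Finset.mul_sum]
          refine Finset.sum_congr rfl fun i _ => ?_
          rw [hTap]; simp only [Pi.sub_apply, Pi.smul_apply, smul_eq_mul]; ring
        rw [← e1, ← ip_self]
        unfold ip
        rw [← Finset.sum_add_distrib, ← Finset.sum_add_distrib]
        refine Finset.sum_congr rfl fun i _ => ?_
        rw [hue i]; simp only [Pi.smul_apply, smul_eq_mul]; ring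
      have hcs : -(sq (T (d t)) + sq e) ≤ 2 * ip (T (d t)) e := by
        unfold sq ip
        rw [Finset.mul_sum, ← Finset.sum_add_distrib, ← Finset.sum_neg_distrib]
        refine Finset.sum_le_sum fun i _ => ?_
        nlinarith [sq_nonneg (T (d t) i + e i)]
      have := hTc (d t)
      rw [hip]
      linarith
    -- exponential growth
    set g : ℝ → ℝ := fun t => q t * Real.exp (-(2 * κ * t)) with hg
    have hgd : ∀ t, HasDerivAt g
        ((2 * ip (T (d t)) (field G (Φ y t) - field G (Φ x t)) - 2 * κ * q t)
          * Real.exp (-(2 * κ * t))) t := by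
      intro t
      have h1 : HasDerivAt (fun t => Real.exp (-(2 * κ * t)))
          (Real.exp (-(2 * κ * t)) * (-(2 * κ))) t := by
        have h2 : HasDerivAt (fun t : ℝ => -(2 * κ * t)) (-(2 * κ * 1)) t :=
          ((hasDerivAt_id t).const_mul (2 * κ)).neg
        rw [mul_one] at h2
        exact h2.exp
      have h3 := (hqd t).mul h1
      have e : (2 * ip (T (d t)) (field G (Φ y t) - field G (Φ x t)) - 2 * κ * q t)
          * Real.exp (-(2 * κ * t)) = 2 * ip (T (d t)) (field G (Φ y t) - field G (Φ x t))
            * Real.exp (-(2 * κ * t)) + q t * (Real.exp (-(2 * κ * t)) * (-(2 * κ))) := by ring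
      rw [e]; exact h3
    have hgmono : MonotoneOn g (Ici 0) := by
      refine monotoneOn_of_deriv_nonneg (convex_Ici 0)
        (fun t _ => (hgd t).continuousAt.continuousWithinAt)
        (fun t _ => (hgd t).differentiableAt.differentiableWithinAt) ?_
      intro t ht
      rw [interior_Ici] at ht
      rw [(hgd t).deriv]
      have := hlow t (le_of_lt ht)
      exact mul_nonneg (by linarith) (Real.exp_pos _).le
    by_contra hcon
    push Not at hcon
    have hq0 : 0 < q 0 := by
      have : d 0 = y - x := by simp [hd, h0]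
      rw [hq]; simp only; rw [this]; exact hcon
    -- upper bound of `q`
    obtain ⟨M, hM⟩ : ∃ M : ℝ, ∀ t, 0 ≤ t → q t ≤ M := by
      have hcomp : IsCompact (closedBall (0 : V → ℝ) (2 * r)) := isCompact_closedBall _ _
      have hcontq : Continuous (fun u : V → ℝ => ip u (S u) - κ * sq u) := by
        have h1 : Continuous (fun u : V → ℝ => S u) := S.continuous_of_finiteDimensional
        have h2 : Continuous (fun u : V → ℝ => ip u (S u)) := by
          unfold ip
          refine continuous_finsetSum _ fun i _ => ?_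
          exact (continuous_apply i).mul ((continuous_apply i).comp h1)
        exact h2.sub (continuous_const.mul continuous_sq)
      obtain ⟨M, hM⟩ := (hcomp.image hcontq).bddAbove
      refine ⟨M, fun t ht => hM ⟨d t, ?_, rfl⟩⟩
      rw [mem_closedBall, dist_zero_right]
      have h1 := hx t ht
      have h2 := hy t ht
      rw [mem_closedBall] at h1 h2
      have h3 : ‖d t‖ = dist (Φ y t) (Φ x t) := by rw [dist_eq_norm]
      rw [h3]
      exact (dist_triangle_right _ _ p).trans (by linarith)
    have hexp : Tendsto (fun t : ℝ => q 0 * Real.exp (2 * κ * t)) atTop atTop := by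
      refine Tendsto.const_mul_atTop hq0 ?_
      exact Real.tendsto_exp_atTop.comp (tendsto_id.const_mul_atTop (by linarith [hκ.1]))
    obtain ⟨t, ht, ht0⟩ := ((hexp.eventually (eventually_gt_atTop M)).and
      (eventually_ge_atTop (0:ℝ))).exists
    have h1 : g 0 ≤ g t := hgmono (mem_Ici.2 le_rfl) (mem_Ici.2 ht0) ht0
    rw [hg] at h1
    simp only [mul_zero, neg_zero, Real.exp_zero, mul_one] at h1
    have h2 : q 0 * Real.exp (2 * κ * t) ≤ q t := by
      have h3 : q 0 * Real.exp (2 * κ * t)
          ≤ q t * Real.exp (-(2 * κ * t)) * Real.exp (2 * κ * t) := by gcongr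
      rwa [mul_assoc (q t), ← Real.exp_add, neg_add_cancel, Real.exp_zero, mul_one] at h3
    linarith [hM t ht0]
  -- translates
  have hvq : 0 < ip v (S v) - κ * sq v := by
    have := (lt_div_iff₀ hsqv).1 hκ.2
    linarith
  refine Measure.addHaar_eq_zero_of_disjoint_translates volume
    (fun n : ℕ => ((1:ℝ) / (n + 1)) • v) ?_ ?_ hAcl.measurableSet
  · have : Tendsto (fun n : ℕ => ((1:ℝ) / (n + 1)) • v) atTop (𝓝 ((0:ℝ) • v)) :=
      (tendsto_one_div_add_atTop_nhds_zero_nat).smul_const v
    exact isBounded_range_of_tendsto _ this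
  · intro m n hmn
    rw [Function.onFun, Set.disjoint_left]
    intro z hz1 hz2
    rw [singleton_add] at hz1 hz2
    obtain ⟨x, hx, hxz⟩ := hz1
    obtain ⟨y, hy, hyz⟩ := hz2
    simp only at hxz hyz
    set s : ℝ := (1:ℝ) / (m + 1) - 1 / (n + 1) with hs
    have hs0 : s ≠ 0 := by
      intro hs0
      have h1 : (1:ℝ) / (m + 1) = 1 / (n + 1) := by linarith
      rw [div_eq_div_iff (by positivity) (by positivity)] at h1
      have h2 : (n:ℝ) = m := by linarith
      exact hmn (by exact_mod_cast h2.symm)
    have hyx : y - x = s • v := by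
      rw [hs, sub_smul]
      have : y = z - ((1:ℝ) / (n + 1)) • v := by rw [← hyz]; abel
      have h' : x = z - ((1:ℝ) / (m + 1)) • v := by rw [← hxz]; abel
      rw [this, h']; abel
    have h1 := hkey x hx y hy
    rw [hyx] at h1
    have h2 : ip (s • v) (S (s • v)) - κ * sq (s • v) = s ^ 2 * (ip v (S v) - κ * sq v) := by
      rw [map_smul]
      unfold ip sq
      simp only [Pi.smul_apply, smul_eq_mul]
      rw [mul_sub, Finset.mul_sum, Finset.mul_sum, Finset.mul_sum, Finset.mul_sum]
      congr 1
      · exact Finset.sum_congr rfl fun i _ => by ring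
      · exact Finset.sum_congr rfl fun i _ => by ring
    rw [h2] at h1
    have h3 : 0 < s ^ 2 := by positivity
    nlinarith

end KurUV
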