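import Pool.Agent.R436.Kur.Blow

/-! Classification of the relevant equilibria of the blown-up path. -/

namespace KurUV

open MeasureTheory Filter Topology Set Metric Complex ComplexConjugate

/-- All members of group `a` lie on one line through the origin. -/
def Al (p : Vtx → ℝ) (a : Fin 6) : Prop :=
  ∀ i j : Fin (size a), (ph p ⟨a, i⟩ * conj (ph p ⟨a, j⟩)).im = 0

/-- Restriction on limit points coming from the conserved cross ratios. -/
def Rel (p : Vtx → ℝ) : Prop :=
  ∀ (a : Fin 6) (i j k l : Fin (size a)), i ≠ j → k ≠ l →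
    (1 - Real.cos (p ⟨a, i⟩ - p ⟨a, j⟩)) * (1 - Real.cos (p ⟨a, k⟩ - p ⟨a, l⟩)) = 0 →
    (1 - Real.cos (p ⟨a, i⟩ - p ⟨a, k⟩)) * (1 - Real.cos (p ⟨a, j⟩ - p ⟨a, l⟩)) = 0

theorem norm_ph (θ : Vtx → ℝ) (x : Vtx) : ‖ph θ x‖ = 1 := by
  unfold ph; exact Complex.norm_exp_ofReal_mul_I _

theorem ph_mul_conj_self (θ : Vtx → ℝ) (x : Vtx) : ph θ x * conj (ph θ x) = 1 := by
  rw [Complex.mul_conj, Complex.normSq_eq_norm_sq, norm_ph]; simp

theorem norm_zz_le (θ : Vtx → ℝ) (a : Fin 6) : ‖zz θ a‖ ≤ size a := by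
  unfold zz
  refine (norm_sum_le _ _).trans ?_
  simp [norm_ph]

theorem norm_zz_of_al {p : Vtx → ℝ} (hR : Rel p) {a : Fin 6} (hs : 3 ≤ size a) (hA : Al p a) :
    ‖zz p a‖ = size a ∨ ‖zz p a‖ = size a - 2 := by
  classical
  have i0 : Fin (size a) := ⟨0, by omega⟩
  set u : ℂ := ph p ⟨a, i0⟩ with hu
  set e : Fin (size a) → ℝ := fun i => (ph p ⟨a, i⟩ * conj u).re with he
  have hmul : ∀ i, ph p ⟨a, i⟩ = (e i : ℂ) * u := by
    intro i
    have h1 : ph p ⟨a, i⟩ * conj u = (e i : ℂ) := by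
      apply Complex.ext
      · simp [he]
      · rw [Complex.ofReal_im]; exact hA i i0
    calc ph p ⟨a, i⟩ = ph p ⟨a, i⟩ * (u * conj u) := by rw [hu, ph_mul_conj_self, mul_one]
      _ = (ph p ⟨a, i⟩ * conj u) * u := by ring
      _ = _ := by rw [h1]
  have hsq : ∀ i, e i = 1 ∨ e i = -1 := by
    intro i
    have h1 := norm_ph p ⟨a, i⟩
    rw [hmul i, norm_mul, hu, norm_ph, mul_one, Complex.norm_real, Real.norm_eq_abs] at h1
    exact eq_or_eq_neg_of_abs_eq h1
  set B : Finset (Fin (size a)) := Finset.univ.filter (fun i => e i = -1) with hB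
  have hsum : ∑ i, e i = size a - 2 * B.card := by
    have h1 : ∀ i, e i = 1 - 2 * (if e i = -1 then (1:ℝ) else 0) := by
      intro i
      rcases hsq i with h | h
      · rw [h]; norm_num
      · rw [h]; norm_num
    rw [Finset.sum_congr rfl fun i _ => h1 i, Finset.sum_sub_distrib, ← Finset.mul_sum,
      Finset.sum_boole]
    simp [hB]
  have hz : zz p a = ((∑ i, e i : ℝ) : ℂ) * u := by
    unfold zz
    rw [Complex.ofReal_sum, Finset.sum_mul]
    exact Finset.sum_congr rfl fun i _ => hmul i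
  have hnorm : ‖zz p a‖ = |(size a : ℝ) - 2 * B.card| := by
    rw [hz, norm_mul, hu, norm_ph, mul_one, Complex.norm_real, Real.norm_eq_abs, hsum]
  have hcos : ∀ i j, Real.cos (p ⟨a, i⟩ - p ⟨a, j⟩) = e i * e j := by
    intro i j
    rw [← ph_mul_re, hmul i, hmul j, map_mul, Complex.conj_ofReal]
    have : (e i : ℂ) * u * ((e j : ℂ) * conj u) = ((e i * e j : ℝ) : ℂ) * (u * conj u) := by
      push_cast; ring
    rw [this, hu, ph_mul_conj_self, mul_one, Complex.ofReal_re]
  have hcard : B.card ≤ size a := by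
    have := Finset.card_le_univ B
    simpa using this
  have hcases : B.card ≤ 1 ∨ size a - B.card ≤ 1 := by
    by_contra hcon
    push Not at hcon
    obtain ⟨h1, h2⟩ := hcon
    obtain ⟨k, hk, l, hl, hkl⟩ := Finset.one_lt_card.1 h1
    have h3 : 1 < (Finset.univ.filter (fun i => ¬ e i = -1)).card := by
      have := Finset.card_filter_add_card_filter_not (s := (Finset.univ : Finset (Fin (size a))))
        (fun i => e i = -1)
      rw [Finset.card_univ, Fintype.card_fin, ← hB] at this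
      omega
    obtain ⟨i, hi, j, hj, hij⟩ := Finset.one_lt_card.1 h3
    simp only [hB, Finset.mem_filter, Finset.mem_univ, true_and] at hk hl hi hj
    have hi' := (hsq i).resolve_right hi
    have hj' := (hsq j).resolve_right hj
    have := hR a i j k l hij hkl (by rw [hcos, hi', hj']; ring)
    rw [hcos, hcos, hi', hj', hk, hl] at this
    norm_num at this
  rw [hnorm]
  rcases hcases with h | h
  · interval_cases hb : B.card
    · left; simp
    · right
      have : (3:ℝ) ≤ size a := by exact_mod_cast hs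
      rw [abs_of_nonneg] <;> push_cast <;> linarith
  · have hb : B.card = size a ∨ B.card = size a - 1 := by omega
    rcases hb with hb | hb
    · left
      rw [hb]
      have : (3:ℝ) ≤ size a := by exact_mod_cast hs
      rw [abs_of_nonpos] <;> linarith
    · right
      have h3 : (B.card : ℝ) = size a - 1 := by
        rw [hb, Nat.cast_sub (by omega)]; simp
      rw [h3]
      have : (3:ℝ) ≤ size a := by exact_mod_cast hs
      rw [abs_of_nonpos] <;> linarith

theorem im_zero {p : Vtx → ℝ} (hF : field blow p = 0) (x : Vtx) :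
    (hh p x.1 * conj (ph p x)).im = 0 := by
  rw [← field_blow, hF]; rfl

theorem al_of_ne {p : Vtx → ℝ} (hF : field blow p = 0) {a : Fin 6} (ha : hh p a ≠ 0) :
    Al p a := by
  intro i j
  have hi := im_zero hF ⟨a, i⟩
  have hj := im_zero hF ⟨a, j⟩
  simp only at hi hj
  have h1 : (ph p ⟨a, i⟩ * conj (ph p ⟨a, j⟩)) * (Complex.normSq (hh p a) : ℂ)
      = conj (hh p a * conj (ph p ⟨a, i⟩)) * (hh p a * conj (ph p ⟨a, j⟩)) := by
    rw [← Complex.mul_conj, map_mul, Complex.conj_conj]; ring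
  have h0 : (conj (hh p a * conj (ph p ⟨a, i⟩)) * (hh p a * conj (ph p ⟨a, j⟩))).im = 0 := by
    rw [Complex.mul_im (conj (hh p a * conj (ph p ⟨a, i⟩))), Complex.conj_im, Complex.conj_re,
      hi, hj]; ring
  have h2 := congrArg Complex.im h1
  rw [h0, mul_comm _ (Complex.normSq (hh p a) : ℂ), Complex.im_ofReal_mul] at h2
  have h3 : Complex.normSq (hh p a) ≠ 0 := by rwa [Ne, Complex.normSq_eq_zero]
  exact (mul_eq_zero.1 h2).resolve_left h3

/-- Both groups of the pair see no field and are not aligned, or both see a field. -/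
def Pair (p : Vtx → ℝ) (a b : Fin 6) : Prop :=
  (hh p a = 0 ∧ hh p b = 0 ∧ ¬ Al p a ∧ ¬ Al p b) ∨ (hh p a ≠ 0 ∧ hh p b ≠ 0)

theorem classify {p : Vtx → ℝ} (hF : field blow p = 0) (hR : Rel p) :
    Pair p 0 1 ∧ Pair p 2 3 ∧ Pair p 4 5 := by
  have K0 : Al p 0 → ‖zz p 0‖ = 90 ∨ ‖zz p 0‖ = 88 := fun h => by
    have := norm_zz_of_al hR (a := 0) (by decide) h
    simp only [size, Matrix.cons_val_zero] at this
    norm_num at this; exact this
  have K1 : Al p 1 → ‖zz p 1‖ = 9 ∨ ‖zz p 1‖ = 7 := fun h => by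
    have := norm_zz_of_al hR (a := 1) (by decide) h
    simp only [size, Matrix.cons_val_one] at this
    norm_num at this; exact this
  have K2 : Al p 2 → ‖zz p 2‖ = 10 ∨ ‖zz p 2‖ = 8 := fun h => by
    have := norm_zz_of_al hR (a := 2) (by decide) h
    simp only [size, Matrix.cons_val] at this
    norm_num at this; exact this
  have K3 : Al p 3 → ‖zz p 3‖ = 10 ∨ ‖zz p 3‖ = 8 := fun h => by
    have := norm_zz_of_al hR (a := 3) (by decide) h
    simp only [size, Matrix.cons_val] at this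
    norm_num at this; exact this
  have K4 : Al p 4 → ‖zz p 4‖ = 9 ∨ ‖zz p 4‖ = 7 := fun h => by
    have := norm_zz_of_al hR (a := 4) (by decide) h
    simp only [size, Matrix.cons_val] at this
    norm_num at this; exact this
  have K5 : Al p 5 → ‖zz p 5‖ = 90 ∨ ‖zz p 5‖ = 88 := fun h => by
    have := norm_zz_of_al hR (a := 5) (by decide) h
    simp only [size, Matrix.cons_val] at this
    norm_num at this; exact this
  have b2 : ‖zz p 2‖ ≤ 10 := by simpa [size] using norm_zz_le p 2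
  have b3 : ‖zz p 3‖ ≤ 10 := by simpa [size] using norm_zz_le p 3
  have neq : ∀ a b : ℂ, a + b = 0 → ‖a‖ = ‖b‖ := by
    intro a b h
    rw [eq_neg_of_add_eq_zero_left h, norm_neg]
  have Z0 : hh p 0 = 0 → ‖zz p 1‖ = 0 := fun h => by
    have h' : zz p 1 = 0 := h
    rw [h', norm_zero]
  have Z1 : hh p 1 = 0 → ‖zz p 0‖ = ‖zz p 2‖ := fun h => neq _ _ h
  have Z2 : hh p 2 = 0 → ‖zz p 1‖ = ‖zz p 3‖ := fun h => neq _ _ h
  have Z3 : hh p 3 = 0 → ‖zz p 2‖ = ‖zz p 4‖ := fun h => neq _ _ h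
  have Z4 : hh p 4 = 0 → ‖zz p 3‖ = ‖zz p 5‖ := fun h => neq _ _ h
  have Z5 : hh p 5 = 0 → ‖zz p 4‖ = 0 := fun h => by
    have h' : zz p 4 = 0 := h
    rw [h', norm_zero]
  have NA : ∀ a, ¬ Al p a → hh p a = 0 := fun a h => by
    by_contra hne; exact h (al_of_ne hF hne)
  -- pair 0 1
  have z01 : hh p 0 = 0 → ¬ Al p 1 := fun h hA => by
    have := Z0 h
    rcases K1 hA with h' | h' <;> linarith
  have z10 : hh p 1 = 0 → ¬ Al p 0 := fun h hA => by
    have := Z1 h
    rcases K0 hA with h' | h' <;> linarith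
  have z54 : hh p 5 = 0 → ¬ Al p 4 := fun h hA => by
    have := Z5 h
    rcases K4 hA with h' | h' <;> linarith
  have z45 : hh p 4 = 0 → ¬ Al p 5 := fun h hA => by
    have := Z4 h
    rcases K5 hA with h' | h' <;> linarith
  -- pair 2 3
  have A1 : ¬ Al p 1 → ‖zz p 1‖ = 0 := fun h => Z0 (NA 0 (z10 (NA 1 h)))
  have A4 : ¬ Al p 4 → ‖zz p 4‖ = 0 := fun h => Z5 (NA 5 (z45 (NA 4 h)))
  have z23 : hh p 2 = 0 → ¬ Al p 3 := fun h hA => by
    have h1 := Z2 h
    by_cases hA1 : Al p 1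
    · rcases K3 hA with h' | h' <;> rcases K1 hA1 with h'' | h'' <;> linarith
    · have := A1 hA1
      rcases K3 hA with h' | h' <;> linarith
  have z32 : hh p 3 = 0 → ¬ Al p 2 := fun h hA => by
    have h1 := Z3 h
    by_cases hA4 : Al p 4
    · rcases K2 hA with h' | h' <;> rcases K4 hA4 with h'' | h'' <;> linarith
    · have := A4 hA4
      rcases K2 hA with h' | h' <;> linarith
  refine ⟨?_, ?_, ?_⟩
  · by_cases h : hh p 0 = 0
    · have h1 := NA 1 (z01 h)
      exact Or.inl ⟨h, h1, z10 h1, z01 h⟩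
    · exact Or.inr ⟨h, fun h1 => h (NA 0 (z10 h1))⟩
  · by_cases h : hh p 2 = 0
    · have h1 := NA 3 (z23 h)
      exact Or.inl ⟨h, h1, z32 h1, z23 h⟩
    · exact Or.inr ⟨h, fun h1 => h (NA 2 (z32 h1))⟩
  · by_cases h : hh p 4 = 0
    · have h1 := NA 5 (z45 h)
      exact Or.inl ⟨h, h1, z54 h1, z45 h⟩
    · exact Or.inr ⟨h, fun h1 => h (NA 4 (z54 h1))⟩

end KurUV
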