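import Pool.Agent.R436.Kur.PLq

/-! Conserved cross ratios and global synchronization of the blown-up path. -/

namespace KurUV

open MeasureTheory Filter Topology Set Metric Complex ComplexConjugate

/-- Real part seen by a vertex. -/
noncomputable def cf (y : Vtx → ℝ) (x : Vtx) : ℝ := (hh y x.1 * conj (ph y x)).re

theorem norm_hh_le (y : Vtx → ℝ) (a : Fin 6) : ‖hh y a‖ ≤ 180 := by
  have h0 : ‖zz y 0‖ ≤ 90 := by simpa [size] using norm_zz_le y 0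
  have h1 : ‖zz y 1‖ ≤ 9 := by simpa [size] using norm_zz_le y 1
  have h2 : ‖zz y 2‖ ≤ 10 := by simpa [size] using norm_zz_le y 2
  have h3 : ‖zz y 3‖ ≤ 10 := by simpa [size] using norm_zz_le y 3
  have h4 : ‖zz y 4‖ ≤ 9 := by simpa [size] using norm_zz_le y 4
  have h5 : ‖zz y 5‖ ≤ 90 := by simpa [size] using norm_zz_le y 5
  fin_cases a
  · change ‖zz y 1‖ ≤ 180
    linarith
  · change ‖zz y 0 + zz y 2‖ ≤ 180
    linarith [norm_add_le (zz y 0) (zz y 2)]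
  · change ‖zz y 1 + zz y 3‖ ≤ 180
    linarith [norm_add_le (zz y 1) (zz y 3)]
  · change ‖zz y 2 + zz y 4‖ ≤ 180
    linarith [norm_add_le (zz y 2) (zz y 4)]
  · change ‖zz y 3 + zz y 5‖ ≤ 180
    linarith [norm_add_le (zz y 3) (zz y 5)]
  · change ‖zz y 4‖ ≤ 180
    linarith

theorem abs_cf_le (y : Vtx → ℝ) (x : Vtx) : |cf y x| ≤ 180 := by
  unfold cf
  refine (Complex.abs_re_le_norm _).trans ?_
  rw [norm_mul, Complex.norm_conj, norm_ph, mul_one]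
  exact norm_hh_le y _

/-- `1 - cos` of a phase difference. -/
noncomputable def Df (y : Vtx → ℝ) (u v : Vtx) : ℝ := 1 - Real.cos (y u - y v)

theorem Df_alg (y : Vtx → ℝ) (a : Fin 6) (i j : Fin (size a)) :
    Real.sin (y ⟨a, i⟩ - y ⟨a, j⟩) * (field blow y ⟨a, i⟩ - field blow y ⟨a, j⟩)
      = -(cf y ⟨a, i⟩ + cf y ⟨a, j⟩) * Df y ⟨a, i⟩ ⟨a, j⟩ := by
  unfold cf Df
  rw [field_blow, field_blow, ← ph_mul_im, ← ph_mul_re]
  have h1 := ph_sq y ⟨a, i⟩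
  have h2 := ph_sq y ⟨a, j⟩
  simp only [Complex.mul_im, Complex.mul_re, Complex.conj_re, Complex.conj_im]
  linear_combination (-((hh y a).re * (ph y ⟨a, j⟩).re + (hh y a).im * (ph y ⟨a, j⟩).im)) * h1
    + (-((hh y a).re * (ph y ⟨a, i⟩).re + (hh y a).im * (ph y ⟨a, i⟩).im)) * h2

theorem Df_deriv {γ : ℝ → Vtx → ℝ} (h : ∀ t, HasDerivAt γ (field blow (γ t)) t) (a : Fin 6)
    (i j : Fin (size a)) (t : ℝ) :
    HasDerivAt (fun s => Df (γ s) ⟨a, i⟩ ⟨a, j⟩)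
      (-(cf (γ t) ⟨a, i⟩ + cf (γ t) ⟨a, j⟩) * Df (γ t) ⟨a, i⟩ ⟨a, j⟩) t := by
  have hi := hasDerivAt_pi.1 (h t)
  have h1 : HasDerivAt (fun s => Df (γ s) ⟨a, i⟩ ⟨a, j⟩)
      (-(-Real.sin (γ t ⟨a, i⟩ - γ t ⟨a, j⟩)
        * (field blow (γ t) ⟨a, i⟩ - field blow (γ t) ⟨a, j⟩))) t :=
    (((hi ⟨a, i⟩).sub (hi ⟨a, j⟩)).cos).const_sub 1
  rw [← Df_alg]
  convert h1 using 1
  ring

theorem cross_conserved {γ : ℝ → Vtx → ℝ} (h : ∀ t, HasDerivAt γ (field blow (γ t)) t)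
    (a : Fin 6) (i j k l : Fin (size a)) (t : ℝ) :
    Df (γ t) ⟨a, i⟩ ⟨a, j⟩ * Df (γ t) ⟨a, k⟩ ⟨a, l⟩
        * (Df (γ 0) ⟨a, i⟩ ⟨a, k⟩ * Df (γ 0) ⟨a, j⟩ ⟨a, l⟩)
      - Df (γ 0) ⟨a, i⟩ ⟨a, j⟩ * Df (γ 0) ⟨a, k⟩ ⟨a, l⟩
        * (Df (γ t) ⟨a, i⟩ ⟨a, k⟩ * Df (γ t) ⟨a, j⟩ ⟨a, l⟩) = 0 := by
  set κ : ℝ → ℝ := fun t => cf (γ t) ⟨a, i⟩ + cf (γ t) ⟨a, j⟩ + cf (γ t) ⟨a, k⟩
    + cf (γ t) ⟨a, l⟩ with hκ
  set W : ℝ → ℝ := fun t => Df (γ t) ⟨a, i⟩ ⟨a, j⟩ * Df (γ t) ⟨a, k⟩ ⟨a, l⟩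
        * (Df (γ 0) ⟨a, i⟩ ⟨a, k⟩ * Df (γ 0) ⟨a, j⟩ ⟨a, l⟩)
      - Df (γ 0) ⟨a, i⟩ ⟨a, j⟩ * Df (γ 0) ⟨a, k⟩ ⟨a, l⟩
        * (Df (γ t) ⟨a, i⟩ ⟨a, k⟩ * Df (γ t) ⟨a, j⟩ ⟨a, l⟩) with hW
  have hWd : ∀ t, HasDerivAt W (-(κ t) * W t) t := by
    intro t
    have h1 := ((Df_deriv h a i j t).mul (Df_deriv h a k l t)).mul_const
      (Df (γ 0) ⟨a, i⟩ ⟨a, k⟩ * Df (γ 0) ⟨a, j⟩ ⟨a, l⟩)
    have h2 := ((Df_deriv h a i k t).mul (Df_deriv h a j l t)).const_mul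
      (Df (γ 0) ⟨a, i⟩ ⟨a, j⟩ * Df (γ 0) ⟨a, k⟩ ⟨a, l⟩)
    have h3 := h1.sub h2
    exact h3.congr_deriv (by simp only [hκ, hW]; ring)
  have hlip : ∀ t, LipschitzOnWith 720 (fun w : ℝ => -(κ t) * w) univ := by
    intro t
    refine LipschitzWith.lipschitzOnWith (LipschitzWith.of_dist_le_mul fun x y => ?_)
    rw [Real.dist_eq, ← mul_sub, abs_mul, abs_neg, Real.dist_eq]
    have h1 := abs_cf_le (γ t) ⟨a, i⟩
    have h2 := abs_cf_le (γ t) ⟨a, j⟩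
    have h3 := abs_cf_le (γ t) ⟨a, k⟩
    have h4 := abs_cf_le (γ t) ⟨a, l⟩
    have h5 : |κ t| ≤ 720 := by
      rw [abs_le] at *
      simp only [hκ]
      constructor <;> linarith
    have h6 : ((720 : NNReal) : ℝ) = 720 := rfl
    rw [h6]
    gcongr
  have hu := ODE_solution_unique_univ (v := fun t w => -(κ t) * w) (s := fun _ => univ)
    (f := W) (g := fun _ => 0) (t₀ := 0) (K := 720) hlip (fun t => ⟨hWd t, trivial⟩)
    (fun t => ⟨by simpa using hasDerivAt_const t (0:ℝ), trivial⟩)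
    (by simp only [hW]; ring)
  exact congrFun hu t

theorem null_cos {V : Type} [Fintype V] {u v : V} (huv : u ≠ v) :
    volume {x : V → ℝ | Real.cos (x u - x v) = 1} = 0 := by
  classical
  have hcl : IsClosed {x : V → ℝ | Real.cos (x u - x v) = 1} :=
    isClosed_eq (by fun_prop) continuous_const
  refine Measure.addHaar_eq_zero_of_disjoint_translates volume
    (fun n : ℕ => ((1:ℝ) / (n + 1)) • (Pi.single u 1 : V → ℝ)) ?_ ?_ hcl.measurableSet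
  · have : Tendsto (fun n : ℕ => ((1:ℝ) / (n + 1)) • (Pi.single u 1 : V → ℝ)) atTop
        (𝓝 ((0:ℝ) • (Pi.single u 1 : V → ℝ))) :=
      (tendsto_one_div_add_atTop_nhds_zero_nat).smul_const _
    exact isBounded_range_of_tendsto _ this
  · intro m n hmn
    rw [Function.onFun, Set.disjoint_left]
    intro z hz1 hz2
    rw [singleton_add] at hz1 hz2
    obtain ⟨x, hx, hxz⟩ := hz1
    obtain ⟨y, hy, hyz⟩ := hz2
    simp only [mem_ofPred_eq] at hx hy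
    simp only at hxz hyz
    have e1 : x u - x v = z u - z v - 1 / ((m:ℝ) + 1) := by
      rw [← hxz]
      simp [Pi.single_eq_of_ne huv.symm]
      ring
    have e2 : y u - y v = z u - z v - 1 / ((n:ℝ) + 1) := by
      rw [← hyz]
      simp [Pi.single_eq_of_ne huv.symm]
      ring
    obtain ⟨k, hk⟩ := (Real.cos_eq_one_iff _).1 hx
    obtain ⟨l, hl⟩ := (Real.cos_eq_one_iff _).1 hy
    have h1 : (1:ℝ) / (m + 1) ≤ 1 := by
      rw [div_le_one (by positivity)]; linarith [(Nat.cast_nonneg m : (0:ℝ) ≤ m)]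
    have h2 : (1:ℝ) / (n + 1) ≤ 1 := by
      rw [div_le_one (by positivity)]; linarith [(Nat.cast_nonneg n : (0:ℝ) ≤ n)]
    have h3 : (0:ℝ) < 1 / (m + 1) := by positivity
    have h4 : (0:ℝ) < 1 / (n + 1) := by positivity
    have h5 : ((k - l : ℤ) : ℝ) * (2 * Real.pi) = 1 / (n + 1) - 1 / (m + 1) := by
      push_cast; linarith
    have hkl : k - l = 0 := by
      by_contra hne
      have h6 : (1:ℝ) ≤ |((k - l : ℤ) : ℝ)| := by
        rw [← Int.cast_abs]; exact_mod_cast Int.one_le_abs hne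
      have h7 : |((k - l : ℤ) : ℝ) * (2 * Real.pi)| ≤ 1 := by
        rw [h5, abs_le]; constructor <;> linarith
      rw [abs_mul, abs_of_pos (by positivity : (0:ℝ) < 2 * Real.pi)] at h7
      have h8 := Real.pi_gt_three
      nlinarith
    rw [hkl, Int.cast_zero, zero_mul] at h5
    have h9 : (1:ℝ) / (m + 1) = 1 / (n + 1) := by linarith
    rw [div_eq_div_iff (by positivity) (by positivity)] at h9
    have h10 : (n:ℝ) = m := by linarith
    exact hmn (by exact_mod_cast h10.symm)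

theorem zero_at_omega {V : Type} [Fintype V] {γ : ℝ → V → ℝ} {p : V → ℝ} (hω : OmegaMod γ p)
    {R : (V → ℝ) → ℝ} (hc : Continuous R) (hs : ∀ y n, R (y - sh n) = R y)
    (h0 : ∀ t, R (γ t) = 0) : R p = 0 := by
  by_contra hne
  have h1 := hc.continuousAt.eventually_ne (x := p) hne
  obtain ⟨ε, hε, hE⟩ := Metric.eventually_nhds_iff.1 h1
  obtain ⟨t, -, n, hn⟩ := hω ε hε 0
  have h3 : dist (γ t - sh n) p < ε := by
    rw [dist_eq_norm] at hn ⊢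
    convert hn using 2
    abel
  exact hE h3 (by rw [hs, h0])

theorem Df_sh (y : Vtx → ℝ) (n : Vtx → ℤ) (u v : Vtx) : Df (y - sh n) u v = Df y u v := by
  unfold Df
  have : (y - sh n) u - (y - sh n) v = (y u - y v) + ((n v - n u : ℤ) : ℝ) * (2 * Real.pi) := by
    simp [sh]; ring
  rw [this, Real.cos_add_int_mul_two_pi]

/-- The blown-up path is globally synchronizing. -/
theorem blow_sync : GloballySynchronizing blow := by
  classical
  obtain ⟨Φ, h0, hΦ⟩ := exists_flow blow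
  set N0 : Set (Vtx → ℝ) := ⋃ u : Vtx, ⋃ v : Vtx,
    {x | u ≠ v ∧ Real.cos (x u - x v) = 1} with hN0
  have hnull : volume N0 = 0 := by
    rw [hN0, measure_iUnion_null_iff]
    intro u
    rw [measure_iUnion_null_iff]
    intro v
    by_cases huv : u = v
    · have : {x : Vtx → ℝ | u ≠ v ∧ Real.cos (x u - x v) = 1} = ∅ := by
        ext x; simp [huv]
      rw [this, measure_empty]
    · exact measure_mono_null (fun x hx => hx.2) (null_cos huv)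
  refine globallySync_of blow Φ h0 hΦ N0 hnull ?_
  intro x hx p hω
  have hF := field_zero_of_omegaMod blow (hΦ x) hω
  have hD0 : ∀ u v : Vtx, u ≠ v → Df x u v ≠ 0 := by
    intro u v huv hD
    apply hx
    rw [hN0]
    simp only [mem_iUnion]
    refine ⟨u, v, huv, ?_⟩
    unfold Df at hD
    linarith
  have hR : Rel p := by
    intro a i j k l hij hkl hP
    have hne1 : (⟨a, i⟩ : Vtx) ≠ ⟨a, j⟩ := fun h => hij (by simpa using h)
    have hne2 : (⟨a, k⟩ : Vtx) ≠ ⟨a, l⟩ := fun h => hkl (by simpa using h)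
    set R : (Vtx → ℝ) → ℝ := fun y => Df y ⟨a, i⟩ ⟨a, j⟩ * Df y ⟨a, k⟩ ⟨a, l⟩
        * (Df x ⟨a, i⟩ ⟨a, k⟩ * Df x ⟨a, j⟩ ⟨a, l⟩)
      - Df x ⟨a, i⟩ ⟨a, j⟩ * Df x ⟨a, k⟩ ⟨a, l⟩
        * (Df y ⟨a, i⟩ ⟨a, k⟩ * Df y ⟨a, j⟩ ⟨a, l⟩) with hRdef
    have hc : Continuous R := by
      simp only [hRdef]
      unfold Df
      fun_prop
    have hs : ∀ y n, R (y - sh n) = R y := by
      intro y n
      simp only [hRdef, Df_sh]
    have hz : ∀ t, R (Φ x t) = 0 := by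
      intro t
      have := cross_conserved (hΦ x) a i j k l t
      rw [h0] at this
      exact this
    have h1 := zero_at_omega hω hc hs hz
    have h2 : Df p ⟨a, i⟩ ⟨a, j⟩ * Df p ⟨a, k⟩ ⟨a, l⟩ = 0 := hP
    simp only [hRdef] at h1
    rw [h2, zero_mul, zero_sub, neg_eq_zero] at h1
    have h3 := mul_ne_zero (hD0 _ _ hne1) (hD0 _ _ hne2)
    exact (mul_eq_zero.1 h1).resolve_left h3
  rcases crit_dichotomy hF hR with h | h
  · exact Or.inl h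
  · exact Or.inr ⟨h, PL_of_crit hF hR⟩

end KurUV
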