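import Mathlib

/-! Kuramoto model on a finite simple graph: definitions and the explicit example graph. -/

namespace KurUV

open MeasureTheory Filter Topology Set

/-- Right-hand side of the homogeneous Kuramoto model on the graph `G`:
component `i` at the state `θ` is the sum of `sin (θ j - θ i)` over the neighbours `j` of `i`. -/
noncomputable def field {V : Type} [Fintype V] (G : SimpleGraph V) (θ : V → ℝ) (i : V) : ℝ :=
  open Classical in ∑ j, if G.Adj i j then Real.sin (θ j - θ i) else 0

/-- `γ` solves the Kuramoto ODE on `G` for all times `t ≥ 0` (one-sided derivative at `0`). -/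
def IsSolution {V : Type} [Fintype V] (G : SimpleGraph V) (γ : ℝ → V → ℝ) : Prop :=
  ∀ t, 0 ≤ t → ∀ i, HasDerivWithinAt (fun s => γ s i) (field G (γ t) i) (Ici 0) t

/-- `G` is globally synchronizing: for Lebesgue-almost every initial condition, along the
solution all phase differences tend to `0` modulo `2π`. -/
def GloballySynchronizing {V : Type} [Fintype V] (G : SimpleGraph V) : Prop :=
  ∀ᵐ x : V → ℝ ∂volume, ∀ γ : ℝ → V → ℝ, IsSolution G γ → γ 0 = x →
    ∀ i j, Tendsto (fun t => ((γ t i - γ t j : ℝ) : Real.Angle)) atTop (𝓝 0)

/-- The graph `G + v`: a new vertex `none` joined to every vertex of `G`. -/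
def addUniversal {V : Type} (G : SimpleGraph V) : SimpleGraph (Option V) where
  Adj a b := match a, b with
    | none, none => False
    | none, some _ => True
    | some _, none => True
    | some v, some w => G.Adj v w
  symm := by
    refine ⟨?_⟩
    intro a b h
    cases a <;> cases b <;> simp_all
    exact h.symm
  loopless := by
    refine ⟨?_⟩
    intro a h
    cases a <;> simp_all

/-- Sizes of the six groups of the example graph. -/
def size : Fin 6 → ℕ := ![90, 9, 10, 10, 9, 90]

/-- Vertices of the example graph: `(a, i)` is the `i`-th vertex of group `a`. -/
abbrev Vtx : Type := Σ a : Fin 6, Fin (size a)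

/-- The example graph: the path with six vertices, the `a`-th vertex blown up to an independent
set of `size a` vertices, consecutive groups completely joined. -/
def blow : SimpleGraph Vtx where
  Adj x y := x.1.val + 1 = y.1.val ∨ y.1.val + 1 = x.1.val
  symm := by
    refine ⟨?_⟩
    intro a b h
    exact h.symm
  loopless := by
    refine ⟨?_⟩
    intro a h
    omega

end KurUV
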