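import Pool.Agent.R436.Kur.Flow

/-! Energy of the Kuramoto model: derivative along solutions, decay of the field. -/

namespace KurUV

open MeasureTheory Filter Topology Set Metric

variable {V : Type} [Fintype V]

/-- Adjacency weight: `1` on edges, `0` otherwise. -/
noncomputable def wt (G : SimpleGraph V) (i j : V) : ℝ :=
  open Classical in if G.Adj i j then 1 else 0

omit [Fintype V] in
theorem wt_symm (G : SimpleGraph V) (i j : V) : wt G i j = wt G j i := by
  unfold wt
  by_cases h : G.Adj i j
  · rw [if_pos h, if_pos h.symm]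
  · rw [if_neg h, if_neg (fun h' => h h'.symm)]

omit [Fintype V] in
theorem wt_nonneg (G : SimpleGraph V) (i j : V) : 0 ≤ wt G i j := by
  unfold wt; split_ifs <;> norm_num

omit [Fintype V] in
theorem wt_le_one (G : SimpleGraph V) (i j : V) : wt G i j ≤ 1 := by
  unfold wt; split_ifs <;> norm_num

theorem field_eq (G : SimpleGraph V) (θ : V → ℝ) (i : V) :
    field G θ i = ∑ j, wt G i j * Real.sin (θ j - θ i) := by
  unfold field wt
  refine Finset.sum_congr rfl fun j _ => ?_
  split_ifs <;> simp

/-- Energy (each edge is counted twice). -/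
noncomputable def En (G : SimpleGraph V) (θ : V → ℝ) : ℝ :=
  - ∑ i, ∑ j, wt G i j * Real.cos (θ i - θ j)

/-- Sum of squares. -/
noncomputable def sq (u : V → ℝ) : ℝ := ∑ i, (u i) ^ 2

theorem sq_nonneg' (u : V → ℝ) : 0 ≤ sq u := Finset.sum_nonneg fun _ _ => sq_nonneg _

theorem norm_sq_le_sq (u : V → ℝ) : ‖u‖ ^ 2 ≤ sq u := by
  classical
  have h : ‖u‖ ≤ Real.sqrt (sq u) := by
    refine (pi_norm_le_iff_of_nonneg (Real.sqrt_nonneg _)).2 fun i => ?_
    rw [Real.norm_eq_abs, ← Real.sqrt_sq_eq_abs]
    exact Real.sqrt_le_sqrt (Finset.single_le_sum (f := fun i => (u i) ^ 2)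
      (fun _ _ => sq_nonneg _) (Finset.mem_univ i))
  calc ‖u‖ ^ 2 ≤ (Real.sqrt (sq u)) ^ 2 := by gcongr
    _ = sq u := Real.sq_sqrt (sq_nonneg' u)

theorem norm_le_sqrt_sq (u : V → ℝ) : ‖u‖ ≤ Real.sqrt (sq u) :=
  Real.le_sqrt_of_sq_le (norm_sq_le_sq u)

theorem sq_le_card_norm (u : V → ℝ) : sq u ≤ Fintype.card V * ‖u‖ ^ 2 := by
  classical
  unfold sq
  calc ∑ i, (u i) ^ 2 ≤ ∑ _i : V, ‖u‖ ^ 2 := by
        refine Finset.sum_le_sum fun i _ => ?_
        have h1 := norm_le_pi_norm u i
        rw [Real.norm_eq_abs] at h1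
        rw [← sq_abs (u i)]
        gcongr
    _ = _ := by simp

theorem hasDerivAt_En (G : SimpleGraph V) {γ : ℝ → V → ℝ} {t : ℝ} {u : V → ℝ}
    (h : HasDerivAt γ u t) :
    HasDerivAt (fun s => En G (γ s)) (-2 * ∑ i, field G (γ t) i * u i) t := by
  have hi : ∀ i, HasDerivAt (fun s => γ s i) (u i) t := hasDerivAt_pi.1 h
  have h1 : ∀ i j, HasDerivAt (fun s => wt G i j * Real.cos (γ s i - γ s j))
      (wt G i j * (-Real.sin (γ t i - γ t j) * (u i - u j))) t :=
    fun i j => (((hi i).sub (hi j)).cos).const_mul _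
  have h2 : HasDerivAt (fun s => En G (γ s))
      (- ∑ i, ∑ j, wt G i j * (-Real.sin (γ t i - γ t j) * (u i - u j))) t := by
    unfold En
    refine HasDerivAt.neg ?_
    refine HasDerivAt.fun_sum fun i _ => ?_
    exact HasDerivAt.fun_sum fun j _ => h1 i j
  convert h2 using 1
  have h3 : ∑ i, ∑ j, wt G i j * (-Real.sin (γ t i - γ t j) * (u i - u j))
      = ∑ i, ∑ j, wt G i j * Real.sin (γ t j - γ t i) * u i
        - ∑ i, ∑ j, wt G i j * Real.sin (γ t j - γ t i) * u j := by
    rw [← Finset.sum_sub_distrib]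
    refine Finset.sum_congr rfl fun i _ => ?_
    rw [← Finset.sum_sub_distrib]
    refine Finset.sum_congr rfl fun j _ => ?_
    have : Real.sin (γ t j - γ t i) = - Real.sin (γ t i - γ t j) := by
      rw [← Real.sin_neg]; ring_nf
    rw [this]; ring
  have h4 : ∑ i, ∑ j, wt G i j * Real.sin (γ t j - γ t i) * u j
      = - ∑ i, ∑ j, wt G i j * Real.sin (γ t j - γ t i) * u i := by
    rw [Finset.sum_comm, ← Finset.sum_neg_distrib]
    refine Finset.sum_congr rfl fun i _ => ?_
    rw [← Finset.sum_neg_distrib]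
    refine Finset.sum_congr rfl fun j _ => ?_
    have : Real.sin (γ t j - γ t i) = - Real.sin (γ t i - γ t j) := by
      rw [← Real.sin_neg]; ring_nf
    rw [this, wt_symm G i j]; ring
  have h5 : ∑ i, ∑ j, wt G i j * Real.sin (γ t j - γ t i) * u i = ∑ i, field G (γ t) i * u i := by
    refine Finset.sum_congr rfl fun i _ => ?_
    rw [field_eq, Finset.sum_mul]
  rw [h3, h4, h5]; ring

theorem hasDerivAt_En_sol (G : SimpleGraph V) {γ : ℝ → V → ℝ} {t : ℝ}
    (h : HasDerivAt γ (field G (γ t)) t) :
    HasDerivAt (fun s => En G (γ s)) (-2 * sq (field G (γ t))) t := by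
  have := hasDerivAt_En G h
  unfold sq
  convert this using 4
  ring

theorem En_ge (G : SimpleGraph V) (θ : V → ℝ) :
    -((Fintype.card V : ℝ) * Fintype.card V) ≤ En G θ := by
  classical
  unfold En
  have : ∑ i, ∑ j, wt G i j * Real.cos (θ i - θ j) ≤ ∑ _i : V, ∑ _j : V, (1:ℝ) := by
    refine Finset.sum_le_sum fun i _ => Finset.sum_le_sum fun j _ => ?_
    have h1 := wt_nonneg G i j
    have h2 := wt_le_one G i j
    have h3 := Real.cos_le_one (θ i - θ j)
    nlinarith
  simp at this
  linarith

theorem continuous_field (G : SimpleGraph V) : Continuous (field G) := (field_lip G).continuous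

theorem continuous_En (G : SimpleGraph V) : Continuous (En G) := by
  unfold En; fun_prop

theorem continuous_sq : Continuous (sq : (V → ℝ) → ℝ) := by
  unfold sq; fun_prop

/-- Along a solution the energy is antitone. -/
theorem En_antitone (G : SimpleGraph V) {γ : ℝ → V → ℝ}
    (h : ∀ t, HasDerivAt γ (field G (γ t)) t) : Antitone (fun t => En G (γ t)) := by
  refine antitone_of_deriv_nonpos (fun t => (hasDerivAt_En_sol G (h t)).differentiableAt) ?_
  intro t
  rw [(hasDerivAt_En_sol G (h t)).deriv]
  have := sq_nonneg' (field G (γ t))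
  linarith

/-- The field tends to `0` along every solution. -/
theorem sq_field_tendsto (G : SimpleGraph V) {γ : ℝ → V → ℝ}
    (h : ∀ t, HasDerivAt γ (field G (γ t)) t) :
    Tendsto (fun t => sq (field G (γ t))) atTop (𝓝 0) := by
  classical
  -- time-Lipschitz bound for the sum of squares
  obtain ⟨M, hM, hLip⟩ : ∃ M : ℝ, 0 < M ∧ ∀ s t, |sq (field G (γ s)) - sq (field G (γ t))|
      ≤ M * |s - t| := by
    set N : ℝ := (Fintype.card V : ℝ) with hN
    have hN0 : 0 ≤ N := by positivity
    have hγ : ∀ s t, ‖γ s - γ t‖ ≤ N * |s - t| := by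
      intro s t
      have := Convex.norm_image_sub_le_of_norm_hasDerivWithin_le (f := γ)
        (f' := fun t => field G (γ t)) (s := univ) (x := t) (y := s) (C := N)
        (fun x _ => (h x).hasDerivWithinAt) (fun x _ => by simpa using field_bdd G (γ x))
        convex_univ (mem_univ _) (mem_univ _)
      simpa using this
    refine ⟨N * (2 * N) * (2 * N * N) + 1, by positivity, fun s t => ?_⟩
    have hF : ∀ i, |field G (γ s) i - field G (γ t) i| ≤ 2 * N * N * |s - t| := by
      intro i
      have h1 := (field_lip G).dist_le_mul (γ s) (γ t)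
      have h2 := dist_le_pi_dist (field G (γ s)) (field G (γ t)) i
      rw [Real.dist_eq] at h2
      rw [dist_eq_norm (γ s)] at h1
      have h3 := hγ s t
      have h4 : dist (field G (γ s)) (field G (γ t)) ≤ 2 * N * (N * |s - t|) := by
        refine h1.trans ?_
        have : ((2 * Fintype.card V : NNReal) : ℝ) = 2 * N := by simp [hN]
        rw [this]
        gcongr
      linarith
    have hb : ∀ u : ℝ, ∀ i, |field G (γ u) i| ≤ N := by
      intro u i
      have h1 := norm_le_pi_norm (field G (γ u)) i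
      have h2 := field_bdd G (γ u)
      rw [Real.norm_eq_abs] at h1
      refine h1.trans (h2.trans ?_)
      simp [hN]
    unfold sq
    rw [← Finset.sum_sub_distrib]
    calc |∑ i, ((field G (γ s) i) ^ 2 - (field G (γ t) i) ^ 2)|
        ≤ ∑ i, |(field G (γ s) i) ^ 2 - (field G (γ t) i) ^ 2| := Finset.abs_sum_le_sum_abs _ _
      _ ≤ ∑ _i : V, (2 * N) * (2 * N * N * |s - t|) := by
        refine Finset.sum_le_sum fun i _ => ?_
        have e1 : (field G (γ s) i) ^ 2 - (field G (γ t) i) ^ 2
            = (field G (γ s) i + field G (γ t) i) * (field G (γ s) i - field G (γ t) i) := by ring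
        rw [e1, abs_mul]
        have e2 : |field G (γ s) i + field G (γ t) i| ≤ 2 * N :=
          (abs_add_le _ _).trans (by linarith [hb s i, hb t i])
        exact mul_le_mul e2 (hF i) (abs_nonneg _) (by positivity)
      _ = N * (2 * N) * (2 * N * N) * |s - t| := by simp [hN]; ring
      _ ≤ _ := by nlinarith [abs_nonneg (s - t)]
  set e : ℝ → ℝ := fun t => En G (γ t) with he
  have hanti : Antitone e := En_antitone G h
  have hbdd : BddBelow (range e) := ⟨-((Fintype.card V : ℝ) * Fintype.card V), by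
    rintro _ ⟨t, rfl⟩; exact En_ge G _⟩
  have hlim : Tendsto e atTop (𝓝 (⨅ t, e t)) := tendsto_atTop_ciInf hanti hbdd
  rw [Metric.tendsto_atTop]
  intro ε hε
  -- energy drop
  set τ : ℝ := ε / (2 * M) with hτ
  have hτ0 : 0 < τ := by positivity
  have hcau : Tendsto (fun t => e t - e (t + τ)) atTop (𝓝 0) := by
    have h2 : Tendsto (fun t => e (t + τ)) atTop (𝓝 (⨅ t, e t)) :=
      hlim.comp (tendsto_atTop_add_const_right _ _ tendsto_id)
    simpa using hlim.sub h2
  obtain ⟨T, hT⟩ := (Metric.tendsto_atTop.1 hcau) (ε * τ) (by positivity)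
  refine ⟨T, fun t ht => ?_⟩
  rw [dist_zero_right, Real.norm_eq_abs, abs_of_nonneg (sq_nonneg' _)]
  by_contra hcon
  push Not at hcon
  have hlow : ∀ s ∈ Icc t (t + τ), ε / 2 ≤ sq (field G (γ s)) := by
    intro s hs
    have h1 := hLip t s
    have h2 : |t - s| ≤ τ := by
      rw [abs_le]; constructor <;> linarith [hs.1, hs.2]
    have h3 : M * |t - s| ≤ ε / 2 := by
      calc M * |t - s| ≤ M * τ := by gcongr
        _ = ε / 2 := by rw [hτ]; field_simp
    have h4 := (abs_le.1 (h1.trans h3)).2
    linarith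
  have hdrop : e (t + τ) ≤ e t - ε * τ := by
    have := image_le_of_deriv_right_le_deriv_boundary (f := e)
      (f' := fun s => -2 * sq (field G (γ s))) (a := t) (b := t + τ)
      (B := fun s => e t - ε * (s - t)) (B' := fun _ => -ε)
      (fun s _ => (hasDerivAt_En_sol G (h s)).continuousAt.continuousWithinAt)
      (fun s _ => (hasDerivAt_En_sol G (h s)).hasDerivWithinAt)
      (by simp) (by fun_prop)
      (fun s _ => by
        have : HasDerivAt (fun s => e t - ε * (s - t)) (-ε) s := by
          have := (((hasDerivAt_id s).sub_const t).const_mul ε).const_sub (e t)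
          simpa using this
        exact this.hasDerivWithinAt)
      (fun s hs => by have := hlow s ⟨hs.1, hs.2.le⟩; linarith)
      (x := t + τ) ⟨by linarith, le_rfl⟩
    simpa using this
  have := hT t ht
  rw [dist_zero_right, Real.norm_eq_abs] at this
  have h5 := (abs_lt.1 this).2
  linarith

end KurUV
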