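import Pool.Agent.R436.Kur.Defs

/-! Existence, uniqueness and null-set properties of the flow of a bounded Lipschitz field. -/

namespace KurUV

open MeasureTheory Filter Topology Set Metric

section general

variable {E : Type*} [NormedAddCommGroup E] [NormedSpace ℝ E] [CompleteSpace E]
  {f : E → E} {K L : NNReal}

theorem sol_on_Icc (hK : LipschitzWith K f) (hL : ∀ x, ‖f x‖ ≤ L) (x : E) (n : ℕ) :
    ∃ α : ℝ → E, α 0 = x ∧
      ∀ t ∈ Icc (-(n:ℝ)) n, HasDerivWithinAt α (f (α t)) (Icc (-(n:ℝ)) n) t := by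
  have h0 : (0:ℝ) ∈ Icc (-(n:ℝ)) n := by constructor <;> simp
  have hPL : IsPicardLindelof (fun _ => f) (tmin := -(n:ℝ)) (tmax := n) ⟨0, h0⟩ x
      (L * n) 0 L K :=
  { lipschitzOnWith := fun t _ => hK.lipschitzOnWith
    continuousOn := fun x _ => continuousOn_const
    norm_le := fun t _ x _ => hL x
    mul_max_le := by simp }
  exact hPL.exists_eq_forall_mem_Icc_hasDerivWithinAt₀

theorem global_sol (hK : LipschitzWith K f) (hL : ∀ x, ‖f x‖ ≤ L) (x : E) :
    ∃ γ : ℝ → E, γ 0 = x ∧ ∀ t, HasDerivAt γ (f (γ t)) t := by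
  choose α hα0 hα using fun n : ℕ => sol_on_Icc hK hL x n
  have hagree : ∀ k l : ℕ, k ≤ l → ∀ s : ℝ, |s| < k → α k s = α l s := by
    intro k l hkl s hs
    have hk : 0 < (k:ℝ) := lt_of_le_of_lt (abs_nonneg _) hs
    refine ODE_solution_unique_of_mem_Ioo (v := fun _ => f) (s := fun _ => univ) (K := K)
      (a := -(k:ℝ)) (b := k) (t₀ := 0) (fun t _ => hK.lipschitzOnWith)
      ⟨by linarith, hk⟩ ?_ ?_ (by rw [hα0, hα0])
      ⟨by linarith [(abs_lt.mp hs).1], (abs_lt.mp hs).2⟩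
    · intro t ht
      exact ⟨(hα k t ⟨ht.1.le, ht.2.le⟩).hasDerivAt (Icc_mem_nhds ht.1 ht.2), trivial⟩
    · intro t ht
      have hkl' : (k:ℝ) ≤ l := by exact_mod_cast hkl
      exact ⟨(hα l t ⟨by linarith [ht.1], by linarith [ht.2]⟩).hasDerivAt
        (Icc_mem_nhds (by linarith [ht.1]) (by linarith [ht.2])), trivial⟩
  set c : ℝ → ℕ := fun t => ⌈|t|⌉₊ + 1 with hc
  have hclt : ∀ t, |t| < c t := by
    intro t
    have := Nat.le_ceil |t|
    rw [hc]; push_cast; linarith
  refine ⟨fun t => α (c t) t, hα0 _, ?_⟩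
  intro t
  have hev : (fun s => α (c s) s) =ᶠ[𝓝 t] α (c t) := by
    have : {s : ℝ | |s| < c t} ∈ 𝓝 t :=
      (isOpen_lt continuous_abs continuous_const).mem_nhds (hclt t)
    filter_upwards [this] with s hs
    rcases le_total (c s) (c t) with h | h
    · exact hagree _ _ h s (hclt s)
    · exact (hagree _ _ h s hs).symm
  have hd : HasDerivAt (α (c t)) (f (α (c t) t)) t := by
    have h1 := abs_lt.mp (hclt t)
    exact (hα (c t) t ⟨h1.1.le, h1.2.le⟩).hasDerivAt (Icc_mem_nhds h1.1 h1.2)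
  exact hd.congr_of_eventuallyEq hev

omit [CompleteSpace E] in
theorem dist_flow_le (hK : LipschitzWith K f) {γ γ' : ℝ → E}
    (h : ∀ t, 0 ≤ t → HasDerivWithinAt γ (f (γ t)) (Ici 0) t)
    (h' : ∀ t, 0 ≤ t → HasDerivWithinAt γ' (f (γ' t)) (Ici 0) t) {T : ℝ} (hT : 0 ≤ T) :
    dist (γ T) (γ' T) ≤ dist (γ 0) (γ' 0) * Real.exp (K * T) := by
  have := dist_le_of_trajectories_ODE (v := fun _ => f) (f := γ) (g := γ') (a := 0) (b := T)
    (δ := dist (γ 0) (γ' 0)) (K := K) (fun _ => hK)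
    (fun t ht => ((h t ht.1).continuousWithinAt).mono Icc_subset_Ici_self)
    (fun t ht => (h t ht.1).mono (Ici_subset_Ici.2 ht.1))
    (fun t ht => ((h' t ht.1).continuousWithinAt).mono Icc_subset_Ici_self)
    (fun t ht => (h' t ht.1).mono (Ici_subset_Ici.2 ht.1)) le_rfl T ⟨hT, le_rfl⟩
  simpa using this

omit [CompleteSpace E] in
theorem sol_unique (hK : LipschitzWith K f) {γ γ' : ℝ → E}
    (h : ∀ t, 0 ≤ t → HasDerivWithinAt γ (f (γ t)) (Ici 0) t)
    (h' : ∀ t, 0 ≤ t → HasDerivWithinAt γ' (f (γ' t)) (Ici 0) t) (h0 : γ 0 = γ' 0)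
    {T : ℝ} (hT : 0 ≤ T) : γ T = γ' T := by
  have := dist_flow_le hK h h' hT
  rw [h0, dist_self, zero_mul] at this
  exact dist_le_zero.1 this

end general

section null

variable {V : Type} [Fintype V] {f : (V → ℝ) → (V → ℝ)} {K L : NNReal}

/-- If `S` is null, the set of initial points whose solution is in `S` at time `T` is null. -/
theorem null_pullback (hK : LipschitzWith K f) (hL : ∀ x, ‖f x‖ ≤ L)
    (Φ : (V → ℝ) → ℝ → (V → ℝ)) (h0 : ∀ x, Φ x 0 = x)
    (hΦ : ∀ x t, HasDerivAt (Φ x) (f (Φ x t)) t) {S : Set (V → ℝ)} (hS : volume S = 0)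
    {T : ℝ} (hT : 0 ≤ T) : volume {x | Φ x T ∈ S} = 0 := by
  classical
  -- flow of `-f`
  have hK' : LipschitzWith K (fun x => - f x) := hK.neg
  have hL' : ∀ x, ‖- f x‖ ≤ L := by simpa using hL
  choose Ψ h0' hΨ using global_sol hK' hL'
  have hback : ∀ x, Ψ (Φ x T) T = x := by
    intro x
    have h1 : ∀ t, HasDerivAt (fun s => Φ x (T - s)) (- f (Φ x (T - t))) t := by
      intro t
      have h2 : HasDerivAt ((Φ x) ∘ (fun s => T - s)) ((-1:ℝ) • f (Φ x (T - t))) t :=
        (hΦ x (T - t)).scomp t ((hasDerivAt_id t).const_sub T)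
      rw [neg_one_smul] at h2
      exact h2
    have := sol_unique (f := fun x => - f x) hK' (γ := Ψ (Φ x T)) (γ' := fun s => Φ x (T - s))
      (fun t _ => (hΨ _ t).hasDerivWithinAt) (fun t _ => (h1 t).hasDerivWithinAt)
      (by simp [h0']) hT
    rw [this]; simp [h0]
  have hlip : LipschitzWith (Real.toNNReal (Real.exp (K * T))) (fun y => Ψ y T) := by
    refine LipschitzWith.of_dist_le_mul fun y z => ?_
    have := dist_flow_le hK' (γ := Ψ y) (γ' := Ψ z) (fun t _ => (hΨ _ t).hasDerivWithinAt)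
      (fun t _ => (hΨ _ t).hasDerivWithinAt) hT
    rw [h0', h0'] at this
    rw [Real.coe_toNNReal _ (Real.exp_pos _).le, mul_comm]
    exact this
  have hsub : {x | Φ x T ∈ S} ⊆ (fun y => Ψ y T) '' S := fun x hx => ⟨Φ x T, hx, hback x⟩
  refine measure_mono_null hsub ?_
  rw [← hausdorffMeasure_pi_real] at hS ⊢
  refine le_antisymm ?_ bot_le
  refine (hlip.hausdorffMeasure_image_le (by positivity) S).trans ?_
  rw [hS, mul_zero]

end null

section kuramoto

variable {V : Type} [Fintype V] (G : SimpleGraph V)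

theorem field_lip : LipschitzWith (2 * Fintype.card V : NNReal) (field G) := by
  classical
  refine LipschitzWith.of_dist_le_mul fun x y => ?_
  have hnn : 0 ≤ ((2 * Fintype.card V : NNReal) : ℝ) * dist x y := by positivity
  refine (dist_pi_le_iff hnn).2 fun i => ?_
  unfold field
  rw [Real.dist_eq, ← Finset.sum_sub_distrib]
  have hterm : ∀ j, |(if G.Adj i j then Real.sin (x j - x i) else 0) -
      (if G.Adj i j then Real.sin (y j - y i) else 0)| ≤ 2 * dist x y := by
    intro j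
    have hj := dist_le_pi_dist x y j
    have hi := dist_le_pi_dist x y i
    rw [Real.dist_eq] at hj hi
    split_ifs
    · have h1 : |Real.sin (x j - x i) - Real.sin (y j - y i)| ≤ |(x j - x i) - (y j - y i)| :=
        Real.abs_sin_sub_sin_le _ _
      have h2 : |(x j - x i) - (y j - y i)| ≤ |x j - y j| + |x i - y i| := by
        have : (x j - x i) - (y j - y i) = (x j - y j) - (x i - y i) := by ring
        rw [this]; exact abs_sub _ _
      linarith
    · simp
  calc _ ≤ ∑ j : V, 2 * dist x y := (Finset.abs_sum_le_sum_abs _ _).trans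
          (Finset.sum_le_sum fun j _ => hterm j)
    _ = _ := by
      simp [Finset.sum_const, nsmul_eq_mul]; ring

theorem field_bdd (x : V → ℝ) : ‖field G x‖ ≤ (Fintype.card V : NNReal) := by
  classical
  refine (pi_norm_le_iff_of_nonneg (by positivity)).2 fun i => ?_
  unfold field
  rw [Real.norm_eq_abs]
  refine (Finset.abs_sum_le_sum_abs _ _).trans ?_
  calc _ ≤ ∑ j : V, (1:ℝ) := Finset.sum_le_sum fun j _ => by
        split_ifs
        · exact Real.abs_sin_le_one _
        · simp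
    _ = _ := by simp

theorem isSolution_iff {γ : ℝ → V → ℝ} :
    IsSolution G γ ↔ ∀ t, 0 ≤ t → HasDerivWithinAt γ (field G (γ t)) (Ici 0) t := by
  unfold IsSolution
  simp only [hasDerivWithinAt_pi]

theorem exists_flow : ∃ Φ : (V → ℝ) → ℝ → (V → ℝ), (∀ x, Φ x 0 = x) ∧
    ∀ x t, HasDerivAt (Φ x) (field G (Φ x t)) t := by
  choose Φ h0 hΦ using global_sol (field_lip G) (field_bdd G)
  exact ⟨Φ, h0, hΦ⟩

/-- Existence and uniqueness of solutions. -/
theorem exists_solution (x : V → ℝ) : ∃ γ, IsSolution G γ ∧ γ 0 = x ∧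
    ∀ γ', IsSolution G γ' → γ' 0 = x → ∀ t, 0 ≤ t → γ' t = γ t := by
  obtain ⟨Φ, h0, hΦ⟩ := exists_flow G
  refine ⟨Φ x, (isSolution_iff G).2 fun t _ => (hΦ x t).hasDerivWithinAt, h0 x, ?_⟩
  intro γ' hγ' h0' t ht
  exact sol_unique (field_lip G) ((isSolution_iff G).1 hγ')
    (fun t _ => (hΦ x t).hasDerivWithinAt) (by rw [h0', h0]) ht

end kuramoto

end KurUV
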