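import Pool.Agent.R436.Kur.Cone

/-! From the local structure of limit points to global synchronization. -/

namespace KurUV

open MeasureTheory Filter Topology Set Metric

variable {V : Type} [Fintype V]

/-- If `Real.cos` of a real function tends to `1`, it tends to `0` modulo `2π`. -/
theorem tendsto_angle_of_cos {f : ℝ → ℝ} (h : Tendsto (fun t => Real.cos (f t)) atTop (𝓝 1)) :
    Tendsto (fun t => ((f t : ℝ) : Real.Angle)) atTop (𝓝 0) := by
  have h1 : Tendsto (fun t => Real.arccos (Real.cos (f t))) atTop (𝓝 0) := by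
    have := (Real.continuous_arccos.tendsto 1).comp h
    rw [Real.arccos_one] at this
    exact this
  have h2 : ∀ t, |((f t : ℝ) : Real.Angle).toReal| = Real.arccos (Real.cos (f t)) := by
    intro t
    have e : Real.cos (f t) = Real.cos |((f t : ℝ) : Real.Angle).toReal| := by
      rw [Real.cos_abs, Real.Angle.cos_toReal, Real.Angle.cos_coe]
    rw [e, Real.arccos_cos (abs_nonneg _) (Real.Angle.abs_toReal_le_pi _)]
  have h3 : Tendsto (fun t => ((f t : ℝ) : Real.Angle).toReal) atTop (𝓝 0) := by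
    rw [tendsto_zero_iff_abs_tendsto_zero]
    refine h1.congr fun t => ?_
    rw [Function.comp_apply, h2]
  have h4 : Tendsto (fun t => ((((f t : ℝ) : Real.Angle).toReal : ℝ) : Real.Angle)) atTop
      (𝓝 ((0 : ℝ) : Real.Angle)) :=
    (Real.Angle.continuous_coe.tendsto 0).comp h3
  simpa using h4

/-- Existence of limit points modulo `2π` along any sequence of times. -/
theorem exists_limit_point (γ : ℝ → V → ℝ) (τ : ℕ → ℝ) :
    ∃ p : V → ℝ, ∃ φ : ℕ → ℕ, StrictMono φ ∧ ∃ n : ℕ → V → ℤ,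
      Tendsto (fun k => γ (τ (φ k)) - sh (n k)) atTop (𝓝 p) := by
  classical
  have hpi : (0:ℝ) < 2 * Real.pi := by positivity
  set m : ℕ → V → ℤ := fun k i => toIcoDiv hpi 0 (γ (τ k) i) with hm
  have hmem : ∀ k, γ (τ k) - sh (m k) ∈ Set.pi (univ : Set V) (fun _ => Icc (0:ℝ) (2 * Real.pi)) := by
    intro k i _
    have h1 := toIcoMod_mem_Ico hpi 0 (γ (τ k) i)
    have h2 : (γ (τ k) - sh (m k)) i = toIcoMod hpi 0 (γ (τ k) i) := by
      simp only [Pi.sub_apply, sh, hm]
      rw [← toIcoMod_add_toIcoDiv_zsmul hpi 0 (γ (τ k) i), zsmul_eq_mul]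
      simp
    rw [h2]
    rw [zero_add] at h1
    exact ⟨h1.1, h1.2.le⟩
  have hcomp : IsCompact (Set.pi (univ : Set V) (fun _ => Icc (0:ℝ) (2 * Real.pi))) :=
    isCompact_univ_pi fun _ => isCompact_Icc
  obtain ⟨p, -, φ, hφ, hlim⟩ := hcomp.tendsto_subseq hmem
  exact ⟨p, φ, hφ, fun k => m (φ k), hlim⟩

theorem omegaMod_of_tendsto {γ : ℝ → V → ℝ} {τ : ℕ → ℝ} (hτ : Tendsto τ atTop atTop)
    {p : V → ℝ} {n : ℕ → V → ℤ}
    (h : Tendsto (fun k => γ (τ k) - sh (n k)) atTop (𝓝 p)) : OmegaMod γ p := by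
  intro ε hε T
  have h1 := h.eventually (ball_mem_nhds p hε)
  obtain ⟨k, hk1, hk2⟩ := (h1.and (hτ.eventually (eventually_ge_atTop T))).exists
  refine ⟨τ k, hk2, n k, ?_⟩
  rw [dist_eq_norm] at hk1
  rw [dist_eq_norm]
  convert hk1 using 2
  abel

/-- Limit points modulo `2π` are equilibria. -/
theorem field_zero_of_omegaMod (G : SimpleGraph V) {γ : ℝ → V → ℝ}
    (h : ∀ t, HasDerivAt γ (field G (γ t)) t) {p : V → ℝ} (hω : OmegaMod γ p) :
    field G p = 0 := by
  have h1 : Tendsto (fun t => sq (field G (γ t))) atTop (𝓝 0) := sq_field_tendsto G h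
  have hcont : Continuous (fun y => sq (field G y)) := continuous_sq.comp (continuous_field G)
  have h2 : sq (field G p) ≤ 0 := by
    refine le_of_forall_pos_le_add fun δ hδ => ?_
    obtain ⟨ε, hε, hE⟩ := Metric.continuousAt_iff.1 (hcont.continuousAt (x := p)) (δ / 2)
      (by positivity)
    obtain ⟨T, hT⟩ := (Metric.tendsto_atTop.1 h1) (δ / 2) (by positivity)
    obtain ⟨t, ht, n, hn⟩ := hω ε hε T
    have h3 : dist (γ t - sh n) p < ε := by
      rw [dist_eq_norm] at hn ⊢
      convert hn using 2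
      abel
    have h4 := hE h3
    have h5 : field G (γ t - sh n) = field G (γ t) := by
      have := field_sh G (γ t - sh n) n
      rw [sub_add_cancel] at this
      exact this.symm
    rw [h5, Real.dist_eq] at h4
    have h6 := hT t ht
    rw [Real.dist_eq, sub_zero] at h6
    have h7 := (abs_lt.1 h4).1
    have h8 := (abs_lt.1 h6).2
    linarith
  have h3 := norm_sq_le_sq (field G p)
  have h4 : ‖field G p‖ = 0 := by
    have := norm_nonneg (field G p)
    nlinarith
  exact norm_eq_zero.1 h4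

/-- Linearised instability at `p`. -/
def Saddle (G : SimpleGraph V) (p : V → ℝ) : Prop := ∃ v, 0 < ip v (lin G p v)

theorem lin_sh (G : SimpleGraph V) (p : V → ℝ) (n : V → ℤ) : lin G (p + sh n) = lin G p := by
  refine LinearMap.ext fun d => ?_
  funext i
  rw [lin_apply, lin_apply]
  refine Finset.sum_congr rfl fun j _ => ?_
  have : (p + sh n) j - (p + sh n) i = (p j - p i) + ((n j - n i : ℤ) : ℝ) * (2 * Real.pi) := by
    simp [sh]; ring
  rw [this, Real.cos_add_int_mul_two_pi]

/-- The main reduction. -/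
theorem globallySync_of (G : SimpleGraph V) (Φ : (V → ℝ) → ℝ → (V → ℝ)) (h0 : ∀ x, Φ x 0 = x)
    (hΦ : ∀ x t, HasDerivAt (Φ x) (field G (Φ x t)) t) (N0 : Set (V → ℝ)) (hN0 : volume N0 = 0)
    (H : ∀ x, x ∉ N0 → ∀ p, OmegaMod (Φ x) p →
      (∀ i j, Real.cos (p i - p j) = 1) ∨ (Saddle G p ∧ PL G p)) :
    GloballySynchronizing G := by
  classical
  -- the saddles and their local null sets
  set P : Set (V → ℝ) := {p | Saddle G p} with hP
  have hloc : ∀ p : P, ∃ r > 0, volume {x | ∀ t : ℝ, 0 ≤ t → Φ x t ∈ closedBall (p : V → ℝ) r} = 0 :=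
    fun p => by
      obtain ⟨v, hv⟩ := p.2
      exact cone G Φ h0 hΦ p v hv
  choose rad hrad hnull using hloc
  -- countable subcover
  obtain ⟨Q, hQc, hQ⟩ := TopologicalSpace.isOpen_iUnion_countable
    (fun p : P => ball (p : V → ℝ) (rad p)) (fun p => isOpen_ball)
  set B : Set (V → ℝ) := ⋃ p ∈ Q, ⋃ T : ℕ,
    {x | Φ x T ∈ {y | ∀ t : ℝ, 0 ≤ t → Φ y t ∈ closedBall (p : V → ℝ) (rad p)}} with hB
  have hBnull : volume B = 0 := by
    rw [hB, measure_biUnion_null_iff hQc]
    intro p _
    rw [measure_iUnion_null_iff]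
    intro T
    exact null_pullback (field_lip G) (field_bdd G) Φ h0 hΦ (hnull p) (Nat.cast_nonneg T)
  have hsemi : ∀ x (T t : ℝ), Φ (Φ x T) t = Φ x (T + t) := by
    intro x T t
    have h1 : ∀ s, HasDerivAt (fun s => Φ x (T + s)) (field G (Φ x (T + s))) s := by
      intro s
      exact (hΦ x (T + s)).comp_const_add T s
    have := ODE_solution_unique_univ (v := fun _ => field G) (s := fun _ => univ)
      (f := Φ (Φ x T)) (g := fun s => Φ x (T + s)) (t₀ := 0)
      (K := (2 * Fintype.card V : NNReal))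
      (fun _ => (field_lip G).lipschitzOnWith) (fun t => ⟨hΦ _ t, trivial⟩)
      (fun t => ⟨h1 t, trivial⟩) (by simp [h0])
    exact congrFun this t
  -- outside the null sets no saddle is a limit point
  have hno : ∀ x, x ∉ B → ∀ p, OmegaMod (Φ x) p → ¬ (Saddle G p ∧ PL G p) := by
    rintro x hx p hω ⟨hS, hPL⟩
    -- choose the covering ball of p + sh n for all n
    apply hx
    -- radius uniform in n is obtained from the trap lemma for each n
    have hmem : ∀ n : V → ℤ, ∃ q : P, q ∈ Q ∧ p + sh n ∈ ball (q : V → ℝ) (rad q) := by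
      intro n
      have hPn : p + sh n ∈ P := by
        obtain ⟨v, hv⟩ := hS
        exact ⟨v, by rw [lin_sh]; exact hv⟩
      have h1 : p + sh n ∈ ⋃ p : P, ball (p : V → ℝ) (rad p) :=
        mem_iUnion.2 ⟨⟨_, hPn⟩, mem_ball_self (hrad _)⟩
      rw [← hQ] at h1
      simp only [mem_iUnion] at h1
      obtain ⟨q, hq, hqm⟩ := h1
      exact ⟨q, hq, hqm⟩
    -- first fix the sheet
    obtain ⟨n, T, hT⟩ := trap G (hΦ x) hω hPL (r := 1) one_pos
    obtain ⟨q, hq, hqm⟩ := hmem n
    -- now trap in a small ball; the sheet is the same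
    set δ : ℝ := min 1 (rad q - dist (p + sh n) q) with hδ
    have hδ0 : 0 < δ := lt_min one_pos (by rw [mem_ball] at hqm; linarith)
    obtain ⟨n', T', hT'⟩ := trap G (hΦ x) hω hPL (r := δ) hδ0
    have hnn : n' = n := by
      by_contra hne
      have hne' : ∃ i, n' i ≠ n i := by
        by_contra hc
        push Not at hc
        exact hne (funext hc)
      obtain ⟨i, hi⟩ := hne'
      have h1 := hT (max T T') (le_max_left _ _)
      have h2 := hT' (max T T') (le_max_right _ _)
      have h3 : dist (p + sh n) (p + sh n') ≤ 1 + δ :=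
        (dist_triangle_left _ _ _).trans (add_le_add h1 h2)
      have h4 := (dist_le_pi_dist (p + sh n) (p + sh n') i).trans h3
      have h5 : δ ≤ 1 := min_le_left _ _
      rw [Real.dist_eq] at h4
      have h6 : (p + sh n) i - (p + sh n') i = ((n i - n' i : ℤ) : ℝ) * (2 * Real.pi) := by
        simp [sh]; ring
      rw [h6, abs_mul, abs_of_pos (by positivity : (0:ℝ) < 2 * Real.pi)] at h4
      have h7 : (1:ℝ) ≤ |((n i - n' i : ℤ) : ℝ)| := by
        rw [← Int.cast_abs]
        exact_mod_cast Int.one_le_abs (sub_ne_zero.2 (Ne.symm hi))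
      have h8 := Real.pi_gt_three
      nlinarith
    rw [hnn] at hT'
    rw [hB]
    simp only [mem_iUnion]
    obtain ⟨k, hk⟩ := exists_nat_ge T'
    refine ⟨q, hq, k, ?_⟩
    intro t ht
    rw [hsemi, mem_closedBall]
    have h1 := hT' (k + t) (by linarith)
    have h2 : δ ≤ rad q - dist (p + sh n) q := min_le_right _ _
    linarith [dist_triangle (Φ x (k + t)) (p + sh n) (q : V → ℝ)]
  -- conclusion
  have hae : ∀ᵐ x : V → ℝ ∂volume, x ∉ N0 ∪ B := by
    have : volume (N0 ∪ B) = 0 := by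
      rw [measure_union_null_iff]; exact ⟨hN0, hBnull⟩
    exact measure_eq_zero_iff_ae_notMem.1 this
  filter_upwards [hae] with x hx
  intro γ hγ hγ0 i j
  have hxN : x ∉ N0 := fun h => hx (Or.inl h)
  have hxB : x ∉ B := fun h => hx (Or.inr h)
  have hsync : ∀ p, OmegaMod (Φ x) p → ∀ i j, Real.cos (p i - p j) = 1 := by
    intro p hp
    rcases H x hxN p hp with h | h
    · exact h
    · exact absurd h (hno x hxB p hp)
  have hγΦ : ∀ t, 0 ≤ t → γ t = Φ x t := fun t ht =>
    sol_unique (field_lip G) ((isSolution_iff G).1 hγ)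
      (fun t _ => (hΦ x t).hasDerivWithinAt) (by rw [hγ0, h0]) ht
  have hcos : Tendsto (fun t => Real.cos (Φ x t i - Φ x t j)) atTop (𝓝 1) := by
    rw [Metric.tendsto_atTop]
    by_contra hcon
    push Not at hcon
    obtain ⟨ε, hε, hbad⟩ := hcon
    choose τ hτ hτ' using fun k : ℕ => hbad k
    have hτlim : Tendsto τ atTop atTop :=
      tendsto_atTop_mono hτ tendsto_natCast_atTop_atTop
    obtain ⟨p, φ, hφ, n, hlim⟩ := exists_limit_point (Φ x) τ
    have hω : OmegaMod (Φ x) p :=
      omegaMod_of_tendsto (hτlim.comp hφ.tendsto_atTop) hlim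
    have h1 := hsync p hω i j
    have h2 : Tendsto (fun k => Real.cos ((Φ x (τ (φ k)) - sh (n k)) i
        - (Φ x (τ (φ k)) - sh (n k)) j)) atTop (𝓝 (Real.cos (p i - p j))) := by
      have hc : Continuous (fun y : V → ℝ => Real.cos (y i - y j)) := by fun_prop
      exact (hc.tendsto p).comp hlim
    rw [h1] at h2
    obtain ⟨K, hK⟩ := (Metric.tendsto_atTop.1 h2) ε hε
    have h3 := hK K le_rfl
    have h4 : (Φ x (τ (φ K)) - sh (n K)) i - (Φ x (τ (φ K)) - sh (n K)) j
        = (Φ x (τ (φ K)) i - Φ x (τ (φ K)) j)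
          + ((n K j - n K i : ℤ) : ℝ) * (2 * Real.pi) := by
      simp [sh]; ring
    rw [h4, Real.cos_add_int_mul_two_pi] at h3
    exact absurd h3 (not_lt.2 (hτ' (φ K)))
  refine tendsto_angle_of_cos ?_
  refine hcos.congr' ?_
  filter_upwards [eventually_ge_atTop (0:ℝ)] with t ht
  rw [hγΦ t ht]

end KurUV
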