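import Pool.Agent.R436.Kur.Defs

/-! The graph `addUniversal blow` is not globally synchronizing: there is a strict local minimum
of the energy (modulo rotation) with phases far from the synchronized state; an energy barrier
shows that an open set of initial conditions stays near it forever. -/

namespace KurUV

set_option linter.unusedSimpArgs false

open MeasureTheory Filter Topology Set

/-! ### The energy of the Kuramoto model -/

/-- The energy of the Kuramoto model. -/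
noncomputable def energy {V : Type} [Fintype V] (G : SimpleGraph V) (θ : V → ℝ) : ℝ :=
  open Classical in -(1 / 2) * ∑ i, ∑ j, if G.Adj i j then Real.cos (θ j - θ i) else 0

lemma energy_deriv {V : Type} [Fintype V] (G : SimpleGraph V) (γ : ℝ → V → ℝ)
    (h : IsSolution G γ) (t : ℝ) (ht : 0 ≤ t) :
    HasDerivWithinAt (fun s => energy G (γ s)) (-∑ i, (field G (γ t) i) ^ 2) (Ici 0) t := by
  classical
  have h1 : HasDerivWithinAt (fun s => energy G (γ s))
      (-(1 / 2) * ∑ i, ∑ j, if G.Adj i j then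
        -Real.sin (γ t j - γ t i) * (field G (γ t) j - field G (γ t) i) else 0) (Ici 0) t := by
    unfold energy
    apply HasDerivWithinAt.const_mul
    apply HasDerivWithinAt.fun_sum
    intro i _
    apply HasDerivWithinAt.fun_sum
    intro j _
    by_cases hij : G.Adj i j
    · simp only [hij, if_true]
      exact ((h t ht j).fun_sub (h t ht i)).cos
    · simp only [hij, if_false]
      exact hasDerivWithinAt_const _ _ _
  convert h1 using 1
  have h2 : ∑ i, ∑ j, (if G.Adj i j then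
        -Real.sin (γ t j - γ t i) * (field G (γ t) j - field G (γ t) i) else 0) =
      ∑ i, ∑ j, (if G.Adj i j then Real.sin (γ t j - γ t i) * field G (γ t) i else 0) +
      ∑ i, ∑ j, (if G.Adj i j then Real.sin (γ t i - γ t j) * field G (γ t) j else 0) := by
    rw [← Finset.sum_add_distrib]
    refine Finset.sum_congr rfl fun i _ => ?_
    rw [← Finset.sum_add_distrib]
    refine Finset.sum_congr rfl fun j _ => ?_
    by_cases hij : G.Adj i j
    · simp only [hij, if_true]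
      have : Real.sin (γ t i - γ t j) = -Real.sin (γ t j - γ t i) := by
        rw [← Real.sin_neg]; congr 1; ring
      rw [this]; ring
    · simp [hij]
  have h3 : ∑ i, ∑ j, (if G.Adj i j then Real.sin (γ t j - γ t i) * field G (γ t) i else 0)
      = ∑ i, (field G (γ t) i) ^ 2 := by
    refine Finset.sum_congr rfl fun i _ => ?_
    have hf : (∑ j, if G.Adj i j then Real.sin (γ t j - γ t i) else 0) = field G (γ t) i := rfl
    rw [sq]
    nth_rewrite 2 [← hf]
    rw [Finset.sum_mul]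
    refine Finset.sum_congr rfl fun j _ => ?_
    split_ifs <;> simp
  have h4 : ∑ i, ∑ j, (if G.Adj i j then Real.sin (γ t i - γ t j) * field G (γ t) j else 0)
      = ∑ i, (field G (γ t) i) ^ 2 := by
    rw [Finset.sum_comm, ← h3]
    refine Finset.sum_congr rfl fun i _ => ?_
    refine Finset.sum_congr rfl fun j _ => ?_
    simp [G.adj_comm j i]
  rw [h2, h3, h4]
  ring

lemma energy_le {V : Type} [Fintype V] (G : SimpleGraph V) (γ : ℝ → V → ℝ)
    (h : IsSolution G γ) (t : ℝ) (ht : 0 ≤ t) : energy G (γ t) ≤ energy G (γ 0) := by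
  have hA : AntitoneOn (fun s => energy G (γ s)) (Ici 0) := by
    apply antitoneOn_of_deriv_nonpos (convex_Ici 0)
    · intro s hs
      exact (energy_deriv G γ h s hs).continuousWithinAt
    · intro s hs
      rw [interior_Ici] at hs
      exact ((energy_deriv G γ h s hs.le).hasDerivAt
        (Ici_mem_nhds hs)).differentiableAt.differentiableWithinAt
    · intro s hs
      rw [interior_Ici] at hs
      rw [((energy_deriv G γ h s (le_of_lt hs)).hasDerivAt (Ici_mem_nhds hs)).deriv]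
      have := Finset.sum_nonneg (s := Finset.univ)
        (f := fun i => (field G (γ s) i) ^ 2) fun i _ => sq_nonneg _
      linarith
  exact hA (by simp) ht ht

lemma energy_continuous {V : Type} [Fintype V] (G : SimpleGraph V) :
    Continuous (energy G) := by
  classical
  unfold energy
  apply Continuous.mul continuous_const
  apply continuous_finsetSum
  intro i _
  apply continuous_finsetSum
  intro j _
  by_cases hij : G.Adj i j
  · simp only [hij, if_true]
    exact Real.continuous_cos.comp ((continuous_apply j).sub (continuous_apply i))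
  · simp only [hij, if_false]
    exact continuous_const

/-! ### Elementary inequality for the cosine -/

lemma cos_bound' (D η r w : ℝ) (hr : r ≤ 1) (hη : |η| ≤ r)
    (hw : w ≤ Real.cos D - |Real.sin D| * (r / 3 + 5 * r ^ 2 / 48) - 5 * r ^ 2 / 48) :
    Real.sin D * η + w / 2 * η ^ 2 ≤ Real.cos D - Real.cos (D + η) := by
  have hη1 : |η| ≤ 1 := hη.trans hr
  have hr0 : 0 ≤ r := (abs_nonneg _).trans hη
  have hc := Real.cos_bound hη1
  have hs := Real.sin_bound hη1
  have hc' := Real.one_sub_sq_div_two_le_cos (x := η)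
  rw [abs_le] at hc hs
  have h2 : |η| ^ 2 = η ^ 2 := sq_abs η
  have h2' : |η| ^ 2 ≤ r ^ 2 := pow_le_pow_left₀ (abs_nonneg _) hη 2
  have h4 : |η| ^ 4 ≤ r ^ 2 * η ^ 2 := by
    have : |η| ^ 4 = |η| ^ 2 * η ^ 2 := by rw [← h2]; ring
    rw [this]
    exact mul_le_mul_of_nonneg_right h2' (sq_nonneg _)
  have h3 : |η ^ 3| ≤ r * η ^ 2 := by
    have : |η ^ 3| = |η| * η ^ 2 := by rw [abs_pow, ← h2]; ring
    rw [this]
    exact mul_le_mul_of_nonneg_right hη (sq_nonneg _)
  -- cosine part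
  have hcos : Real.cos D * Real.cos η ≤ Real.cos D * (1 - η ^ 2 / 2) + 5 / 96 * (r ^ 2 * η ^ 2) := by
    rcases le_total 0 (Real.cos D) with hD | hD
    · have h5 : Real.cos η ≤ 1 - η ^ 2 / 2 + 5 / 96 * (r ^ 2 * η ^ 2) := by
        have := hc.2
        nlinarith
      have h6 : Real.cos D * Real.cos η ≤
          Real.cos D * (1 - η ^ 2 / 2 + 5 / 96 * (r ^ 2 * η ^ 2)) :=
        mul_le_mul_of_nonneg_left h5 hD
      have h7 : Real.cos D * (5 / 96 * (r ^ 2 * η ^ 2)) ≤ 1 * (5 / 96 * (r ^ 2 * η ^ 2)) :=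
        mul_le_mul_of_nonneg_right (Real.cos_le_one D) (by positivity)
      nlinarith
    · have h6 : Real.cos D * Real.cos η ≤ Real.cos D * (1 - η ^ 2 / 2) :=
        mul_le_mul_of_nonpos_left hc' hD
      have : 0 ≤ 5 / 96 * (r ^ 2 * η ^ 2) := by positivity
      linarith
  -- sine part
  have hsin : |Real.sin η - η| ≤ η ^ 2 * (r / 6 + 5 * r ^ 2 / 96) := by
    rw [abs_le] at h3
    rw [abs_le]
    constructor <;> nlinarith [hs.1, hs.2, h3.1, h3.2, h4]
  have hsin2 : -(Real.sin D * (Real.sin η - η)) ≤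
      |Real.sin D| * (η ^ 2 * (r / 6 + 5 * r ^ 2 / 96)) := by
    calc -(Real.sin D * (Real.sin η - η)) ≤ |Real.sin D * (Real.sin η - η)| := neg_le_abs _
      _ = |Real.sin D| * |Real.sin η - η| := abs_mul _ _
      _ ≤ _ := mul_le_mul_of_nonneg_left hsin (abs_nonneg _)
  rw [Real.cos_add]
  have hw2 : w / 2 * η ^ 2 ≤
      (Real.cos D - |Real.sin D| * (r / 3 + 5 * r ^ 2 / 48) - 5 * r ^ 2 / 48) / 2 * η ^ 2 := by
    apply mul_le_mul_of_nonneg_right _ (sq_nonneg _)
    linarith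
  nlinarith

/-! ### Reduction of sums over the example graph -/

lemma sum_adj (F : Option Vtx → Option Vtx → ℝ) (hF : ∀ p q, F p q = F q p) :
    (open Classical in ∑ p, ∑ q, if (addUniversal blow).Adj p q then F p q else 0) =
      2 * (∑ v : Vtx, F none (some v) +
        ∑ v : Vtx, ∑ w : Vtx, if v.1.val + 1 = w.1.val then F (some v) (some w) else 0) := by
  classical
  rw [Fintype.sum_option]
  simp only [Fintype.sum_option]
  have e0 : (addUniversal blow).Adj none none ↔ False := Iff.rfl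
  have e1 : ∀ v : Vtx, (addUniversal blow).Adj none (some v) ↔ True := fun v => Iff.rfl
  have e2 : ∀ v : Vtx, (addUniversal blow).Adj (some v) none ↔ True := fun v => Iff.rfl
  have e3 : ∀ v w : Vtx, (addUniversal blow).Adj (some v) (some w) ↔
      (v.1.val + 1 = w.1.val ∨ w.1.val + 1 = v.1.val) := fun v w => Iff.rfl
  simp only [e0, e1, e2, e3, if_true, if_false, zero_add]
  rw [Finset.sum_add_distrib]
  have h1 : ∑ v : Vtx, F (some v) none = ∑ v : Vtx, F none (some v) :=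
    Finset.sum_congr rfl fun v _ => hF _ _
  have h2 : ∑ v : Vtx, ∑ w : Vtx,
      (if v.1.val + 1 = w.1.val ∨ w.1.val + 1 = v.1.val then F (some v) (some w) else 0) =
      ∑ v : Vtx, ∑ w : Vtx, (if v.1.val + 1 = w.1.val then F (some v) (some w) else 0) +
      ∑ v : Vtx, ∑ w : Vtx, (if w.1.val + 1 = v.1.val then F (some v) (some w) else 0) := by
    rw [← Finset.sum_add_distrib]
    refine Finset.sum_congr rfl fun v _ => ?_
    rw [← Finset.sum_add_distrib]
    refine Finset.sum_congr rfl fun w _ => ?_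
    by_cases ha : v.1.val + 1 = w.1.val
    · have hb : ¬ (w.1.val + 1 = v.1.val) := by omega
      simp [ha, hb]
    · simp [ha]
  have h3 : ∑ v : Vtx, ∑ w : Vtx,
      (if w.1.val + 1 = v.1.val then F (some v) (some w) else 0) =
      ∑ v : Vtx, ∑ w : Vtx, (if v.1.val + 1 = w.1.val then F (some v) (some w) else 0) := by
    rw [Finset.sum_comm]
    refine Finset.sum_congr rfl fun v _ => ?_
    refine Finset.sum_congr rfl fun w _ => ?_
    rw [hF]
  rw [h1, h2, h3]
  ring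

lemma pair_sum {m n : ℕ} (f : Fin m → ℝ) (g : Fin n → ℝ) (k w : ℝ) :
    ∑ i, ∑ j, (k * (g j - f i) + w / 2 * (g j - f i) ^ 2) =
      k * (m * ∑ j, g j - n * ∑ i, f i) +
        w / 2 * (m * ∑ j, g j ^ 2 + n * ∑ i, f i ^ 2 - 2 * (∑ i, f i) * ∑ j, g j) := by
  have h1 : ∀ i, ∑ j, (k * (g j - f i) + w / 2 * (g j - f i) ^ 2) =
      k * (∑ j, g j) - n * k * f i + w / 2 * (∑ j, g j ^ 2) + n * w / 2 * f i ^ 2
        - w * (∑ j, g j) * f i := by
    intro i
    have : ∀ j, (k * (g j - f i) + w / 2 * (g j - f i) ^ 2) =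
      k * g j - k * f i + w / 2 * g j ^ 2 + w / 2 * f i ^ 2 - w * f i * g j := by
      intro j; ring
    simp only [this, Finset.sum_add_distrib, Finset.sum_sub_distrib, ← Finset.mul_sum,
      Finset.sum_const, Finset.card_univ, Fintype.card_fin, nsmul_eq_mul]
    ring
  simp only [h1, Finset.sum_add_distrib, Finset.sum_sub_distrib, ← Finset.mul_sum,
      Finset.sum_const, Finset.card_univ, Fintype.card_fin, nsmul_eq_mul]
  ring

lemma sum_path (x : Vtx → ℝ) (k W : Fin 6 → Fin 6 → ℝ) :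
    ∑ v : Vtx, ∑ w : Vtx, (if v.1.val + 1 = w.1.val then
      k v.1 w.1 * (x w - x v) + W v.1 w.1 / 2 * (x w - x v) ^ 2 else 0) =
    ∑ a : Fin 6, ∑ b : Fin 6, if a.val + 1 = b.val then
      k a b * (size a * ∑ j, x ⟨b, j⟩ - size b * ∑ i, x ⟨a, i⟩) +
        W a b / 2 * (size a * ∑ j, x ⟨b, j⟩ ^ 2 + size b * ∑ i, x ⟨a, i⟩ ^ 2 -
          2 * (∑ i, x ⟨a, i⟩) * ∑ j, x ⟨b, j⟩) else 0 := by
  rw [Fintype.sum_sigma]
  refine Finset.sum_congr rfl fun a _ => ?_
  have : ∀ i : Fin (size a), ∑ w : Vtx, (if a.val + 1 = w.1.val then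
      k a w.1 * (x w - x ⟨a, i⟩) + W a w.1 / 2 * (x w - x ⟨a, i⟩) ^ 2 else 0) =
      ∑ b : Fin 6, ∑ j : Fin (size b), (if a.val + 1 = b.val then
      k a b * (x ⟨b, j⟩ - x ⟨a, i⟩) + W a b / 2 * (x ⟨b, j⟩ - x ⟨a, i⟩) ^ 2 else 0) := by
    intro i
    rw [Fintype.sum_sigma]
  simp only [this]
  rw [Finset.sum_comm]
  refine Finset.sum_congr rfl fun b _ => ?_
  by_cases hab : a.val + 1 = b.val
  · simp only [hab, if_true]
    exact pair_sum (fun i => x ⟨a, i⟩) (fun j => x ⟨b, j⟩) (k a b) (W a b)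
  · simp [hab]

/-! ### The numerical data of the twisted state -/

/-- Cosines of the six group phases. -/
noncomputable def cc : Fin 6 → ℝ :=
  ![(1 - (30117 / 50000) ^ 2) / (1 + (30117 / 50000) ^ 2),
    (1 - (16787 / 25000) ^ 2) / (1 + (16787 / 25000) ^ 2),
    (1 - (320309 / 100000) ^ 2) / (1 + (320309 / 100000) ^ 2),
    (1 - (320309 / 100000) ^ 2) / (1 + (320309 / 100000) ^ 2),
    (1 - (16787 / 25000) ^ 2) / (1 + (16787 / 25000) ^ 2),
    (1 - (30117 / 50000) ^ 2) / (1 + (30117 / 50000) ^ 2)]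

/-- Sines of the six group phases. -/
noncomputable def ss : Fin 6 → ℝ :=
  ![2 * (30117 / 50000) / (1 + (30117 / 50000) ^ 2),
    2 * (16787 / 25000) / (1 + (16787 / 25000) ^ 2),
    2 * (320309 / 100000) / (1 + (320309 / 100000) ^ 2),
    -(2 * (320309 / 100000) / (1 + (320309 / 100000) ^ 2)),
    -(2 * (16787 / 25000) / (1 + (16787 / 25000) ^ 2)),
    -(2 * (30117 / 50000) / (1 + (30117 / 50000) ^ 2))]

/-- Lower bounds of the second derivatives, path edges. -/
noncomputable def ww : Fin 6 → ℝ :=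
  ![9907 / 10000, 1807 / 10000, 3193 / 10000, 1807 / 10000, 9907 / 10000, 0]

/-- Lower bounds of the second derivatives, edges to the universal vertex. -/
noncomputable def uu : Fin 6 → ℝ :=
  ![4523 / 10000, 3625 / 10000, -8323 / 10000, -8323 / 10000, 3625 / 10000, 4523 / 10000]

lemma exists_angle (c s : ℝ) (h : c ^ 2 + s ^ 2 = 1) :
    ∃ α : ℝ, Real.cos α = c ∧ Real.sin α = s := by
  have hn : ‖(⟨c, s⟩ : ℂ)‖ = 1 := by
    rw [Complex.norm_def, Complex.normSq_mk, ← sq, ← sq, h, Real.sqrt_one]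
  refine ⟨Complex.arg ⟨c, s⟩, ?_, ?_⟩
  · have := Complex.norm_mul_cos_arg (⟨c, s⟩ : ℂ)
    rwa [hn, one_mul] at this
  · have := Complex.norm_mul_sin_arg (⟨c, s⟩ : ℂ)
    rwa [hn, one_mul] at this

lemma exists_alpha : ∃ α : Fin 6 → ℝ, ∀ a, Real.cos (α a) = cc a ∧ Real.sin (α a) = ss a := by
  have : ∀ a : Fin 6, ∃ α : ℝ, Real.cos α = cc a ∧ Real.sin α = ss a := by
    intro a
    apply exists_angle
    fin_cases a <;> norm_num [cc, ss]
  choose α h using this
  exact ⟨α, h⟩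

lemma numeric (X0 X1 X2 X3 X4 X5 A0 A1 A2 A3 A4 A5 K0 K1 K2 K3 K4 S0 S1 S2 S3 S4 S5 : ℝ)
    (h0 : X0 ^ 2 ≤ 90 * A0) (h1 : X1 ^ 2 ≤ 9 * A1) (h2 : X2 ^ 2 ≤ 10 * A2)
    (h3 : X3 ^ 2 ≤ 10 * A3) (h4 : X4 ^ 2 ≤ 9 * A4) (h5 : X5 ^ 2 ≤ 90 * A5)
    (hA : 1 / 400 ≤ A0 + A1 + A2 + A3 + A4 + A5)
    (g0 : |S0 - 9 * K0| ≤ 9 / 100000) (g1 : |S1 + 90 * K0 - 10 * K1| ≤ 9 / 100000)
    (g2 : |S2 + 9 * K1 - 10 * K2| ≤ 9 / 100000) (g3 : |S3 + 10 * K2 - 9 * K3| ≤ 9 / 100000)
    (g4 : |S4 + 10 * K3 - 90 * K4| ≤ 9 / 100000) (g5 : |S5 + 9 * K4| ≤ 9 / 100000) :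
    1 / 20000 ≤
      (S0 * X0 + (4523 / 10000) / 2 * A0) + (S1 * X1 + (3625 / 10000) / 2 * A1) +
      (S2 * X2 + (-8323 / 10000) / 2 * A2) + (S3 * X3 + (-8323 / 10000) / 2 * A3) +
      (S4 * X4 + (3625 / 10000) / 2 * A4) + (S5 * X5 + (4523 / 10000) / 2 * A5) +
      (K0 * (90 * X1 - 9 * X0) + (9907 / 10000) / 2 * (90 * A1 + 9 * A0 - 2 * X0 * X1)) +
      (K1 * (9 * X2 - 10 * X1) + (1807 / 10000) / 2 * (9 * A2 + 10 * A1 - 2 * X1 * X2)) +
      (K2 * (10 * X3 - 10 * X2) + (3193 / 10000) / 2 * (10 * A3 + 10 * A2 - 2 * X2 * X3)) +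
      (K3 * (10 * X4 - 9 * X3) + (1807 / 10000) / 2 * (10 * A4 + 9 * A3 - 2 * X3 * X4)) +
      (K4 * (9 * X5 - 90 * X4) + (9907 / 10000) / 2 * (9 * A5 + 90 * A4 - 2 * X4 * X5)) := by
  have hg : ∀ g X : ℝ, |g| ≤ 9 / 100000 → -(1 / 2000) * X ^ 2 - 81 / 20000000 ≤ g * X := by
    intro g X hgX
    have e1 : -(g * X) ≤ |g| * |X| := by
      rw [← abs_mul]; exact neg_le_abs _
    have e2 : |g| * |X| ≤ 9 / 100000 * |X| := mul_le_mul_of_nonneg_right hgX (abs_nonneg _)
    have e3 : |X| ^ 2 = X ^ 2 := sq_abs X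
    nlinarith [sq_nonneg (|X| - 9 / 100)]
  have k0 := hg _ X0 g0
  have k1 := hg _ X1 g1
  have k2 := hg _ X2 g2
  have k3 := hg _ X3 g3
  have k4 := hg _ X4 g4
  have k5 := hg _ X5 g5
  linarith [sq_nonneg (X0 - 97 / 10 * X1), sq_nonneg (X1 - 345 / 1000 * X2),
    sq_nonneg (X2 - X3), sq_nonneg (X4 - 345 / 1000 * X3), sq_nonneg (X5 - 97 / 10 * X4),
    sq_nonneg X0, sq_nonneg X1, sq_nonneg X2, sq_nonneg X3, sq_nonneg X4, sq_nonneg X5]

/-- Sine of the difference of the phases of two groups. -/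
noncomputable def kk (a b : Fin 6) : ℝ := ss b * cc a - cc b * ss a

lemma hub_bound (α : Fin 6 → ℝ) (hα : ∀ a, Real.cos (α a) = cc a ∧ Real.sin (α a) = ss a)
    (a : Fin 6) (x : ℝ) (hx : |x| ≤ 1 / 20) :
    ss a * x + uu a / 2 * x ^ 2 ≤ Real.cos (α a) - Real.cos (α a + x) := by
  have h := cos_bound' (α a) x (1 / 20) (uu a) (by norm_num) hx
  rw [(hα a).2] at h
  apply h
  rw [(hα a).1]
  have hs : |ss a| ≤ ![8839655 / 10000000, 9256142 / 10000000, 5689434 / 10000000,
      5689434 / 10000000, 9256142 / 10000000, 8839655 / 10000000] a := by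
    rw [abs_le]
    fin_cases a <;> norm_num [ss]
  have hc : ![4675522 / 10000000, 3784686 / 10000000, -8223768 / 10000000,
      -8223768 / 10000000, 3784686 / 10000000, 4675522 / 10000000] a ≤ cc a := by
    fin_cases a <;> norm_num [cc]
  have hu : uu a ≤ ![4675522 / 10000000, 3784686 / 10000000, -8223768 / 10000000,
      -8223768 / 10000000, 3784686 / 10000000, 4675522 / 10000000] a -
      ![8839655 / 10000000, 9256142 / 10000000, 5689434 / 10000000,
      5689434 / 10000000, 9256142 / 10000000, 8839655 / 10000000] a *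
      (1 / 20 / 3 + 5 * (1 / 20) ^ 2 / 48) - 5 * (1 / 20) ^ 2 / 48 := by
    fin_cases a <;> norm_num [uu]
  nlinarith [hs, hc, hu]

lemma path_bound (α : Fin 6 → ℝ) (hα : ∀ a, Real.cos (α a) = cc a ∧ Real.sin (α a) = ss a)
    (a b : Fin 6) (hab : a.val + 1 = b.val) (x : ℝ) (hx : |x| ≤ 1 / 10) :
    kk a b * x + ww a / 2 * x ^ 2 ≤
      Real.cos (α b - α a) - Real.cos (α b - α a + x) := by
  have h := cos_bound' (α b - α a) x (1 / 10) (ww a) (by norm_num) hx
  have hsin : Real.sin (α b - α a) = kk a b := by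
    rw [Real.sin_sub, (hα a).1, (hα a).2, (hα b).1, (hα b).2, kk]
  have hcos : Real.cos (α b - α a) = cc b * cc a + ss b * ss a := by
    rw [Real.cos_sub, (hα a).1, (hα a).2, (hα b).1, (hα b).2]
  rw [hsin] at h
  apply h
  rw [hcos]
  have hs : |kk a b| ≤ ![982198 / 10000000, 9765308 / 10000000, 9357716 / 10000000,
      9765308 / 10000000, 982198 / 10000000, 0] a := by
    rw [abs_le]
    fin_cases a <;> fin_cases b <;> first | (exfalso; revert hab; decide) | norm_num [kk, ss, cc]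
  have hc : ![9951647 / 10000000, 2153781 / 10000000, 3526069 / 10000000,
      2153781 / 10000000, 9951647 / 10000000, 0] a ≤ cc b * cc a + ss b * ss a := by
    fin_cases a <;> fin_cases b <;> first | (exfalso; revert hab; decide) | norm_num [ss, cc]
  have hu : ww a ≤ ![9951647 / 10000000, 2153781 / 10000000, 3526069 / 10000000,
      2153781 / 10000000, 9951647 / 10000000, 0] a -
      ![982198 / 10000000, 9765308 / 10000000, 9357716 / 10000000,
      9765308 / 10000000, 982198 / 10000000, 0] a *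
      (1 / 10 / 3 + 5 * (1 / 10) ^ 2 / 48) - 5 * (1 / 10) ^ 2 / 48 := by
    fin_cases a <;> fin_cases b <;> first | (exfalso; revert hab; decide) | norm_num [ww]
  nlinarith [hs, hc, hu]

/-- The twisted state. -/
noncomputable def state (α : Fin 6 → ℝ) : Option Vtx → ℝ
  | none => 0
  | some v => α v.1

lemma energy_eq (θ : Option Vtx → ℝ) : energy (addUniversal blow) θ =
    -(∑ v : Vtx, Real.cos (θ (some v) - θ none) +
      ∑ v : Vtx, ∑ w : Vtx, if v.1.val + 1 = w.1.val then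
        Real.cos (θ (some w) - θ (some v)) else 0) := by
  have h := sum_adj (fun p q => Real.cos (θ q - θ p)) (fun p q => by
    rw [← Real.cos_neg]; congr 1; ring)
  rw [energy, h]
  ring

lemma lower_bound (α : Fin 6 → ℝ) (hα : ∀ a, Real.cos (α a) = cc a ∧ Real.sin (α a) = ss a)
    (x : Vtx → ℝ) (hx : ∀ v, |x v| ≤ 1 / 20) (θ : Option Vtx → ℝ)
    (hθ : ∀ v, θ (some v) = θ none + α v.1 + x v) :
    ∑ a : Fin 6, (ss a * ∑ i, x ⟨a, i⟩ + uu a / 2 * ∑ i, x ⟨a, i⟩ ^ 2) +
    ∑ a : Fin 6, ∑ b : Fin 6, (if a.val + 1 = b.val then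
      kk a b * (size a * ∑ j, x ⟨b, j⟩ - size b * ∑ i, x ⟨a, i⟩) +
        ww a / 2 * (size a * ∑ j, x ⟨b, j⟩ ^ 2 + size b * ∑ i, x ⟨a, i⟩ ^ 2 -
          2 * (∑ i, x ⟨a, i⟩) * ∑ j, x ⟨b, j⟩) else 0) ≤
      energy (addUniversal blow) θ - energy (addUniversal blow) (state α) := by
  rw [← sum_path x kk (fun a _ => ww a)]
  have e1 : ∑ a : Fin 6, (ss a * ∑ i, x ⟨a, i⟩ + uu a / 2 * ∑ i, x ⟨a, i⟩ ^ 2) =
      ∑ v : Vtx, (ss v.1 * x v + uu v.1 / 2 * x v ^ 2) := by
    rw [Fintype.sum_sigma]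
    refine Finset.sum_congr rfl fun a _ => ?_
    rw [Finset.sum_add_distrib, Finset.mul_sum, Finset.mul_sum]
  rw [e1, energy_eq, energy_eq]
  have e2 : ∑ v : Vtx, (ss v.1 * x v + uu v.1 / 2 * x v ^ 2) ≤
      ∑ v : Vtx, Real.cos (state α (some v) - state α none) -
        ∑ v : Vtx, Real.cos (θ (some v) - θ none) := by
    rw [← Finset.sum_sub_distrib]
    refine Finset.sum_le_sum fun v _ => ?_
    have := hub_bound α hα v.1 (x v) (hx v)
    rw [hθ v]
    have e3 : θ none + α v.1 + x v - θ none = α v.1 + x v := by ring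
    rw [e3]
    simpa [state] using this
  have e4 : ∑ v : Vtx, ∑ w : Vtx, (if v.1.val + 1 = w.1.val then
      kk v.1 w.1 * (x w - x v) + ww v.1 / 2 * (x w - x v) ^ 2 else 0) ≤
      ∑ v : Vtx, ∑ w : Vtx, (if v.1.val + 1 = w.1.val then
        Real.cos (state α (some w) - state α (some v)) else 0) -
      ∑ v : Vtx, ∑ w : Vtx, (if v.1.val + 1 = w.1.val then
        Real.cos (θ (some w) - θ (some v)) else 0) := by
    rw [← Finset.sum_sub_distrib]
    refine Finset.sum_le_sum fun v _ => ?_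
    rw [← Finset.sum_sub_distrib]
    refine Finset.sum_le_sum fun w _ => ?_
    by_cases hvw : v.1.val + 1 = w.1.val
    · simp only [hvw, if_true]
      have hxx : |x w - x v| ≤ 1 / 10 := by
        have h1 := abs_le.1 (hx v)
        have h2 := abs_le.1 (hx w)
        rw [abs_le]
        constructor <;> linarith [h1.1, h1.2, h2.1, h2.2]
      have := path_bound α hα v.1 w.1 hvw (x w - x v) hxx
      rw [hθ v, hθ w]
      have e3 : θ none + α w.1 + x w - (θ none + α v.1 + x v) =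
        α w.1 - α v.1 + (x w - x v) := by ring
      rw [e3]
      simpa [state] using this
    · simp [hvw]
  linarith

lemma cc0 : cc 0 = (1 - (30117 / 50000) ^ 2) / (1 + (30117 / 50000) ^ 2) := rfl
lemma cc1 : cc 1 = (1 - (16787 / 25000) ^ 2) / (1 + (16787 / 25000) ^ 2) := rfl
lemma cc2 : cc 2 = (1 - (320309 / 100000) ^ 2) / (1 + (320309 / 100000) ^ 2) := rfl
lemma cc3 : cc 3 = (1 - (320309 / 100000) ^ 2) / (1 + (320309 / 100000) ^ 2) := rfl
lemma cc4 : cc 4 = (1 - (16787 / 25000) ^ 2) / (1 + (16787 / 25000) ^ 2) := rfl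
lemma cc5 : cc 5 = (1 - (30117 / 50000) ^ 2) / (1 + (30117 / 50000) ^ 2) := rfl
lemma ss0 : ss 0 = 2 * (30117 / 50000) / (1 + (30117 / 50000) ^ 2) := rfl
lemma ss1 : ss 1 = 2 * (16787 / 25000) / (1 + (16787 / 25000) ^ 2) := rfl
lemma ss2 : ss 2 = 2 * (320309 / 100000) / (1 + (320309 / 100000) ^ 2) := rfl
lemma ss3 : ss 3 = -(2 * (320309 / 100000) / (1 + (320309 / 100000) ^ 2)) := rfl
lemma ss4 : ss 4 = -(2 * (16787 / 25000) / (1 + (16787 / 25000) ^ 2)) := rfl
lemma ss5 : ss 5 = -(2 * (30117 / 50000) / (1 + (30117 / 50000) ^ 2)) := rfl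

lemma grad0 : |ss 0 - 9 * kk 0 1| ≤ 9 / 100000 := by
  rw [abs_le]
  simp only [kk, cc0, cc1, cc2, cc3, cc4, cc5, ss0, ss1, ss2, ss3, ss4, ss5]
  norm_num

lemma grad1 : |ss 1 + 90 * kk 0 1 - 10 * kk 1 2| ≤ 9 / 100000 := by
  rw [abs_le]
  simp only [kk, cc0, cc1, cc2, cc3, cc4, cc5, ss0, ss1, ss2, ss3, ss4, ss5]
  norm_num

lemma grad2 : |ss 2 + 9 * kk 1 2 - 10 * kk 2 3| ≤ 9 / 100000 := by
  rw [abs_le]
  simp only [kk, cc0, cc1, cc2, cc3, cc4, cc5, ss0, ss1, ss2, ss3, ss4, ss5]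
  norm_num

lemma grad3 : |ss 3 + 10 * kk 2 3 - 9 * kk 3 4| ≤ 9 / 100000 := by
  rw [abs_le]
  simp only [kk, cc0, cc1, cc2, cc3, cc4, cc5, ss0, ss1, ss2, ss3, ss4, ss5]
  norm_num

lemma grad4 : |ss 4 + 10 * kk 3 4 - 90 * kk 4 5| ≤ 9 / 100000 := by
  rw [abs_le]
  simp only [kk, cc0, cc1, cc2, cc3, cc4, cc5, ss0, ss1, ss2, ss3, ss4, ss5]
  norm_num

lemma grad5 : |ss 5 + 9 * kk 4 5| ≤ 9 / 100000 := by
  rw [abs_le]
  simp only [kk, cc0, cc1, cc2, cc3, cc4, cc5, ss0, ss1, ss2, ss3, ss4, ss5]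
  norm_num

lemma barrier (α : Fin 6 → ℝ) (hα : ∀ a, Real.cos (α a) = cc a ∧ Real.sin (α a) = ss a)
    (x : Vtx → ℝ) (hx : ∀ v, |x v| ≤ 1 / 20) (v0 : Vtx) (hv0 : |x v0| = 1 / 20)
    (θ : Option Vtx → ℝ) (hθ : ∀ v, θ (some v) = θ none + α v.1 + x v) :
    energy (addUniversal blow) (state α) + 1 / 20000 ≤ energy (addUniversal blow) θ := by
  have hl := lower_bound α hα x hx θ hθ
  have hcs : ∀ a : Fin 6, (∑ i, x ⟨a, i⟩) ^ 2 ≤ (size a : ℝ) * ∑ i, x ⟨a, i⟩ ^ 2 := by
    intro a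
    have := sq_sum_le_card_mul_sum_sq (s := (Finset.univ : Finset (Fin (size a))))
      (f := fun i => x ⟨a, i⟩)
    simpa using this
  have hA : 1 / 400 ≤ ∑ a : Fin 6, ∑ i, x ⟨a, i⟩ ^ 2 := by
    have h1 : ∑ a : Fin 6, ∑ i, x ⟨a, i⟩ ^ 2 = ∑ v : Vtx, x v ^ 2 := by
      rw [Fintype.sum_sigma]
    rw [h1]
    have h2 : x v0 ^ 2 ≤ ∑ v : Vtx, x v ^ 2 :=
      Finset.single_le_sum (f := fun v => x v ^ 2) (fun v _ => sq_nonneg _) (Finset.mem_univ v0)
    have h3 : x v0 ^ 2 = 1 / 400 := by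
      rw [← sq_abs, hv0]; norm_num
    linarith
  set X : Fin 6 → ℝ := fun a => ∑ i, x ⟨a, i⟩ with hX
  set A : Fin 6 → ℝ := fun a => ∑ i, x ⟨a, i⟩ ^ 2 with hAd
  have hl' : ∑ a : Fin 6, (ss a * X a + uu a / 2 * A a) +
    ∑ a : Fin 6, ∑ b : Fin 6, (if a.val + 1 = b.val then
      kk a b * (size a * X b - size b * X a) +
        ww a / 2 * (size a * A b + size b * A a - 2 * X a * X b) else 0) ≤
      energy (addUniversal blow) θ - energy (addUniversal blow) (state α) := hl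
  have hcs' : ∀ a : Fin 6, X a ^ 2 ≤ (size a : ℝ) * A a := hcs
  have hA' : 1 / 400 ≤ ∑ a : Fin 6, A a := hA
  have s0 : (size 0 : ℝ) = 90 := by
    have : size 0 = 90 := rfl
    rw [this]; norm_num
  have s1 : (size 1 : ℝ) = 9 := by
    have : size 1 = 9 := rfl
    rw [this]; norm_num
  have s2 : (size 2 : ℝ) = 10 := by
    have : size 2 = 10 := rfl
    rw [this]; norm_num
  have s3 : (size 3 : ℝ) = 10 := by
    have : size 3 = 10 := rfl
    rw [this]; norm_num
  have s4 : (size 4 : ℝ) = 9 := by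
    have : size 4 = 9 := rfl
    rw [this]; norm_num
  have s5 : (size 5 : ℝ) = 90 := by
    have : size 5 = 90 := rfl
    rw [this]; norm_num
  have hN := numeric (X 0) (X 1) (X 2) (X 3) (X 4) (X 5) (A 0) (A 1) (A 2) (A 3) (A 4) (A 5)
    (kk 0 1) (kk 1 2) (kk 2 3) (kk 3 4) (kk 4 5) (ss 0) (ss 1) (ss 2) (ss 3) (ss 4) (ss 5)
    (by simpa [s0] using hcs' 0) (by simpa [s1] using hcs' 1) (by simpa [s2] using hcs' 2)
    (by simpa [s3] using hcs' 3) (by simpa [s4] using hcs' 4) (by simpa [s5] using hcs' 5)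
    (by simpa [Fin.sum_univ_six] using hA')
    grad0 grad1 grad2 grad3 grad4 grad5
  have hexp : ∑ a : Fin 6, (ss a * X a + uu a / 2 * A a) +
    ∑ a : Fin 6, ∑ b : Fin 6, (if a.val + 1 = b.val then
      kk a b * (size a * X b - size b * X a) +
        ww a / 2 * (size a * A b + size b * A a - 2 * X a * X b) else 0) =
      (ss 0 * X 0 + (4523 / 10000) / 2 * A 0) + (ss 1 * X 1 + (3625 / 10000) / 2 * A 1) +
      (ss 2 * X 2 + (-8323 / 10000) / 2 * A 2) + (ss 3 * X 3 + (-8323 / 10000) / 2 * A 3) +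
      (ss 4 * X 4 + (3625 / 10000) / 2 * A 4) + (ss 5 * X 5 + (4523 / 10000) / 2 * A 5) +
      (kk 0 1 * (90 * X 1 - 9 * X 0) +
        (9907 / 10000) / 2 * (90 * A 1 + 9 * A 0 - 2 * X 0 * X 1)) +
      (kk 1 2 * (9 * X 2 - 10 * X 1) +
        (1807 / 10000) / 2 * (9 * A 2 + 10 * A 1 - 2 * X 1 * X 2)) +
      (kk 2 3 * (10 * X 3 - 10 * X 2) +
        (3193 / 10000) / 2 * (10 * A 3 + 10 * A 2 - 2 * X 2 * X 3)) +
      (kk 3 4 * (10 * X 4 - 9 * X 3) +
        (1807 / 10000) / 2 * (10 * A 4 + 9 * A 3 - 2 * X 3 * X 4)) +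
      (kk 4 5 * (9 * X 5 - 90 * X 4) +
        (9907 / 10000) / 2 * (9 * A 5 + 90 * A 4 - 2 * X 4 * X 5)) := by
    have w0 : ww 0 = 9907 / 10000 := rfl
    have w1 : ww 1 = 1807 / 10000 := rfl
    have w2 : ww 2 = 3193 / 10000 := rfl
    have w3 : ww 3 = 1807 / 10000 := rfl
    have w4 : ww 4 = 9907 / 10000 := rfl
    have u0 : uu 0 = 4523 / 10000 := rfl
    have u1 : uu 1 = 3625 / 10000 := rfl
    have u2 : uu 2 = -8323 / 10000 := rfl
    have u3 : uu 3 = -8323 / 10000 := rfl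
    have u4 : uu 4 = 3625 / 10000 := rfl
    have u5 : uu 5 = 4523 / 10000 := rfl
    simp only [Fin.sum_univ_six, s0, s1, s2, s3, s4, s5, w0, w1, w2, w3, w4, u0, u1, u2, u3,
      u4, u5]
    norm_num
    ring
  linarith [hl', hN, hexp]

/-- Deviation from the twisted state (relative to the universal vertex). -/
noncomputable def dev (α : Fin 6 → ℝ) (θ : Option Vtx → ℝ) : Vtx → ℝ :=
  fun v => θ (some v) - θ none - α v.1

lemma dev_continuous (α : Fin 6 → ℝ) : Continuous (dev α) := by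
  unfold dev
  refine continuous_pi fun v => ?_
  have h1 : Continuous fun θ : Option Vtx → ℝ => θ (some v) := continuous_apply (some v)
  have h2 : Continuous fun θ : Option Vtx → ℝ => θ none := continuous_apply none
  exact (h1.sub h2).sub continuous_const

lemma stays (α : Fin 6 → ℝ) (hα : ∀ a, Real.cos (α a) = cc a ∧ Real.sin (α a) = ss a)
    (γ : ℝ → Option Vtx → ℝ) (hγ : IsSolution (addUniversal blow) γ)
    (h0 : ‖dev α (γ 0)‖ < 1 / 20)
    (hE : energy (addUniversal blow) (γ 0) <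
      energy (addUniversal blow) (state α) + 1 / 20000) (t : ℝ) (ht : 0 ≤ t) :
    ‖dev α (γ t)‖ < 1 / 20 := by
  by_contra hcon
  push Not at hcon
  have hcont : ContinuousOn (fun s => ‖dev α (γ s)‖) (Icc 0 t) := by
    have h1 : ContinuousOn γ (Icc 0 t) := by
      rw [continuousOn_pi]
      intro i s hs
      exact ((hγ s hs.1 i).continuousWithinAt).mono (fun u hu => hu.1)
    have h2 : Continuous fun x : Option Vtx → ℝ => ‖dev α x‖ := (dev_continuous α).norm
    exact h2.comp_continuousOn h1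
  have hmem : (1 / 20 : ℝ) ∈ Icc ‖dev α (γ 0)‖ ‖dev α (γ t)‖ := ⟨h0.le, hcon⟩
  obtain ⟨s, hs, hs2⟩ := intermediate_value_Icc ht hcont hmem
  have hs2' : ‖dev α (γ s)‖ = 1 / 20 := hs2
  have hall : ∀ v, |dev α (γ s) v| ≤ 1 / 20 := by
    intro v
    rw [← Real.norm_eq_abs, ← hs2']
    exact norm_le_pi_norm _ v
  obtain ⟨v0, hv0⟩ : ∃ v0, |dev α (γ s) v0| = 1 / 20 := by
    by_contra hne
    push Not at hne
    have : ‖dev α (γ s)‖ < 1 / 20 := by
      rw [pi_norm_lt_iff (by norm_num)]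
      intro v
      rw [Real.norm_eq_abs]
      exact lt_of_le_of_ne (hall v) (hne v)
    linarith
  have hb := barrier α hα (dev α (γ s)) hall v0 hv0 (γ s) (fun v => by unfold dev; ring)
  have := energy_le _ γ hγ s hs.1
  linarith

/-- The graph obtained from `blow` by adding a universal vertex is not globally
synchronizing (given that the Kuramoto ODE has global forward solutions). -/
theorem not_sync
    (hex : ∀ x : Option Vtx → ℝ, ∃ γ, IsSolution (addUniversal blow) γ ∧ γ 0 = x) :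
    ¬ GloballySynchronizing (addUniversal blow) := by
  intro hG
  obtain ⟨α, hα⟩ := exists_alpha
  set U : Set (Option Vtx → ℝ) := {x | ‖dev α x‖ < 1 / 20 ∧
    energy (addUniversal blow) x < energy (addUniversal blow) (state α) + 1 / 20000} with hU
  have hUo : IsOpen U :=
    (isOpen_lt (dev_continuous α).norm continuous_const).inter
      (isOpen_lt (energy_continuous _) continuous_const)
  have hUne : U.Nonempty := by
    refine ⟨state α, ?_, ?_⟩
    · have : dev α (state α) = 0 := by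
        funext v; simp [dev, state]
      rw [this, norm_zero]; norm_num
    · linarith
  have hpos : 0 < volume U := hUo.measure_pos volume hUne
  have hex2 : ∃ x ∈ U, ∀ γ : ℝ → Option Vtx → ℝ, IsSolution (addUniversal blow) γ → γ 0 = x →
      ∀ i j, Tendsto (fun t => ((γ t i - γ t j : ℝ) : Real.Angle)) atTop (𝓝 0) := by
    by_contra hcon
    push Not at hcon
    have hsub : U ⊆ {x | ¬ ∀ γ : ℝ → Option Vtx → ℝ, IsSolution (addUniversal blow) γ →
        γ 0 = x →
        ∀ i j, Tendsto (fun t => ((γ t i - γ t j : ℝ) : Real.Angle)) atTop (𝓝 0)} := by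
      intro x hx hall
      obtain ⟨γ, h1, h2, i, j, h3⟩ := hcon x hx
      exact h3 (hall γ h1 h2 i j)
    have : volume U = 0 := measure_mono_null hsub hG
    exact absurd this hpos.ne'
  obtain ⟨x, hxU, hx⟩ := hex2
  obtain ⟨γ, hγ, hγ0⟩ := hex x
  have hlim := hx γ hγ hγ0 (some ⟨2, ⟨0, by decide⟩⟩) none
  have hcos : Tendsto (fun t => Real.cos (γ t (some ⟨2, ⟨0, by decide⟩⟩) - γ t none)) atTop
      (𝓝 1) := by
    have h1 : Tendsto (fun t => Real.Angle.cos
        ((γ t (some ⟨2, ⟨0, by decide⟩⟩) - γ t none : ℝ) : Real.Angle)) atTop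
        (𝓝 (Real.Angle.cos 0)) := (Real.Angle.continuous_cos.tendsto 0).comp hlim
    simpa only [Real.Angle.cos_coe, Real.Angle.cos_zero] using h1
  have hle : ∀ t : ℝ, 0 ≤ t →
      Real.cos (γ t (some ⟨2, ⟨0, by decide⟩⟩) - γ t none) ≤ 1 / 2 := by
    intro t ht
    have hst := stays α hα γ hγ (by rw [hγ0]; exact hxU.1) (by rw [hγ0]; exact hxU.2) t ht
    set v : Vtx := ⟨2, ⟨0, by decide⟩⟩ with hv
    have h1 : |dev α (γ t) v| < 1 / 20 := by
      rw [← Real.norm_eq_abs]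
      exact lt_of_le_of_lt (norm_le_pi_norm _ v) hst
    have h2 : γ t (some v) - γ t none = α 2 + dev α (γ t) v := by
      simp only [dev, hv]; ring
    rw [h2]
    have h3 := hub_bound α hα 2 (dev α (γ t) v) h1.le
    have h4 : Real.cos (α 2) ≤ -8 / 10 := by
      rw [(hα 2).1, cc2]; norm_num
    have h5 : ss 2 ≤ 1 ∧ 0 ≤ ss 2 := by
      rw [ss2]; norm_num
    have h6 : uu 2 = -8323 / 10000 := rfl
    rw [h6] at h3
    have h7 := abs_lt.1 h1
    have h8 : (dev α (γ t) v) ^ 2 ≤ 1 / 400 := by nlinarith [h7.1, h7.2]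
    have h9 : -(1 / 20) ≤ ss 2 * dev α (γ t) v := by nlinarith [h7.1, h7.2, h5.1, h5.2]
    linarith
  have hcon := le_of_tendsto hcos (Filter.eventually_atTop.2 ⟨0, hle⟩)
  norm_num at hcon

end KurUV
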