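import Pool.Agent.R436.Kur.Sad

/-! The gradient-type inequality at the relevant equilibria of the blown-up path. -/

namespace KurUV

open MeasureTheory Filter Topology Set Metric Complex ComplexConjugate Asymptotics

section tools

variable {X : Type*} [TopologicalSpace X] {p : X} {G G' : X → ℝ}
  {𝕜 : Type*} [NormedField 𝕜]

theorem O_mul_cont {f c : X → 𝕜} (hf : f =O[𝓝 p] G) (hc : ContinuousAt c p) :
    (fun y => f y * c y) =O[𝓝 p] G := by
  have := hf.mul (hc.tendsto.isBigO_one ℝ)
  simpa using this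

theorem O_of_mul {f c : X → 𝕜} (hf : (fun y => f y * c y) =O[𝓝 p] G) (hc : ContinuousAt c p)
    (h0 : c p ≠ 0) : f =O[𝓝 p] G := by
  have h1 := O_mul_cont hf (hc.inv₀ h0)
  refine h1.congr' ?_ EventuallyEq.rfl
  filter_upwards [hc.eventually_ne h0] with y hy
  exact mul_inv_cancel_right₀ hy _

theorem O_re {f : X → ℂ} (hf : f =O[𝓝 p] G) : (fun y => (f y).re) =O[𝓝 p] G :=
  (isBigO_of_le _ fun y => by
    rw [Real.norm_eq_abs]; exact Complex.abs_re_le_norm _).trans hf

theorem O_im {f : X → ℂ} (hf : f =O[𝓝 p] G) : (fun y => (f y).im) =O[𝓝 p] G :=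
  (isBigO_of_le _ fun y => by
    rw [Real.norm_eq_abs]; exact Complex.abs_im_le_norm _).trans hf

theorem O_conj {f : X → ℂ} (hf : f =O[𝓝 p] G) : (fun y => conj (f y)) =O[𝓝 p] G :=
  (isBigO_of_le _ fun y => by rw [Complex.norm_conj]).trans hf

theorem O_zero_at {f : X → 𝕜} (hf : f =O[𝓝 p] G) (h0 : G p = 0) : f p = 0 := by
  obtain ⟨C, hC⟩ := hf.bound
  have := hC.self_of_nhds
  rw [h0, norm_zero, mul_zero] at this
  exact norm_le_zero_iff.1 this

end tools

/-- Sup norm of the field. -/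
noncomputable def gg (y : Vtx → ℝ) : ℝ := ‖field blow y‖

/-- Its square. -/
noncomputable def g2 (y : Vtx → ℝ) : ℝ := gg y * gg y

theorem continuous_ph (x : Vtx) : Continuous (fun y : Vtx → ℝ => ph y x) := by
  unfold ph; fun_prop

theorem continuous_zz (a : Fin 6) : Continuous (fun y : Vtx → ℝ => zz y a) := by
  unfold zz
  exact continuous_finsetSum _ fun i _ => continuous_ph _

theorem continuous_hh (a : Fin 6) : Continuous (fun y : Vtx → ℝ => hh y a) := by
  have h0 := continuous_zz 0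
  have h1 := continuous_zz 1
  have h2 := continuous_zz 2
  have h3 := continuous_zz 3
  have h4 := continuous_zz 4
  have h5 := continuous_zz 5
  fin_cases a
  · exact h1
  · exact h0.add h2
  · exact h1.add h3
  · exact h2.add h4
  · exact h3.add h5
  · exact h4

variable {p : Vtx → ℝ}

theorem gg_zero (hF : field blow p = 0) : gg p = 0 := by unfold gg; rw [hF, norm_zero]

theorem g2_zero (hF : field blow p = 0) : g2 p = 0 := by unfold g2; rw [gg_zero hF, mul_zero]

theorem F_O (x : Vtx) : (fun y => field blow y x) =O[𝓝 p] gg :=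
  isBigO_of_le _ fun y => by
    unfold gg
    rw [norm_norm]
    exact norm_le_pi_norm (field blow y) x

theorem gs_O (a : Fin 6) : (fun y => gs y a) =O[𝓝 p] gg := by
  unfold gs
  exact IsBigO.fun_sum fun i _ => F_O _

theorem tt_O : (fun y => tt y 1 0) =O[𝓝 p] gg ∧ (fun y => tt y 2 1) =O[𝓝 p] gg ∧
    (fun y => tt y 3 2) =O[𝓝 p] gg ∧ (fun y => tt y 4 3) =O[𝓝 p] gg ∧
    (fun y => tt y 5 4) =O[𝓝 p] gg := by
  have h0 := gs_O (p := p) 0
  have h1 := gs_O (p := p) 1
  have h2 := gs_O (p := p) 2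
  have h3 := gs_O (p := p) 3
  have h4 := gs_O (p := p) 4
  refine ⟨?_, ?_, ?_, ?_, ?_⟩
  · exact h0.congr_left fun y => ((tt_eq y).1).symm
  · exact (h0.add h1).congr_left fun y => ((tt_eq y).2.1).symm
  · exact ((h0.add h1).add h2).congr_left fun y => ((tt_eq y).2.2.1).symm
  · exact (((h0.add h1).add h2).add h3).congr_left fun y => ((tt_eq y).2.2.2.1).symm
  · exact ((((h0.add h1).add h2).add h3).add h4).congr_left fun y => ((tt_eq y).2.2.2.2).symm

theorem hh_O {a : Fin 6} (hA : ¬ Al p a) : (fun y => hh y a) =O[𝓝 p] gg := by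
  unfold Al at hA
  push Not at hA
  obtain ⟨i, j, hij⟩ := hA
  have hid : ∀ y : Vtx → ℝ, hh y a * (((ph y ⟨a, i⟩ * conj (ph y ⟨a, j⟩)).im : ℝ) : ℂ)
      = ((field blow y ⟨a, j⟩ : ℝ) : ℂ) * ph y ⟨a, i⟩
        - ((field blow y ⟨a, i⟩ : ℝ) : ℂ) * ph y ⟨a, j⟩ := by
    intro y
    rw [field_blow, field_blow]
    apply Complex.ext
    · simp only [Complex.sub_re, Complex.mul_re, Complex.mul_im, Complex.ofReal_re,
        Complex.ofReal_im, Complex.conj_re, Complex.conj_im]
      ring
    · simp only [Complex.sub_im, Complex.mul_re, Complex.mul_im, Complex.ofReal_re,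
        Complex.ofReal_im, Complex.conj_re, Complex.conj_im]
      ring
  have hFc : ∀ x : Vtx, (fun y => ((field blow y x : ℝ) : ℂ)) =O[𝓝 p] gg := fun x =>
    (isBigO_of_le _ fun y => by rw [Complex.norm_real]).trans (F_O x)
  have hnum : (fun y => hh y a * (((ph y ⟨a, i⟩ * conj (ph y ⟨a, j⟩)).im : ℝ) : ℂ))
      =O[𝓝 p] gg := by
    refine IsBigO.congr_left ?_ fun y => (hid y).symm
    exact (O_mul_cont (hFc _) (continuous_ph _).continuousAt).sub
      (O_mul_cont (hFc _) (continuous_ph _).continuousAt)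
  refine O_of_mul hnum ?_ ?_
  · have h1 := continuous_ph (⟨a, i⟩ : Vtx)
    have h2 := continuous_ph (⟨a, j⟩ : Vtx)
    have h3 : Continuous (fun y : Vtx → ℝ => (((ph y ⟨a, i⟩ * conj (ph y ⟨a, j⟩)).im : ℝ) : ℂ)) :=
      Complex.continuous_ofReal.comp (Complex.continuous_im.comp
        (h1.mul (Complex.continuous_conj.comp h2)))
    exact h3.continuousAt
  · exact_mod_cast hij

/-- Squared modulus of `z_a` is constant up to second order when the group sees a field. -/
theorem norm_O {a : Fin 6} (hF : field blow p = 0) (ha : hh p a ≠ 0) :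
    (fun y => ‖zz y a‖ ^ 2 - ‖zz p a‖ ^ 2) =O[𝓝 p] g2 := by
  classical
  set H : (Vtx → ℝ) → ℝ := fun y => ‖hh y a‖ with hH
  have hHc : Continuous H := (continuous_hh a).norm
  have hHp : H p ≠ 0 := norm_ne_zero_iff.2 ha
  set r : Fin (size a) → (Vtx → ℝ) → ℝ := fun i y => (ph y ⟨a, i⟩ * conj (hh y a)).re with hr
  have hrc : ∀ i, Continuous (r i) := fun i =>
    Complex.continuous_re.comp ((continuous_ph _).mul (Complex.continuous_conj.comp (continuous_hh a)))
  have hid : ∀ i y, r i y ^ 2 - H y ^ 2 = -(field blow y ⟨a, i⟩ * field blow y ⟨a, i⟩) := by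
    intro i y
    have h1 : Complex.normSq (ph y ⟨a, i⟩ * conj (hh y a)) = H y ^ 2 := by
      rw [Complex.normSq_mul, Complex.normSq_conj, Complex.normSq_eq_norm_sq,
        Complex.normSq_eq_norm_sq, norm_ph, one_pow, one_mul]
    have h2 : (ph y ⟨a, i⟩ * conj (hh y a)).im = - field blow y ⟨a, i⟩ := by
      rw [field_blow]
      simp only [Complex.mul_im, Complex.conj_re, Complex.conj_im]
      ring
    rw [Complex.normSq_apply, h2] at h1
    rw [← h1]
    simp only [hr]
    ring
  have heps : ∀ i, ∃ e : ℝ, e * e = 1 ∧ r i p = e * H p := by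
    intro i
    have h1 := hid i p
    have h2 : field blow p ⟨a, i⟩ = 0 := by rw [hF]; rfl
    rw [h2, mul_zero, neg_zero] at h1
    have h3 : (r i p - H p) * (r i p + H p) = 0 := by linarith [h1]
    rcases mul_eq_zero.1 h3 with h | h
    · exact ⟨1, by norm_num, by linarith⟩
    · exact ⟨-1, by norm_num, by linarith⟩
  choose e he1 he2 using heps
  have hFF : ∀ i, (fun y => -(field blow y ⟨a, i⟩ * field blow y ⟨a, i⟩)) =O[𝓝 p] g2 :=
    fun i => ((F_O _).mul (F_O _)).neg_left
  have hri : ∀ i, (fun y => r i y - e i * H y) =O[𝓝 p] g2 := by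
    intro i
    refine O_of_mul (c := fun y => r i y + e i * H y) ?_
      ((hrc i).add (continuous_const.mul hHc)).continuousAt ?_
    · refine (hFF i).congr_left fun y => ?_
      rw [← hid i y]
      have := he1 i
      linear_combination (H y ^ 2) * this
    · have h1 : e i ≠ 0 := by
        intro h; have := he1 i; rw [h] at this; norm_num at this
      rw [he2 i, ← two_mul]
      exact mul_ne_zero two_ne_zero (mul_ne_zero h1 hHp)
  set m : ℝ := ∑ i, e i with hm
  have hre : (fun y => (zz y a * conj (hh y a)).re - m * H y) =O[𝓝 p] g2 := by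
    have h1 : (fun y => ∑ i, (r i y - e i * H y)) =O[𝓝 p] g2 := IsBigO.fun_sum fun i _ => hri i
    refine h1.congr_left fun y => ?_
    have hz : (zz y a * conj (hh y a)).re = ∑ i, r i y := by
      rw [zz, Finset.sum_mul, Complex.re_sum]
    rw [hz, Finset.sum_sub_distrib, ← Finset.sum_mul]
  have him : (fun y => (zz y a * conj (hh y a)).im) =O[𝓝 p] gg := by
    refine ((gs_O (p := p) a).neg_left).congr_left fun y => ?_
    rw [gs, sum_field]
    simp only [Complex.mul_im, Complex.conj_re, Complex.conj_im]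
    ring
  have hcz : Continuous (fun y : Vtx → ℝ => (zz y a * conj (hh y a)).re) :=
    Complex.continuous_re.comp ((continuous_zz a).mul (Complex.continuous_conj.comp (continuous_hh a)))
  have hmain : (fun y => ‖zz y a‖ ^ 2 - m ^ 2) =O[𝓝 p] g2 := by
    refine O_of_mul (c := fun y => H y ^ 2) ?_ (hHc.pow 2).continuousAt (pow_ne_zero 2 hHp)
    have h1 : (fun y => ((zz y a * conj (hh y a)).re - m * H y)
        * ((zz y a * conj (hh y a)).re + m * H y)) =O[𝓝 p] g2 :=
      O_mul_cont hre (hcz.add (continuous_const.mul hHc)).continuousAt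
    have h2 : (fun y => (zz y a * conj (hh y a)).im * (zz y a * conj (hh y a)).im) =O[𝓝 p] g2 :=
      him.mul him
    refine (h1.add h2).congr_left fun y => ?_
    have h3 : Complex.normSq (zz y a * conj (hh y a)) = ‖zz y a‖ ^ 2 * H y ^ 2 := by
      rw [Complex.normSq_mul, Complex.normSq_conj, Complex.normSq_eq_norm_sq,
        Complex.normSq_eq_norm_sq]
    rw [Complex.normSq_apply] at h3
    linear_combination h3
  have hp := O_zero_at hmain (g2_zero hF)
  refine hmain.congr_left fun y => ?_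
  linarith

theorem rr_O {a b : Fin 6} (hF : field blow p = 0)
    (hA : (fun y => ‖zz y a‖ ^ 2 - ‖zz p a‖ ^ 2) =O[𝓝 p] g2)
    (hB : (fun y => ‖zz y b‖ ^ 2 - ‖zz p b‖ ^ 2) =O[𝓝 p] g2)
    (hT : (fun y => tt y a b) =O[𝓝 p] gg) (ha : zz p a ≠ 0) (hb : zz p b ≠ 0) :
    (fun y => rr y a b - rr p a b) =O[𝓝 p] g2 := by
  have htp : tt p a b = 0 := O_zero_at (f := fun y => tt y a b) hT (gg_zero hF)
  have hrp : rr p a b ≠ 0 := by
    intro h
    have h1 := rr_sq_add_tt_sq p a b
    rw [h, htp] at h1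
    have h2 : 0 < ‖zz p a‖ := norm_pos_iff.2 ha
    have h3 : 0 < ‖zz p b‖ := norm_pos_iff.2 hb
    have h4 : 0 < ‖zz p a‖ ^ 2 * ‖zz p b‖ ^ 2 := by positivity
    rw [← h1] at h4
    norm_num at h4
  have hrc : Continuous (fun y : Vtx → ℝ => rr y a b) :=
    Complex.continuous_re.comp ((continuous_zz a).mul (Complex.continuous_conj.comp (continuous_zz b)))
  refine O_of_mul (c := fun y => rr y a b + rr p a b) ?_
    (hrc.add continuous_const).continuousAt ?_
  · have h1 : (fun y => (‖zz y a‖ ^ 2 - ‖zz p a‖ ^ 2) * ‖zz y b‖ ^ 2) =O[𝓝 p] g2 :=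
      O_mul_cont hA (((continuous_zz b).norm.pow 2).continuousAt)
    have h2 : (fun y => (‖zz y b‖ ^ 2 - ‖zz p b‖ ^ 2) * ‖zz p a‖ ^ 2) =O[𝓝 p] g2 :=
      O_mul_cont hB continuousAt_const
    have h3 : (fun y => tt y a b * tt y a b) =O[𝓝 p] g2 := hT.mul hT
    refine ((h1.add h2).sub h3).congr_left fun y => ?_
    have e1 := rr_sq_add_tt_sq y a b
    have e2 := rr_sq_add_tt_sq p a b
    rw [htp] at e2
    linear_combination (-1) * e1 + e2
  · intro h
    apply hrp
    linarith

theorem tt_symm (θ : Vtx → ℝ) (a b : Fin 6) : tt θ a b = - tt θ b a := by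
  unfold tt
  simp only [Complex.mul_im, Complex.conj_re, Complex.conj_im]
  ring

end KurUV
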