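import Pool.Agent.R436.Kur.PLp

/-! The gradient-type inequality at every relevant equilibrium of the blown-up path. -/

namespace KurUV

open MeasureTheory Filter Topology Set Metric Complex ComplexConjugate Asymptotics

theorem hh0 (y : Vtx → ℝ) : hh y 0 = zz y 1 := rfl
theorem hh1 (y : Vtx → ℝ) : hh y 1 = zz y 0 + zz y 2 := rfl
theorem hh2 (y : Vtx → ℝ) : hh y 2 = zz y 1 + zz y 3 := rfl
theorem hh3 (y : Vtx → ℝ) : hh y 3 = zz y 2 + zz y 4 := rfl
theorem hh4 (y : Vtx → ℝ) : hh y 4 = zz y 3 + zz y 5 := rfl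
theorem hh5 (y : Vtx → ℝ) : hh y 5 = zz y 4 := rfl

variable {p : Vtx → ℝ}

theorem mul_O2 {f g : (Vtx → ℝ) → ℂ} (hf : f =O[𝓝 p] gg) (hg : g =O[𝓝 p] gg) :
    (fun y => (f y * conj (g y)).re) =O[𝓝 p] g2 := by
  have := hf.mul (O_conj hg)
  exact O_re this

theorem piece0 (h0 : (fun y => hh y 0) =O[𝓝 p] gg) (h1 : (fun y => hh y 1) =O[𝓝 p] gg) :
    (fun y => rr y 0 1 + rr y 1 2) =O[𝓝 p] g2 := by
  refine (mul_O2 h0 h1).congr_left fun y => ?_
  unfold rr
  simp only [hh0, hh1, Complex.mul_re, Complex.conj_re, Complex.conj_im, Complex.add_re,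
    Complex.add_im]
  ring

theorem piece2 (h4 : (fun y => hh y 4) =O[𝓝 p] gg) (h5 : (fun y => hh y 5) =O[𝓝 p] gg) :
    (fun y => rr y 3 4 + rr y 4 5) =O[𝓝 p] g2 := by
  refine (mul_O2 h5 h4).congr_left fun y => ?_
  unfold rr
  simp only [hh4, hh5, Complex.mul_re, Complex.conj_re, Complex.conj_im, Complex.add_re,
    Complex.add_im]
  ring

theorem pieceM (h2 : (fun y => hh y 2) =O[𝓝 p] gg) (h3 : (fun y => hh y 3) =O[𝓝 p] gg) :
    (fun y => rr y 1 2 + rr y 2 3 + rr y 3 4 + rr y 1 4) =O[𝓝 p] g2 := by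
  refine (mul_O2 h2 h3).congr_left fun y => ?_
  unfold rr
  simp only [hh2, hh3, Complex.mul_re, Complex.conj_re, Complex.conj_im, Complex.add_re,
    Complex.add_im]
  ring

theorem pieceZZ (h0 : (fun y => hh y 0) =O[𝓝 p] gg) (h2 : (fun y => hh y 2) =O[𝓝 p] gg)
    (h3 : (fun y => hh y 3) =O[𝓝 p] gg) :
    (fun y => rr y 2 3 + rr y 3 4) =O[𝓝 p] g2 := by
  refine (mul_O2 (h2.sub h0) h3).congr_left fun y => ?_
  unfold rr
  simp only [hh0, hh2, hh3, Complex.mul_re, Complex.conj_re, Complex.conj_im, Complex.add_re,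
    Complex.add_im, Complex.sub_re, Complex.sub_im]
  ring

theorem pieceZZ' (h5 : (fun y => hh y 5) =O[𝓝 p] gg) (h2 : (fun y => hh y 2) =O[𝓝 p] gg)
    (h3 : (fun y => hh y 3) =O[𝓝 p] gg) :
    (fun y => rr y 1 2 + rr y 2 3) =O[𝓝 p] g2 := by
  refine (mul_O2 (h3.sub h5) h2).congr_left fun y => ?_
  unfold rr
  simp only [hh5, hh2, hh3, Complex.mul_re, Complex.conj_re, Complex.conj_im, Complex.add_re,
    Complex.add_im, Complex.sub_re, Complex.sub_im]
  ring

theorem pieceZZZ (h0 : (fun y => hh y 0) =O[𝓝 p] gg) (h5 : (fun y => hh y 5) =O[𝓝 p] gg)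
    (h2 : (fun y => hh y 2) =O[𝓝 p] gg) (h3 : (fun y => hh y 3) =O[𝓝 p] gg) :
    (fun y => rr y 2 3) =O[𝓝 p] g2 := by
  refine (mul_O2 (h3.sub h5) (h2.sub h0)).congr_left fun y => ?_
  unfold rr
  simp only [hh0, hh5, hh2, hh3, Complex.mul_re, Complex.conj_re, Complex.conj_im, Complex.add_re,
    Complex.add_im, Complex.sub_re, Complex.sub_im]
  ring

theorem tt14 (h3 : (fun y => hh y 3) =O[𝓝 p] gg) : (fun y => tt y 1 4) =O[𝓝 p] gg := by
  have h1 : (fun y => (hh y 3 * conj (zz y 1)).im) =O[𝓝 p] gg :=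
    O_im (O_mul_cont h3 (Complex.continuous_conj.comp (continuous_zz 1)).continuousAt)
  have h2 := (tt_O (p := p)).2.1
  refine ((h1.neg_left).add h2).congr_left fun y => ?_
  unfold tt
  simp only [hh3, Complex.mul_im, Complex.conj_re, Complex.conj_im, Complex.add_re,
    Complex.add_im]
  ring

theorem O_const_sub {f : (Vtx → ℝ) → ℝ} (hF : field blow p = 0) (hf : f =O[𝓝 p] g2) :
    (fun y => f y - f p) =O[𝓝 p] g2 := by
  have h0 : f p = 0 := O_zero_at hf (g2_zero hF)
  refine hf.congr_left fun y => ?_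
  rw [h0, sub_zero]

theorem PL_of_crit (hF : field blow p = 0) (hR : Rel p) : PL blow p := by
  classical
  have hsz : ∀ a, 3 ≤ size a := by decide
  have hz : ∀ a, hh p a ≠ 0 → zz p a ≠ 0 := by
    intro a ha h
    have h1 := norm_zz_of_al hR (hsz a) (al_of_ne hF ha)
    have h2 : (3:ℝ) ≤ size a := by exact_mod_cast hsz a
    rw [h, norm_zero] at h1
    rcases h1 with h1 | h1 <;> linarith
  have hR' : ∀ a b, hh p a ≠ 0 → hh p b ≠ 0 → (fun y => tt y a b) =O[𝓝 p] gg →
      (fun y => rr y a b - rr p a b) =O[𝓝 p] g2 := fun a b ha hb hT =>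
    rr_O hF (norm_O hF ha) (norm_O hF hb) hT (hz a ha) (hz b hb)
  obtain ⟨t1, t2, t3, t4, t5⟩ := tt_O (p := p)
  have t01 : (fun y => tt y 0 1) =O[𝓝 p] gg := t1.neg_left.congr_left fun y => (tt_symm y 0 1).symm
  have t12 : (fun y => tt y 1 2) =O[𝓝 p] gg := t2.neg_left.congr_left fun y => (tt_symm y 1 2).symm
  have t23 : (fun y => tt y 2 3) =O[𝓝 p] gg := t3.neg_left.congr_left fun y => (tt_symm y 2 3).symm
  have t34 : (fun y => tt y 3 4) =O[𝓝 p] gg := t4.neg_left.congr_left fun y => (tt_symm y 3 4).symm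
  have t45 : (fun y => tt y 4 5) =O[𝓝 p] gg := t5.neg_left.congr_left fun y => (tt_symm y 4 5).symm
  obtain ⟨P0, P1, P2⟩ := classify hF hR
  have main : (fun y => (rr y 0 1 + rr y 1 2 + rr y 2 3 + rr y 3 4 + rr y 4 5)
      - (rr p 0 1 + rr p 1 2 + rr p 2 3 + rr p 3 4 + rr p 4 5)) =O[𝓝 p] g2 := by
    rcases P0 with ⟨a0, a1, b0, b1⟩ | ⟨n0, n1⟩
    · have o0 := hh_O b0
      have o1 := hh_O b1
      have q0 := O_const_sub hF (piece0 o0 o1)
      rcases P1 with ⟨a2, a3, b2, b3⟩ | ⟨n2, n3⟩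
      · have o2 := hh_O b2
        have o3 := hh_O b3
        rcases P2 with ⟨a4, a5, b4, b5⟩ | ⟨n4, n5⟩
        · have o4 := hh_O b4
          have o5 := hh_O b5
          have q1 := O_const_sub hF (pieceZZZ o0 o5 o2 o3)
          have q2 := O_const_sub hF (piece2 o4 o5)
          refine ((q0.add q1).add q2).congr_left fun y => ?_
          ring
        · have q1 := O_const_sub hF (pieceZZ o0 o2 o3)
          have q2 := hR' 4 5 n4 n5 t45
          refine ((q0.add q1).add q2).congr_left fun y => ?_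
          ring
      · have q23 := hR' 2 3 n2 n3 t23
        rcases P2 with ⟨a4, a5, b4, b5⟩ | ⟨n4, n5⟩
        · have q2 := O_const_sub hF (piece2 (hh_O b4) (hh_O b5))
          refine ((q0.add q23).add q2).congr_left fun y => ?_
          ring
        · have q34 := hR' 3 4 n3 n4 t34
          have q45 := hR' 4 5 n4 n5 t45
          refine (((q0.add q23).add q34).add q45).congr_left fun y => ?_
          ring
    · have q01 := hR' 0 1 n0 n1 t01
      rcases P1 with ⟨a2, a3, b2, b3⟩ | ⟨n2, n3⟩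
      · have o2 := hh_O b2
        have o3 := hh_O b3
        rcases P2 with ⟨a4, a5, b4, b5⟩ | ⟨n4, n5⟩
        · have o4 := hh_O b4
          have o5 := hh_O b5
          have q1 := O_const_sub hF (pieceZZ' o5 o2 o3)
          have q2 := O_const_sub hF (piece2 o4 o5)
          refine ((q01.add q1).add q2).congr_left fun y => ?_
          ring
        · have q1 := O_const_sub hF (pieceM o2 o3)
          have q14 := hR' 1 4 n1 n4 (tt14 o3)
          have q45 := hR' 4 5 n4 n5 t45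
          refine (((q01.add q1).sub q14).add q45).congr_left fun y => ?_
          ring
      · have q12 := hR' 1 2 n1 n2 t12
        have q23 := hR' 2 3 n2 n3 t23
        rcases P2 with ⟨a4, a5, b4, b5⟩ | ⟨n4, n5⟩
        · have q2 := O_const_sub hF (piece2 (hh_O b4) (hh_O b5))
          refine (((q01.add q12).add q23).add q2).congr_left fun y => ?_
          ring
        · have q34 := hR' 3 4 n3 n4 t34
          have q45 := hR' 4 5 n4 n5 t45
          refine ((((q01.add q12).add q23).add q34).add q45).congr_left fun y => ?_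
          ring
  obtain ⟨C, hC⟩ := main.bound
  refine ⟨2 * |C|, ?_⟩
  filter_upwards [hC] with y hy
  rw [En_blow, En_blow]
  have h1 : ‖g2 y‖ ≤ sq (field blow y) := by
    have h2 := norm_sq_le_sq (field blow y)
    have h3 : g2 y = ‖field blow y‖ ^ 2 := by unfold g2 gg; ring
    rw [h3, Real.norm_eq_abs, abs_of_nonneg (by positivity)]
    exact h2
  rw [Real.norm_eq_abs] at hy
  have h4 := (abs_le.1 hy).1
  have h5 : C * ‖g2 y‖ ≤ |C| * sq (field blow y) :=
    mul_le_mul (le_abs_self C) h1 (norm_nonneg _) (abs_nonneg _)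
  linarith

end KurUV
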