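import Pool.Agent.R436.Kur.Crit

/-! Relevant equilibria are synchronized states or strict saddles. -/

namespace KurUV

open MeasureTheory Filter Topology Set Metric Complex ComplexConjugate

theorem solve_one {e f : ℂ} (h : (e * conj f).im ≠ 0) : ∃ s t : ℝ, (s : ℂ) * e + (t : ℂ) * f = 1 := by
  set D : ℝ := e.im * f.re - e.re * f.im with hD
  have h' : D ≠ 0 := by
    rw [Complex.mul_im, Complex.conj_re, Complex.conj_im] at h
    intro hc; apply h; linarith
  refine ⟨-f.im / D, e.im / D, ?_⟩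
  apply Complex.ext
  · rw [Complex.add_re, Complex.re_ofReal_mul, Complex.re_ofReal_mul, Complex.one_re]
    field_simp
    rw [hD]; ring
  · rw [Complex.add_im, Complex.im_ofReal_mul, Complex.im_ofReal_mul, Complex.one_im]
    field_simp
    ring

theorem dd_add (p v w : Vtx → ℝ) (g : Fin 6) : dd p (v + w) g = dd p v g + dd p w g := by
  unfold dd
  rw [← Finset.sum_add_distrib]
  refine Finset.sum_congr rfl fun i _ => ?_
  simp only [Pi.add_apply]; push_cast; ring

theorem dd_single_same (p : Vtx → ℝ) (a : Fin 6) (i : Fin (size a)) (c : ℝ) :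
    dd p (Pi.single (⟨a, i⟩ : Vtx) c) a = (c : ℂ) * ph p ⟨a, i⟩ := by
  classical
  unfold dd
  rw [Finset.sum_eq_single i]
  · simp
  · intro j _ hj
    rw [Pi.single_eq_of_ne]
    · simp
    · intro h
      apply hj
      simpa using h
  · simp

theorem dd_single_ne (p : Vtx → ℝ) {a g : Fin 6} (i : Fin (size a)) (c : ℝ) (h : g ≠ a) :
    dd p (Pi.single (⟨a, i⟩ : Vtx) c) g = 0 := by
  classical
  unfold dd
  refine Finset.sum_eq_zero fun j _ => ?_
  rw [Pi.single_eq_of_ne]
  · simp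
  · intro h'
    exact h (congrArg Sigma.fst h')

theorem saddle_of_pair {p : Vtx → ℝ} {a b : Fin 6}
    (hab : (a = 0 ∧ b = 1) ∨ (a = 2 ∧ b = 3) ∨ (a = 4 ∧ b = 5))
    (ha : hh p a = 0) (hb : hh p b = 0) (hAa : ¬ Al p a) (hAb : ¬ Al p b) : Saddle blow p := by
  classical
  have hne : a ≠ b := by
    rcases hab with ⟨rfl, rfl⟩ | ⟨rfl, rfl⟩ | ⟨rfl, rfl⟩ <;> decide
  unfold Al at hAa hAb
  push Not at hAa hAb
  obtain ⟨i, j, hij⟩ := hAa
  obtain ⟨k, l, hkl⟩ := hAb
  obtain ⟨s, t, hst⟩ := solve_one hij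
  obtain ⟨s', t', hst'⟩ := solve_one hkl
  set v : Vtx → ℝ := (Pi.single (⟨a, i⟩ : Vtx) s + Pi.single (⟨a, j⟩ : Vtx) t)
    + (Pi.single (⟨b, k⟩ : Vtx) s' + Pi.single (⟨b, l⟩ : Vtx) t') with hv
  have hda : dd p v a = 1 := by
    rw [hv, dd_add, dd_add, dd_add, dd_single_same, dd_single_same, dd_single_ne p k s' hne,
      dd_single_ne p l t' hne, hst]; ring
  have hdb : dd p v b = 1 := by
    rw [hv, dd_add, dd_add, dd_add, dd_single_same, dd_single_same, dd_single_ne p i s hne.symm,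
      dd_single_ne p j t hne.symm, hst']; ring
  have hd0 : ∀ g, g ≠ a → g ≠ b → dd p v g = 0 := by
    intro g hga hgb
    rw [hv, dd_add, dd_add, dd_add, dd_single_ne p i s hga, dd_single_ne p j t hga,
      dd_single_ne p k s' hgb, dd_single_ne p l t' hgb]; ring
  have hv0 : ∀ x : Vtx, x.1 ≠ a → x.1 ≠ b → v x = 0 := by
    intro x hxa hxb
    have h1 : ∀ (g : Fin 6) (m : Fin (size g)) (c : ℝ), x.1 ≠ g →
        (Pi.single (⟨g, m⟩ : Vtx) c : Vtx → ℝ) x = 0 := by
      intro g m c hg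
      rw [Pi.single_eq_of_ne]
      intro h'
      exact hg (congrArg Sigma.fst h')
    rw [hv]
    simp only [Pi.add_apply]
    rw [h1 a i s hxa, h1 a j t hxa, h1 b k s' hxb, h1 b l t' hxb]; ring
  refine ⟨v, ?_⟩
  rw [quad_blow]
  have hsec : ∑ x, v x ^ 2 * (hh p x.1 * conj (ph p x)).re = 0 := by
    refine Finset.sum_eq_zero fun x _ => ?_
    by_cases hxa : x.1 = a
    · rw [hxa, ha]; simp
    · by_cases hxb : x.1 = b
      · rw [hxb, hb]; simp
      · rw [hv0 x hxa hxb]; simp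
  rw [hsec, sub_zero]
  rcases hab with ⟨rfl, rfl⟩ | ⟨rfl, rfl⟩ | ⟨rfl, rfl⟩
  · have e2 := hd0 2 (by decide) (by decide)
    have e3 := hd0 3 (by decide) (by decide)
    have e4 := hd0 4 (by decide) (by decide)
    have e5 := hd0 5 (by decide) (by decide)
    simp only [Fin.sum_univ_six, hda, hdb, e2, e3, e4, e5]
    simp [gadj]
  · have e2 := hd0 0 (by decide) (by decide)
    have e3 := hd0 1 (by decide) (by decide)
    have e4 := hd0 4 (by decide) (by decide)
    have e5 := hd0 5 (by decide) (by decide)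
    simp only [Fin.sum_univ_six, hda, hdb, e2, e3, e4, e5]
    simp [gadj]
  · have e2 := hd0 0 (by decide) (by decide)
    have e3 := hd0 1 (by decide) (by decide)
    have e4 := hd0 2 (by decide) (by decide)
    have e5 := hd0 3 (by decide) (by decide)
    simp only [Fin.sum_univ_six, hda, hdb, e2, e3, e4, e5]
    simp [gadj]

/-- Quadratic form on group-constant vectors. -/
theorem quad_const (p : Vtx → ℝ) (c : Fin 6 → ℝ) :
    ip (fun x : Vtx => c x.1) (lin blow p (fun x : Vtx => c x.1))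
      = ∑ a, ∑ b, gadj a b * (c a * c b * rr p a b)
        - ∑ a, c a ^ 2 * (hh p a * conj (zz p a)).re := by
  rw [quad_blow]
  have hd : ∀ g, dd p (fun x : Vtx => c x.1) g = (c g : ℂ) * zz p g := by
    intro g
    unfold dd zz
    rw [Finset.mul_sum]
  congr 1
  · refine Finset.sum_congr rfl fun a _ => Finset.sum_congr rfl fun b _ => ?_
    rw [hd, hd, map_mul, Complex.conj_ofReal]
    have : (c a : ℂ) * zz p a * ((c b : ℂ) * conj (zz p b))
        = ((c a * c b : ℝ) : ℂ) * (zz p a * conj (zz p b)) := by push_cast; ring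
    rw [this, Complex.re_ofReal_mul]; rfl
  · rw [Fintype.sum_sigma]
    refine Finset.sum_congr rfl fun a _ => ?_
    rw [zz, map_sum, Finset.mul_sum, Complex.re_sum, Finset.mul_sum]

theorem saddle_of_neg {p : Vtx → ℝ} (c : Fin 6 → ℝ)
    (h : 0 < ∑ a, ∑ b, gadj a b * (c a * c b * rr p a b)
        - ∑ a, c a ^ 2 * (hh p a * conj (zz p a)).re) : Saddle blow p :=
  ⟨_, by rw [quad_const]; exact h⟩

theorem rr_symm (θ : Vtx → ℝ) (a b : Fin 6) : rr θ a b = rr θ b a := by
  unfold rr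
  rw [Complex.mul_re, Complex.mul_re, Complex.conj_re, Complex.conj_im, Complex.conj_re,
    Complex.conj_im]; ring

theorem hz_re (p : Vtx → ℝ) :
    (hh p 0 * conj (zz p 0)).re = rr p 0 1 ∧
    (hh p 1 * conj (zz p 1)).re = rr p 0 1 + rr p 1 2 ∧
    (hh p 2 * conj (zz p 2)).re = rr p 1 2 + rr p 2 3 ∧
    (hh p 3 * conj (zz p 3)).re = rr p 2 3 + rr p 3 4 ∧
    (hh p 4 * conj (zz p 4)).re = rr p 3 4 + rr p 4 5 ∧
    (hh p 5 * conj (zz p 5)).re = rr p 4 5 := by
  unfold rr
  simp only [hh, Matrix.cons_val_zero, Matrix.cons_val_one, Matrix.cons_val, Complex.mul_re,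
    Complex.add_re, Complex.add_im, Complex.conj_re, Complex.conj_im]
  refine ⟨?_, ?_, ?_, ?_, ?_, ?_⟩
  · ring
  · ring
  · ring
  · ring
  · ring
  · trivial

theorem saddle_of_rr_neg {p : Vtx → ℝ}
    (h : rr p 0 1 < 0 ∨ rr p 1 2 < 0 ∨ rr p 2 3 < 0 ∨ rr p 3 4 < 0 ∨ rr p 4 5 < 0) :
    Saddle blow p := by
  obtain ⟨h0, h1, h2, h3, h4, h5⟩ := hz_re p
  have s10 := rr_symm p 1 0
  have s21 := rr_symm p 2 1
  have s32 := rr_symm p 3 2
  have s43 := rr_symm p 4 3
  have s54 := rr_symm p 5 4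
  rcases h with h | h | h | h | h
  · refine saddle_of_neg ![1, 0, 0, 0, 0, 0] ?_
    simp only [Fin.sum_univ_six, h0, h1, h2, h3, h4, h5]
    simp [gadj]
    linarith
  · refine saddle_of_neg ![1, 1, 0, 0, 0, 0] ?_
    simp only [Fin.sum_univ_six, h0, h1, h2, h3, h4, h5]
    simp [gadj]
    linarith
  · refine saddle_of_neg ![1, 1, 1, 0, 0, 0] ?_
    simp only [Fin.sum_univ_six, h0, h1, h2, h3, h4, h5]
    simp [gadj]
    linarith
  · refine saddle_of_neg ![1, 1, 1, 1, 0, 0] ?_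
    simp only [Fin.sum_univ_six, h0, h1, h2, h3, h4, h5]
    simp [gadj]
    linarith
  · refine saddle_of_neg ![1, 1, 1, 1, 1, 0] ?_
    simp only [Fin.sum_univ_six, h0, h1, h2, h3, h4, h5]
    simp [gadj]
    linarith

theorem saddle_of_member {p : Vtx → ℝ} (x : Vtx) (h : (hh p x.1 * conj (ph p x)).re < 0) :
    Saddle blow p := by
  classical
  obtain ⟨a, i⟩ := x
  refine ⟨Pi.single (⟨a, i⟩ : Vtx) 1, ?_⟩
  rw [quad_blow]
  have h1 : ∑ g, ∑ g', gadj g g' * (dd p (Pi.single (⟨a, i⟩ : Vtx) 1) g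
      * conj (dd p (Pi.single (⟨a, i⟩ : Vtx) 1) g')).re = 0 := by
    refine Finset.sum_eq_zero fun g _ => Finset.sum_eq_zero fun g' _ => ?_
    by_cases hg : g = a
    · by_cases hg' : g' = a
      · rw [hg, hg']
        have : gadj a a = 0 := by
          unfold gadj; rw [if_neg]; omega
        rw [this, zero_mul]
      · rw [dd_single_ne p i 1 hg']; simp
    · rw [dd_single_ne p i 1 hg]; simp
  have h2 : ∑ x, (Pi.single (⟨a, i⟩ : Vtx) 1 : Vtx → ℝ) x ^ 2 * (hh p x.1 * conj (ph p x)).re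
      = (hh p a * conj (ph p ⟨a, i⟩)).re := by
    rw [Finset.sum_eq_single (⟨a, i⟩ : Vtx)]
    · simp
    · intro y _ hy
      rw [Pi.single_eq_of_ne hy]; simp
    · simp
  rw [h1, h2]
  simp only at h
  linarith

theorem tt_zero {p : Vtx → ℝ} (hF : field blow p = 0) :
    tt p 1 0 = 0 ∧ tt p 2 1 = 0 ∧ tt p 3 2 = 0 ∧ tt p 4 3 = 0 ∧ tt p 5 4 = 0 := by
  have hg : ∀ a, gs p a = 0 := by
    intro a; unfold gs; rw [hF]; simp
  obtain ⟨h1, h2, h3, h4, h5⟩ := tt_eq p
  simp only [hg] at h1 h2 h3 h4 h5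
  norm_num at h1 h2 h3 h4 h5
  exact ⟨h1, h2, h3, h4, h5⟩

theorem rr_sq_add_tt_sq (θ : Vtx → ℝ) (a b : Fin 6) :
    rr θ a b ^ 2 + tt θ a b ^ 2 = ‖zz θ a‖ ^ 2 * ‖zz θ b‖ ^ 2 := by
  unfold rr tt
  rw [← Complex.normSq_eq_norm_sq, ← Complex.normSq_eq_norm_sq, ← Complex.normSq_conj (zz θ b),
    ← Complex.normSq_mul, Complex.normSq_apply]
  ring

/-- A nonzero complex number with vanishing imaginary part and positive real part. -/
theorem eq_one_of_unit {w : ℂ} (hn : ‖w‖ = 1) (hi : w.im = 0) (hr : 0 < w.re) : w = 1 := by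
  have h1 : w = (w.re : ℂ) := by
    apply Complex.ext
    · simp
    · simp [hi]
  rw [h1, Complex.norm_real, Real.norm_eq_abs, abs_of_pos hr] at hn
  rw [h1, hn]; simp

theorem crit_dichotomy {p : Vtx → ℝ} (hF : field blow p = 0) (hR : Rel p) :
    (∀ x y, Real.cos (p x - p y) = 1) ∨ Saddle blow p := by
  classical
  by_contra hcon
  push Not at hcon
  obtain ⟨hns, hsad⟩ := hcon
  obtain ⟨P0, P1, P2⟩ := classify hF hR
  have hh0 : hh p 0 ≠ 0 ∧ hh p 1 ≠ 0 := by
    rcases P0 with ⟨a, b, c, d⟩ | h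
    · exact absurd (saddle_of_pair (Or.inl ⟨rfl, rfl⟩) a b c d) hsad
    · exact h
  have hh1 : hh p 2 ≠ 0 ∧ hh p 3 ≠ 0 := by
    rcases P1 with ⟨a, b, c, d⟩ | h
    · exact absurd (saddle_of_pair (Or.inr (Or.inl ⟨rfl, rfl⟩)) a b c d) hsad
    · exact h
  have hh2 : hh p 4 ≠ 0 ∧ hh p 5 ≠ 0 := by
    rcases P2 with ⟨a, b, c, d⟩ | h
    · exact absurd (saddle_of_pair (Or.inr (Or.inr ⟨rfl, rfl⟩)) a b c d) hsad
    · exact h
  have hne : ∀ a, hh p a ≠ 0 := by
    intro a
    fin_cases a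
    · exact hh0.1
    · exact hh0.2
    · exact hh1.1
    · exact hh1.2
    · exact hh2.1
    · exact hh2.2
  have hsz : ∀ a, 3 ≤ size a := by decide
  -- within a group all phases agree
  have hpos : ∀ x, 0 < (hh p x.1 * conj (ph p x)).re := by
    intro x
    by_contra hc
    have h1 : (hh p x.1 * conj (ph p x)).re ≤ 0 := not_lt.1 hc
    rcases lt_or_eq_of_le h1 with h2 | h2
    · exact hsad (saddle_of_member x h2)
    · have h3 : hh p x.1 * conj (ph p x) = 0 := Complex.ext h2 (im_zero hF x)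
      have h4 := mul_eq_zero.1 h3
      rcases h4 with h4 | h4
      · exact hne _ h4
      · have := norm_ph p x
        rw [← Complex.norm_conj, h4, norm_zero] at this
        exact zero_ne_one this
  have hph : ∀ x, ph p x = hh p x.1 / (‖hh p x.1‖ : ℂ) := by
    intro x
    have hn : (‖hh p x.1‖ : ℂ) ≠ 0 := by
      exact_mod_cast norm_ne_zero_iff.2 (hne x.1)
    have h1 : hh p x.1 * conj (ph p x) / (‖hh p x.1‖ : ℂ) = 1 := by
      apply eq_one_of_unit
      · rw [norm_div, norm_mul, Complex.norm_conj, norm_ph, mul_one, Complex.norm_real,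
          norm_norm, div_self (norm_ne_zero_iff.2 (hne x.1))]
      · rw [Complex.div_ofReal_im, im_zero hF x, zero_div]
      · rw [Complex.div_ofReal_re]
        exact div_pos (hpos x) (norm_pos_iff.2 (hne x.1))
    have h2 : hh p x.1 * conj (ph p x) = (‖hh p x.1‖ : ℂ) := by
      rw [div_eq_one_iff_eq hn] at h1; exact h1
    rw [eq_div_iff hn, ← h2]
    calc ph p x * (hh p x.1 * conj (ph p x)) = hh p x.1 * (ph p x * conj (ph p x)) := by ring
      _ = hh p x.1 := by rw [ph_mul_conj_self, mul_one]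
  set U : Fin 6 → ℂ := fun a => hh p a / (‖hh p a‖ : ℂ) with hU
  have hzU : ∀ a, zz p a = (size a : ℂ) * U a := by
    intro a
    unfold zz
    rw [Finset.sum_congr rfl fun i _ => hph ⟨a, i⟩]
    simp [hU]
  have hUn : ∀ a, ‖U a‖ = 1 := by
    intro a
    simp only [hU]
    rw [norm_div, Complex.norm_real, norm_norm, div_self (norm_ne_zero_iff.2 (hne a))]
  obtain ⟨t1, t2, t3, t4, t5⟩ := tt_zero hF
  have hnr : ¬ (rr p 0 1 < 0 ∨ rr p 1 2 < 0 ∨ rr p 2 3 < 0 ∨ rr p 3 4 < 0 ∨ rr p 4 5 < 0) :=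
    fun h => hsad (saddle_of_rr_neg (p := p) h)
  push Not at hnr
  obtain ⟨r1, r2, r3, r4, r5⟩ := hnr
  have hadj : ∀ a b : Fin 6, tt p b a = 0 → 0 ≤ rr p a b → U a = U b := by
    intro a b ht hr
    have hsa : (0:ℝ) < size a := by have := hsz a; exact_mod_cast (by omega : 0 < size a)
    have hsb : (0:ℝ) < size b := by have := hsz b; exact_mod_cast (by omega : 0 < size b)
    have e1 : zz p b * conj (zz p a) = ((size b * size a : ℝ) : ℂ) * (U b * conj (U a)) := by
      rw [hzU, hzU, map_mul, Complex.conj_natCast]; push_cast; ring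
    have e2 : (U b * conj (U a)).im = 0 := by
      unfold tt at ht
      rw [e1, Complex.im_ofReal_mul] at ht
      exact (mul_eq_zero.1 ht).resolve_left (by positivity)
    have e3 : 0 ≤ (U b * conj (U a)).re := by
      rw [rr_symm] at hr
      unfold rr at hr
      rw [e1, Complex.re_ofReal_mul] at hr
      exact nonneg_of_mul_nonneg_right hr (by positivity)
    have e4 : ‖U b * conj (U a)‖ = 1 := by
      rw [norm_mul, Complex.norm_conj, hUn, hUn, mul_one]
    have e5 : 0 < (U b * conj (U a)).re := by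
      refine lt_of_le_of_ne e3 fun h => ?_
      have : U b * conj (U a) = 0 := Complex.ext h.symm e2
      rw [this, norm_zero] at e4
      exact zero_ne_one e4
    have e6 := eq_one_of_unit e4 e2 e5
    have e7 : U a * conj (U a) = 1 := by
      rw [Complex.mul_conj, Complex.normSq_eq_norm_sq, hUn]; simp
    calc U a = (U b * conj (U a)) * U a := by rw [e6, one_mul]
      _ = U b * (U a * conj (U a)) := by ring
      _ = U b := by rw [e7, mul_one]
  have u1 := hadj 0 1 t1 r1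
  have u2 := hadj 1 2 t2 r2
  have u3 := hadj 2 3 t3 r3
  have u4 := hadj 3 4 t4 r4
  have u5 := hadj 4 5 t5 r5
  have hall : ∀ a, U a = U 0 := by
    intro a
    fin_cases a
    · rfl
    · exact u1.symm
    · exact (u1.trans u2).symm
    · exact (u1.trans (u2.trans u3)).symm
    · exact (u1.trans (u2.trans (u3.trans u4))).symm
    · exact (u1.trans (u2.trans (u3.trans (u4.trans u5)))).symm
  obtain ⟨x, y, hxy⟩ := hns
  apply hxy
  rw [← ph_mul_re, hph x, hph y]
  change (U x.1 * conj (U y.1)).re = 1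
  rw [hall x.1, hall y.1, Complex.mul_conj, Complex.normSq_eq_norm_sq, hUn]
  simp

end KurUV
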