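import Pool.Agent.R436.Kur.Energy

/-! Gradient-type inequality at a critical point traps every solution accumulating there. -/

namespace KurUV

open MeasureTheory Filter Topology Set Metric

variable {V : Type} [Fintype V]

/-- Integer multiples of `2π` in every coordinate. -/
noncomputable def sh (n : V → ℤ) : V → ℝ := fun i => (n i : ℝ) * (2 * Real.pi)

theorem field_sh (G : SimpleGraph V) (θ : V → ℝ) (n : V → ℤ) :
    field G (θ + sh n) = field G θ := by
  funext i
  rw [field_eq, field_eq]
  refine Finset.sum_congr rfl fun j _ => ?_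
  have : (θ + sh n) j - (θ + sh n) i = (θ j - θ i) + ((n j - n i : ℤ) : ℝ) * (2 * Real.pi) := by
    simp [sh]; ring
  rw [this, Real.sin_add_int_mul_two_pi]

theorem En_sh (G : SimpleGraph V) (θ : V → ℝ) (n : V → ℤ) :
    En G (θ + sh n) = En G θ := by
  unfold En
  congr 1
  refine Finset.sum_congr rfl fun i _ => Finset.sum_congr rfl fun j _ => ?_
  have : (θ + sh n) i - (θ + sh n) j = (θ i - θ j) + ((n i - n j : ℤ) : ℝ) * (2 * Real.pi) := by
    simp [sh]; ring
  rw [this, Real.cos_add_int_mul_two_pi]

/-- `p` is a limit point modulo `2π` of the trajectory. -/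
def OmegaMod (γ : ℝ → V → ℝ) (p : V → ℝ) : Prop :=
  ∀ ε > 0, ∀ T : ℝ, ∃ t ≥ T, ∃ n : V → ℤ, dist (γ t) (p + sh n) < ε

/-- Gradient-type inequality near `p`. -/
def PL (G : SimpleGraph V) (p : V → ℝ) : Prop :=
  ∃ C : ℝ, ∀ᶠ y in 𝓝 p, En G y - En G p ≤ C * sq (field G y)

theorem eq_of_field_zero (G : SimpleGraph V) {γ : ℝ → V → ℝ}
    (h : ∀ t, HasDerivAt γ (field G (γ t)) t) {t1 : ℝ} (h1 : field G (γ t1) = 0) (t : ℝ) :
    γ t = γ t1 := by
  have := ODE_solution_unique_univ (v := fun _ => field G) (s := fun _ => univ)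
    (f := γ) (g := fun _ => γ t1) (t₀ := t1) (K := (2 * Fintype.card V : NNReal))
    (fun _ => (field_lip G).lipschitzOnWith) (fun t => ⟨h t, trivial⟩)
    (fun t => ⟨by simpa [h1] using hasDerivAt_const t (γ t1), trivial⟩) rfl
  exact congrFun this t

theorem trap (G : SimpleGraph V) {γ : ℝ → V → ℝ}
    (h : ∀ t, HasDerivAt γ (field G (γ t)) t) {p : V → ℝ} (hω : OmegaMod γ p) (hPL : PL G p)
    {r : ℝ} (hr : 0 < r) : ∃ n : V → ℤ, ∃ T : ℝ, ∀ t ≥ T, dist (γ t) (p + sh n) ≤ r := by
  obtain ⟨C0, hC0⟩ := hPL
  set C : ℝ := max C0 1 with hCdef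
  have hCpos : 0 < C := lt_of_lt_of_le one_pos (le_max_right _ _)
  obtain ⟨r0, hr0, hball⟩ := Metric.eventually_nhds_iff.1 hC0
  set ρ : ℝ := min r r0 with hρ
  have hρ0 : 0 < ρ := lt_min hr hr0
  have hcont := (continuous_En G).continuousAt (x := p)
  obtain ⟨ε1, hε1, hE1⟩ := Metric.continuousAt_iff.1 hcont ((ρ / 2) ^ 2 / C) (by positivity)
  set ε : ℝ := min ε1 (ρ / 2) with hε
  have hε0 : 0 < ε := lt_min hε1 (by positivity)
  have hshift : ∀ (y : V → ℝ) (n : V → ℤ), dist y (p + sh n) = dist (y - sh n) p := by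
    intro y n
    rw [dist_eq_norm, dist_eq_norm]; congr 1; abel
  have hEy : ∀ (y : V → ℝ) (n : V → ℤ), En G (y - sh n) = En G y := by
    intro y n
    have := En_sh G (y - sh n) n
    rw [sub_add_cancel] at this
    exact this.symm
  have hFy : ∀ (y : V → ℝ) (n : V → ℤ), field G (y - sh n) = field G y := by
    intro y n
    have := field_sh G (y - sh n) n
    rw [sub_add_cancel] at this
    exact this.symm
  have hanti := En_antitone G h
  -- the energy stays above that of `p`
  have hge : ∀ t, En G p ≤ En G (γ t) := by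
    intro t
    refine le_of_forall_pos_le_add fun δ hδ => ?_
    obtain ⟨ε2, hε2, hE2⟩ := Metric.continuousAt_iff.1 hcont δ hδ
    obtain ⟨s, hs, n, hn⟩ := hω ε2 hε2 t
    rw [hshift] at hn
    have h2 := hE2 hn
    rw [hEy, Real.dist_eq] at h2
    have h3 : En G (γ s) ≤ En G (γ t) := hanti hs
    have := (abs_lt.1 h2).1
    linarith
  obtain ⟨t0, -, n, hn⟩ := hω ε hε0 0
  refine ⟨n, t0, ?_⟩
  set p' : V → ℝ := p + sh n with hp'
  set e : ℝ → ℝ := fun t => En G (γ t) - En G p with he
  have he0 : ∀ t, 0 ≤ e t := fun t => sub_nonneg.2 (hge t)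
  have hed : ∀ t, HasDerivAt e (-2 * sq (field G (γ t))) t := fun t =>
    (hasDerivAt_En_sol G (h t)).sub_const _
  have heanti : Antitone e := fun a b hab => sub_le_sub_right (hanti hab) _
  have het0 : e t0 < (ρ / 2) ^ 2 / C := by
    have h1 : dist (γ t0 - sh n) p < ε1 := by
      rw [← hshift]; exact hn.trans_le (min_le_left _ _)
    have h2 := hE1 h1
    rw [hEy, Real.dist_eq] at h2
    exact (abs_lt.1 h2).2
  have hPLn : ∀ t, dist (γ t) p' < ρ → e t ≤ C * sq (field G (γ t)) := by
    intro t ht
    have h1 : dist (γ t - sh n) p < r0 := by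
      rw [← hshift]; exact ht.trans_le (min_le_right _ _)
    have h2 := hball h1
    rw [hEy, hFy] at h2
    refine h2.trans ?_
    exact mul_le_mul_of_nonneg_right (le_max_left _ _) (sq_nonneg' _)
  have hstart : dist (γ t0) p' < ρ / 2 := hn.trans_le (min_le_right _ _)
  by_cases hzero : ∃ t1 ≥ t0, e t1 = 0
  · obtain ⟨t1, ht1, hz⟩ := hzero
    have hconst : ∀ t ≥ t1, e t = 0 := fun t ht => le_antisymm (hz ▸ heanti ht) (he0 t)
    have hd0 : HasDerivAt e 0 (t1 + 1) := by
      have : e =ᶠ[𝓝 (t1 + 1)] fun _ => 0 := by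
        filter_upwards [Ioi_mem_nhds (by linarith : t1 < t1 + 1)] with s hs
        exact hconst s (le_of_lt hs)
      exact (hasDerivAt_const _ _).congr_of_eventuallyEq this
    have h5 := (hed (t1 + 1)).unique hd0
    have h6 : sq (field G (γ (t1 + 1))) = 0 := by linarith
    have h7 : field G (γ (t1 + 1)) = 0 := by
      have h8 := norm_sq_le_sq (field G (γ (t1 + 1)))
      rw [h6] at h8
      have h9 : ‖field G (γ (t1 + 1))‖ = 0 := by
        have := norm_nonneg (field G (γ (t1 + 1)))
        nlinarith
      exact norm_eq_zero.1 h9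
    intro t _
    rw [eq_of_field_zero G h h7 t, ← eq_of_field_zero G h h7 t0]
    have : ρ ≤ r := min_le_left _ _
    linarith
  · push Not at hzero
    have hpos : ∀ t ≥ t0, 0 < e t := fun t ht => lt_of_le_of_ne (he0 t) (Ne.symm (hzero t ht))
    have hclaim : ∀ t ≥ t0, dist (γ t) p' < ρ := by
      by_contra hcon
      push Not at hcon
      obtain ⟨t3, ht3, ht3'⟩ := hcon
      have hγc : Continuous γ := continuous_iff_continuousAt.2 fun t => (h t).continuousAt
      set S : Set ℝ := {t | t0 ≤ t ∧ ρ ≤ dist (γ t) p'} with hS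
      have hScl : IsClosed S :=
        (isClosed_le continuous_const continuous_id).inter
          (isClosed_le continuous_const (hγc.dist continuous_const))
      have hSne : S.Nonempty := ⟨t3, ht3, ht3'⟩
      have hSbdd : BddBelow S := ⟨t0, fun t ht => ht.1⟩
      have ht2 := hScl.csInf_mem hSne hSbdd
      set t2 := sInf S with ht2def
      have hbefore : ∀ t ∈ Ico t0 t2, dist (γ t) p' < ρ := by
        intro t ht
        by_contra hc
        push Not at hc
        have := csInf_le hSbdd (show t ∈ S from ⟨ht.1, hc⟩)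
        linarith [ht.2]
      have hB : ∀ t ≥ t0, HasDerivAt (fun s => Real.sqrt C * (Real.sqrt (e t0) - Real.sqrt (e s)))
          (Real.sqrt C * (sq (field G (γ t)) / Real.sqrt (e t))) t := by
        intro t ht
        have h1 := ((hed t).sqrt (hpos t ht).ne').const_sub (Real.sqrt (e t0))
        have h2 := h1.const_mul (Real.sqrt C)
        have h3 : Real.sqrt C * (sq (field G (γ t)) / Real.sqrt (e t))
            = Real.sqrt C * -(-2 * sq (field G (γ t)) / (2 * Real.sqrt (e t))) := by
          rw [neg_mul, neg_div, neg_neg, mul_div_mul_left _ _ (two_ne_zero)]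
        rw [h3]
        exact h2
      have hbd := image_norm_le_of_norm_deriv_right_le_deriv_boundary'
        (f := fun s => γ s - γ t0) (f' := fun s => field G (γ s)) (a := t0) (b := t2)
        (B := fun s => Real.sqrt C * (Real.sqrt (e t0) - Real.sqrt (e s)))
        (B' := fun t => Real.sqrt C * (sq (field G (γ t)) / Real.sqrt (e t)))
        (by fun_prop)
        (fun s _ => ((h s).sub_const _).hasDerivWithinAt)
        (by simp)
        (fun s hs => (hB s hs.1).continuousAt.continuousWithinAt)
        (fun s hs => (hB s hs.1).hasDerivWithinAt)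
        (fun s hs => by
          have h1 := hPLn s (hbefore s hs)
          have h2 := hpos s hs.1
          have h3 := norm_le_sqrt_sq (field G (γ s))
          refine h3.trans ?_
          have h4 : 0 < sq (field G (γ s)) := by
            by_contra hc
            push Not at hc
            nlinarith
          have h5 : Real.sqrt (e s) ≤ Real.sqrt C * Real.sqrt (sq (field G (γ s))) := by
            rw [← Real.sqrt_mul hCpos.le]; exact Real.sqrt_le_sqrt h1
          have h6 : 0 < Real.sqrt (e s) := Real.sqrt_pos.2 h2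
          rw [← mul_div_assoc, le_div_iff₀ h6]
          calc Real.sqrt (sq (field G (γ s))) * Real.sqrt (e s)
              ≤ Real.sqrt (sq (field G (γ s))) *
                (Real.sqrt C * Real.sqrt (sq (field G (γ s)))) := by gcongr
            _ = Real.sqrt C * (Real.sqrt (sq (field G (γ s))) * Real.sqrt (sq (field G (γ s)))) := by
                ring
            _ = Real.sqrt C * sq (field G (γ s)) := by
                rw [Real.mul_self_sqrt h4.le])
        (x := t2) ⟨ht2.1, le_rfl⟩
      have h8 : Real.sqrt C * (Real.sqrt (e t0) - Real.sqrt (e t2)) ≤ ρ / 2 := by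
        have h9 : Real.sqrt C * Real.sqrt (e t0) ≤ ρ / 2 := by
          rw [← Real.sqrt_mul hCpos.le]
          refine Real.sqrt_le_iff.2 ⟨by positivity, ?_⟩
          have := (lt_div_iff₀ hCpos).1 het0
          linarith
        have h10 : 0 ≤ Real.sqrt C * Real.sqrt (e t2) := by positivity
        linarith [mul_sub (Real.sqrt C) (Real.sqrt (e t0)) (Real.sqrt (e t2))]
      have h11 : dist (γ t2) p' ≤ ‖γ t2 - γ t0‖ + dist (γ t0) p' := by
        rw [← dist_eq_norm]; exact dist_triangle _ _ _
      have h12 := ht2.2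
      linarith
    intro t ht
    exact (hclaim t ht).le.trans (min_le_left _ _)

end KurUV
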